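import Mathlib

/-!
Elementary counting: `ζ^s` counts tuples, the contribution of the largest factor, and the number
of `n` in an interval with `d ∣ n`, `e ∣ n + h`.
-/

namespace Pool.Agent.Work.MP_122e00_nt

open Finset ArithmeticFunction
open scoped ArithmeticFunction.zeta

theorem zeta_pow_apply (s n : ℕ) :
    ((ζ : ArithmeticFunction ℕ) ^ s) n = (Nat.finMulAntidiag s n).card := by
  induction s generalizing n with
  | zero =>
    rw [pow_zero]
    rcases eq_or_ne n 1 with rfl | hn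
    · rw [Nat.finMulAntidiag_one]
      simp
    · rw [Nat.finMulAntidiag_zero_left hn, ArithmeticFunction.one_apply_ne hn]
      simp
  | succ s ih =>
    rw [pow_succ', ArithmeticFunction.mul_apply]
    have h1 : ∀ x ∈ n.divisorsAntidiagonal, ζ x.1 * ((ζ : ArithmeticFunction ℕ) ^ s) x.2 =
        (Nat.finMulAntidiag s x.2).card := by
      intro x hx
      have hx1 : x.1 ≠ 0 := by
        rintro h0
        rw [Nat.mem_divisorsAntidiagonal] at hx
        rw [h0, zero_mul] at hx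
        exact hx.2 hx.1.symm
      rw [ArithmeticFunction.zeta_apply_ne hx1, one_mul, ih]
    rw [Finset.sum_congr rfl h1, ← Finset.card_sigma]
    apply Finset.card_bij'
      (i := fun p _ => (Fin.cons p.1.1 p.2 : Fin (s + 1) → ℕ))
      (j := fun f _ => (⟨(f 0, ∏ i : Fin s, f i.succ), fun i => f i.succ⟩ :
        (_ : ℕ × ℕ) × (Fin s → ℕ)))
    · rintro ⟨⟨x, y⟩, f⟩ hp
      simp only [Finset.mem_sigma, Nat.mem_divisorsAntidiagonal, Nat.mem_finMulAntidiag] at hp
      rw [Nat.mem_finMulAntidiag, Fin.prod_univ_succ]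
      simp only [Fin.cons_zero, Fin.cons_succ]
      rw [hp.2.1]
      exact hp.1
    · intro f hf
      rw [Nat.mem_finMulAntidiag, Fin.prod_univ_succ] at hf
      simp only [Finset.mem_sigma, Nat.mem_divisorsAntidiagonal, Nat.mem_finMulAntidiag]
      refine ⟨hf, trivial, ?_⟩
      intro h0
      rw [h0, mul_zero] at hf
      exact hf.2 hf.1.symm
    · rintro ⟨⟨x, y⟩, f⟩ hp
      simp only [Finset.mem_sigma, Nat.mem_divisorsAntidiagonal, Nat.mem_finMulAntidiag] at hp
      simp only [Fin.cons_zero, Fin.cons_succ]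
      rw [hp.2.1]
    · intro f _
      funext i
      refine Fin.cases ?_ ?_ i
      · rfl
      · intro j
        rfl

/-- the `s`-tuples `a` with product `P` dividing `n` such that the cofactor `n / P` exceeds every
`a j` -/
def T (s n : ℕ) : Finset (Fin s → ℕ) :=
  (Fintype.piFinset (fun _ : Fin s => n.divisors)).filter
    (fun a => (∏ i, a i) ∣ n ∧ ∀ j, a j * (∏ i, a i) < n)

theorem card_T_le (s n : ℕ) (hn : n ≠ 0) :
    (s + 1) * (T s n).card ≤ ((ζ : ArithmeticFunction ℕ) ^ (s + 1)) n := by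
  rw [zeta_pow_apply]
  have h1 : (s + 1) * (T s n).card = ((Finset.univ : Finset (Fin (s + 1))) ×ˢ (T s n)).card := by
    rw [Finset.card_product, Finset.card_univ, Fintype.card_fin]
  rw [h1]
  apply Finset.card_le_card_of_injOn
    (fun p => Fin.insertNth p.1 (n / ∏ i, p.2 i) p.2)
  · rintro ⟨i, a⟩ hp
    simp only [Finset.coe_product, Set.mem_prod, Finset.mem_coe, T, Finset.mem_filter] at hp
    rw [Finset.mem_coe, Nat.mem_finMulAntidiag, Fin.prod_univ_succAbove _ i]
    simp only [Fin.insertNth_apply_same, Fin.insertNth_apply_succAbove]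
    exact ⟨Nat.div_mul_cancel hp.2.2.1, hn⟩
  · have hval : ∀ (a : Fin s → ℕ), a ∈ T s n → ∀ j, a j < n / ∏ i, a i := by
      intro a ha j
      simp only [T, Finset.mem_filter] at ha
      have hpos : 0 < ∏ i, a i := Nat.pos_of_dvd_of_pos ha.2.1 (Nat.pos_of_ne_zero hn)
      rw [Nat.lt_div_iff_mul_lt_of_dvd hpos.ne' ha.2.1]
      exact ha.2.2 j
    rintro ⟨i, a⟩ hp ⟨i', a'⟩ hp' heq
    simp only [Finset.coe_product, Set.mem_prod, Finset.mem_coe] at hp hp'
    simp only at heq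
    have hii : i = i' := by
      by_contra hne
      obtain ⟨j, hj⟩ := Fin.exists_succAbove_eq hne
      obtain ⟨j', hj'⟩ := Fin.exists_succAbove_eq (Ne.symm hne)
      have e1 := congrFun heq i
      rw [Fin.insertNth_apply_same, ← hj, Fin.insertNth_apply_succAbove] at e1
      have e2 := congrFun heq i'
      rw [Fin.insertNth_apply_same, ← hj', Fin.insertNth_apply_succAbove] at e2
      have l1 := hval a hp.2 j'
      have l2 := hval a' hp'.2 j
      omega
    subst hii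
    have haa : a = a' := by
      funext j
      have := congrFun heq (i.succAbove j)
      rwa [Fin.insertNth_apply_succAbove, Fin.insertNth_apply_succAbove] at this
    rw [haa]

/-- number of `n ∈ (m, M]` with `d ∣ n` and `e ∣ n + h`, from below -/
theorem count_ge (d e h m M : ℕ) (hd : 0 < d) (he : 0 < e) (hmM : m ≤ M) :
    (if Nat.gcd d e ∣ h then (Nat.gcd d e : ℝ) else 0) * ((1 / (d : ℝ)) * (1 / (e : ℝ))) *
      ((M : ℝ) - m) - 1 ≤ (((Finset.Ioc m M).filter (fun n => d ∣ n ∧ e ∣ n + h)).card : ℝ) := by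
  split_ifs with hg
  · have hcomp : 0 ≡ h * (e - 1) [MOD Nat.gcd d e] :=
      (Nat.modEq_zero_iff_dvd.mpr (Dvd.dvd.mul_right hg _)).symm
    obtain ⟨n0, hn1, hn2⟩ := Nat.chineseRemainder' hcomp
    have hl : 0 < Nat.lcm d e := Nat.lcm_pos hd he
    have hsub : (Finset.Ioc m M).filter (fun n => n ≡ n0 [MOD Nat.lcm d e]) ⊆
        (Finset.Ioc m M).filter (fun n => d ∣ n ∧ e ∣ n + h) := by
      intro n hn
      rw [Finset.mem_filter] at hn ⊢
      refine ⟨hn.1, ?_, ?_⟩
      · have h1 : n ≡ 0 [MOD d] := (hn.2.of_dvd (Nat.dvd_lcm_left d e)).trans hn1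
        exact (Nat.modEq_zero_iff_dvd).mp h1
      · have h1 : n ≡ h * (e - 1) [MOD e] := (hn.2.of_dvd (Nat.dvd_lcm_right d e)).trans hn2
        have h2 : n + h ≡ h * (e - 1) + h [MOD e] := h1.add_right h
        have h3 : h * (e - 1) + h = e * h := by
          obtain ⟨e', rfl⟩ : ∃ e', e = e' + 1 := ⟨e - 1, by omega⟩
          simp only [Nat.add_sub_cancel]
          ring
        rw [h3] at h2
        exact (Nat.modEq_zero_iff_dvd).mp (h2.trans (Nat.modEq_zero_iff_dvd.mpr (Dvd.intro _ rfl)))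
    have hcard := Finset.card_le_card hsub
    have hcount := Nat.Ioc_filter_modEq_card m M hl n0
    have hreal : ((M : ℝ) - m) / (Nat.lcm d e : ℝ) - 1 ≤
        (((Finset.Ioc m M).filter (fun n => n ≡ n0 [MOD Nat.lcm d e])).card : ℝ) := by
      have h1 : ((((Finset.Ioc m M).filter (fun n => n ≡ n0 [MOD Nat.lcm d e])).card : ℤ) : ℚ) =
          ((max (⌊((M : ℚ) - n0) / (Nat.lcm d e : ℚ)⌋ - ⌊((m : ℚ) - n0) / (Nat.lcm d e : ℚ)⌋) 0 : ℤ) : ℚ) := by
        exact_mod_cast hcount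
      have h2 : ((M : ℚ) - n0) / (Nat.lcm d e : ℚ) - 1 < ⌊((M : ℚ) - n0) / (Nat.lcm d e : ℚ)⌋ :=
        Int.sub_one_lt_floor _
      have h3 : (⌊((m : ℚ) - n0) / (Nat.lcm d e : ℚ)⌋ : ℚ) ≤ ((m : ℚ) - n0) / (Nat.lcm d e : ℚ) :=
        Int.floor_le _
      have h4 : ((⌊((M : ℚ) - n0) / (Nat.lcm d e : ℚ)⌋ - ⌊((m : ℚ) - n0) / (Nat.lcm d e : ℚ)⌋ : ℤ) : ℚ) ≤
          ((max (⌊((M : ℚ) - n0) / (Nat.lcm d e : ℚ)⌋ - ⌊((m : ℚ) - n0) / (Nat.lcm d e : ℚ)⌋) 0 : ℤ) : ℚ) := by
        exact_mod_cast le_max_left _ _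
      push_cast at h4
      have h5 : ((M : ℚ) - m) / (Nat.lcm d e : ℚ) =
          ((M : ℚ) - n0) / (Nat.lcm d e : ℚ) - ((m : ℚ) - n0) / (Nat.lcm d e : ℚ) := by ring
      have h6 : ((M : ℚ) - m) / (Nat.lcm d e : ℚ) - 1 ≤
          ((((Finset.Ioc m M).filter (fun n => n ≡ n0 [MOD Nat.lcm d e])).card : ℤ) : ℚ) := by
        rw [h1]
        push_cast
        linarith
      have h7 : ((((M : ℚ) - m) / (Nat.lcm d e : ℚ) - 1 : ℚ) : ℝ) ≤
          (((((Finset.Ioc m M).filter (fun n => n ≡ n0 [MOD Nat.lcm d e])).card : ℤ) : ℚ) : ℝ) := by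
        exact_mod_cast h6
      push_cast at h7
      exact h7
    have hgl : (Nat.gcd d e : ℝ) * ((1 / (d : ℝ)) * (1 / (e : ℝ))) * ((M : ℝ) - m) =
        ((M : ℝ) - m) / (Nat.lcm d e : ℝ) := by
      have h1 : (Nat.gcd d e : ℝ) * (Nat.lcm d e : ℝ) = (d : ℝ) * e := by
        exact_mod_cast Nat.gcd_mul_lcm d e
      have hd' : (d : ℝ) ≠ 0 := by exact_mod_cast hd.ne'
      have he' : (e : ℝ) ≠ 0 := by exact_mod_cast he.ne'
      have hl' : (Nat.lcm d e : ℝ) ≠ 0 := by exact_mod_cast hl.ne'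
      have h2 : (Nat.gcd d e : ℝ) * ((1 / (d : ℝ)) * (1 / (e : ℝ))) = 1 / (Nat.lcm d e : ℝ) := by
        field_simp
        linarith
      rw [h2]
      ring
    rw [hgl]
    refine hreal.trans ?_
    exact_mod_cast hcard
  · have : (0 : ℝ) ≤ (((Finset.Ioc m M).filter (fun n => d ∣ n ∧ e ∣ n + h)).card : ℝ) :=
      Nat.cast_nonneg _
    linarith

end Pool.Agent.Work.MP_122e00_nt
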