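import Mathlib

/-!
The additive large sieve inequality (with a logarithmic loss), by duality.
-/

namespace Pool.Agent.Work.MP_122e00_nt

open Finset Complex

/-- `e(x) = exp(2 π i x)` -/
noncomputable def ee (x : ℝ) : ℂ := Complex.exp (2 * Real.pi * x * Complex.I)

theorem norm_ee (x : ℝ) : ‖ee x‖ = 1 := by
  unfold ee
  have : (2 * Real.pi * x * Complex.I : ℂ) = ((2 * Real.pi * x : ℝ) : ℂ) * Complex.I := by
    push_cast; ring
  rw [this, Complex.norm_exp_ofReal_mul_I]

theorem ee_add (x y : ℝ) : ee (x + y) = ee x * ee y := by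
  unfold ee
  rw [← Complex.exp_add]
  congr 1
  push_cast
  ring

theorem ee_neg (x : ℝ) : ee (-x) = (starRingEnd ℂ) (ee x) := by
  unfold ee
  rw [← Complex.exp_conj]
  congr 1
  simp only [map_mul, Complex.conj_I, Complex.conj_ofReal]
  push_cast
  rw [show (starRingEnd ℂ) 2 = 2 from Complex.conj_ofNat 2]
  ring

theorem ee_one_period (x : ℝ) (n : ℤ) : ee (x + n) = ee x := by
  unfold ee
  have : (2 * Real.pi * ((x + n : ℝ) : ℂ) * Complex.I : ℂ) =
      2 * Real.pi * x * Complex.I + n * (2 * Real.pi * Complex.I) := by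
    push_cast; ring
  rw [this, Complex.exp_add, Complex.exp_int_mul_two_pi_mul_I, mul_one]

theorem ee_nat_mul (n : ℕ) (x : ℝ) : ee (n * x) = (ee x) ^ n := by
  unfold ee
  rw [← Complex.exp_nat_mul]
  congr 1
  push_cast
  ring

theorem norm_ee_sub_one (t : ℝ) : ‖ee t - 1‖ = 2 * |Real.sin (Real.pi * t)| := by
  have h1 : ee t - 1 = ee (t / 2) * (ee (t / 2) - ee (-(t / 2))) := by
    rw [mul_sub, ← ee_add, ← ee_add]
    have h0 : ee 0 = 1 := by unfold ee; simp
    rw [show t / 2 + t / 2 = t by ring, show t / 2 + -(t / 2) = 0 by ring, h0]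
  rw [h1, norm_mul, norm_ee, one_mul]
  have h2 : ee (t / 2) - ee (-(t / 2)) = 2 * Complex.I * (Real.sin (Real.pi * t) : ℂ) := by
    unfold ee
    rw [Complex.ofReal_sin, Complex.sin]
    push_cast
    have hI : Complex.I * Complex.I = -1 := Complex.I_mul_I
    have e1 : (2 * (Real.pi : ℂ) * (t / 2) * Complex.I) = Real.pi * t * Complex.I := by ring
    have e2 : (2 * (Real.pi : ℂ) * (-(t / 2)) * Complex.I) = -(Real.pi * t) * Complex.I := by ring
    rw [e1, e2]
    linear_combination (-(Complex.exp (-(Real.pi * t) * Complex.I) -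
      Complex.exp (Real.pi * t * Complex.I))) * hI
  rw [h2, norm_mul, norm_mul, Complex.norm_I, Complex.norm_real]
  norm_num

theorem geom_bound {t : ℝ} (h0 : 0 < t) (h1 : t < 1) (N : ℕ) :
    ‖∑ n ∈ Finset.range N, ee (n * t)‖ ≤ 1 / (2 * t) + 1 / (2 * (1 - t)) := by
  have hsin : 0 < Real.sin (Real.pi * t) := by
    apply Real.sin_pos_of_pos_of_lt_pi
    · exact mul_pos Real.pi_pos h0
    · nlinarith [Real.pi_pos]
  have hne : ee t - 1 ≠ 0 := by
    intro h
    have := norm_ee_sub_one t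
    rw [h, norm_zero, abs_of_pos hsin] at this
    linarith
  simp_rw [ee_nat_mul]
  rw [geom_sum_eq (fun h => hne (by rw [h, sub_self]))]
  rw [norm_div, norm_ee_sub_one, abs_of_pos hsin]
  have hnum : ‖ee t ^ N - 1‖ ≤ 2 := by
    calc ‖ee t ^ N - 1‖ ≤ ‖ee t ^ N‖ + ‖(1 : ℂ)‖ := norm_sub_le _ _
      _ = 2 := by rw [norm_pow, norm_ee, one_pow, norm_one]; norm_num
  have hmain : ‖ee t ^ N - 1‖ / (2 * Real.sin (Real.pi * t)) ≤ 1 / Real.sin (Real.pi * t) := by
    rw [div_le_div_iff₀ (by positivity) hsin]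
    nlinarith
  refine hmain.trans ?_
  rcases le_or_gt t (1 / 2) with ht | ht
  · have h2 : 2 * t ≤ Real.sin (Real.pi * t) := by
      have := Real.mul_le_sin (x := Real.pi * t) (by positivity) (by nlinarith [Real.pi_pos])
      have e : 2 / Real.pi * (Real.pi * t) = 2 * t := by
        field_simp
      rwa [e] at this
    have h3 : 1 / Real.sin (Real.pi * t) ≤ 1 / (2 * t) := one_div_le_one_div_of_le (by positivity) h2
    have h4 : 0 ≤ 1 / (2 * (1 - t)) := by
      apply div_nonneg (by norm_num)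
      linarith
    linarith
  · have h2 : 2 * (1 - t) ≤ Real.sin (Real.pi * t) := by
      have := Real.mul_le_sin (x := Real.pi * (1 - t))
        (mul_nonneg Real.pi_pos.le (by linarith)) (by nlinarith [Real.pi_pos])
      have e : 2 / Real.pi * (Real.pi * (1 - t)) = 2 * (1 - t) := by
        field_simp
      rw [e] at this
      have e2 : Real.sin (Real.pi * (1 - t)) = Real.sin (Real.pi * t) := by
        rw [mul_sub, mul_one, Real.sin_pi_sub]
      rwa [e2] at this
    have h3 : 1 / Real.sin (Real.pi * t) ≤ 1 / (2 * (1 - t)) :=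
      one_div_le_one_div_of_le (by linarith) h2
    have h4 : 0 ≤ 1 / (2 * t) := by positivity
    linarith

/-- sum over spaced points: if the points `t p`, `p ∈ S`, lie in `[1/D, 1)` and are pairwise at
distance at least `1/D`, then `∑ 1/t p ≤ D * H(D)`. -/
theorem sum_inv_spaced {ι : Type*} (S : Finset ι) (t : ι → ℝ) (D : ℕ) (hD : 0 < D)
    (h1 : ∀ p ∈ S, 1 / (D : ℝ) ≤ t p) (h2 : ∀ p ∈ S, t p < 1)
    (h3 : ∀ p ∈ S, ∀ q ∈ S, p ≠ q → 1 / (D : ℝ) ≤ |t p - t q|) :
    ∑ p ∈ S, 1 / t p ≤ D * (harmonic D : ℝ) := by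
  have hD' : (0 : ℝ) < D := by exact_mod_cast hD
  have hpos : ∀ p ∈ S, 0 < t p := fun p hp => lt_of_lt_of_le (by positivity) (h1 p hp)
  have hfl : ∀ p ∈ S, 1 ≤ ⌊D * t p⌋₊ := by
    intro p hp
    rw [Nat.one_le_floor_iff]
    have := h1 p hp
    rw [div_le_iff₀ hD'] at this
    linarith
  have hfl2 : ∀ p ∈ S, ⌊D * t p⌋₊ ≤ D := by
    intro p hp
    apply Nat.floor_le_of_le
    have := h2 p hp
    nlinarith
  have hinj : Set.InjOn (fun p => ⌊D * t p⌋₊) (S : Set ι) := by
    intro p hp q hq hpq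
    by_contra hne
    have hp' : p ∈ S := hp
    have hq' : q ∈ S := hq
    have h4 := h3 p hp' q hq' hne
    simp only at hpq
    have a1 : (⌊D * t p⌋₊ : ℝ) ≤ D * t p := Nat.floor_le (mul_pos hD' (hpos p hp')).le
    have a2 : (D * t p : ℝ) < ⌊D * t p⌋₊ + 1 := Nat.lt_floor_add_one _
    have b1 : (⌊D * t q⌋₊ : ℝ) ≤ D * t q := Nat.floor_le (mul_pos hD' (hpos q hq')).le
    have b2 : (D * t q : ℝ) < ⌊D * t q⌋₊ + 1 := Nat.lt_floor_add_one _
    rw [hpq] at a1 a2
    have h5 : |D * t p - D * t q| < 1 := by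
      rw [abs_lt]
      constructor <;> linarith
    rw [← mul_sub, abs_mul, abs_of_pos hD'] at h5
    rw [div_le_iff₀ hD'] at h4
    linarith
  calc ∑ p ∈ S, 1 / t p ≤ ∑ p ∈ S, (D : ℝ) * (1 / ((⌊D * t p⌋₊ : ℕ) : ℝ)) := by
        apply Finset.sum_le_sum
        intro p hp
        have a1 : (⌊D * t p⌋₊ : ℝ) ≤ D * t p := Nat.floor_le (mul_pos hD' (hpos p hp)).le
        have a2 : (1 : ℝ) ≤ ⌊D * t p⌋₊ := by exact_mod_cast hfl p hp
        rw [mul_one_div, div_le_div_iff₀ (hpos p hp) (by linarith)]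
        linarith
    _ = (D : ℝ) * ∑ p ∈ S, (1 / ((⌊D * t p⌋₊ : ℕ) : ℝ)) := by rw [Finset.mul_sum]
    _ = (D : ℝ) * ∑ j ∈ S.image (fun p => ⌊D * t p⌋₊), (1 / (j : ℝ)) := by
        rw [Finset.sum_image hinj]
    _ ≤ (D : ℝ) * ∑ j ∈ Finset.Icc 1 D, (1 / (j : ℝ)) := by
        apply mul_le_mul_of_nonneg_left _ hD'.le
        apply Finset.sum_le_sum_of_subset_of_nonneg
        · intro j hj
          rw [Finset.mem_image] at hj
          obtain ⟨p, hp, rfl⟩ := hj
          exact Finset.mem_Icc.mpr ⟨hfl p hp, hfl2 p hp⟩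
        · intro j _ _
          positivity
    _ = D * (harmonic D : ℝ) := by
        rw [harmonic_eq_sum_Icc]
        push_cast
        simp only [one_div]

end Pool.Agent.Work.MP_122e00_nt
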