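import Mathlib
import Pool.Agent.Work.MP_122e00_nt.Bd.B02

/-!
The multiplicative large sieve for primitive characters.
-/

namespace Pool.Agent.Work.MP_122e00_nt

open Finset Complex DirichletCharacter

section single

variable {f : ℕ} [NeZero f]

theorem norm_sq_gaussSum {χ : DirichletCharacter ℂ f} (hχ : χ.IsPrimitive) :
    ‖gaussSum χ (ZMod.stdAddChar : AddChar (ZMod f) ℂ)‖ ^ 2 = f := by
  have h1 := congrFun (ZMod.dft_dft (χ : ZMod f → ℂ)) (-1)
  simp only [neg_neg, map_one, smul_eq_mul, mul_one] at h1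
  have h2 : ZMod.dft (ZMod.dft (χ : ZMod f → ℂ)) (-1) =
      gaussSum χ (ZMod.stdAddChar : AddChar (ZMod f) ℂ) *
        gaussSum χ⁻¹ (ZMod.stdAddChar : AddChar (ZMod f) ℂ)⁻¹ := by
    rw [ZMod.dft_apply]
    simp only [IsPrimitive.fourierTransform_eq_inv_mul_gaussSum hχ, smul_eq_mul]
    have e : gaussSum χ⁻¹ (ZMod.stdAddChar : AddChar (ZMod f) ℂ)⁻¹ =
        ∑ j : ZMod f, χ⁻¹ (-j) * (ZMod.stdAddChar j : ℂ) := by
      unfold gaussSum
      rw [← Equiv.sum_comp (Equiv.neg (ZMod f))]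
      apply Finset.sum_congr rfl
      intro j _
      simp only [Equiv.neg_apply, neg_neg, AddChar.inv_apply]
    rw [e, Finset.mul_sum]
    apply Finset.sum_congr rfl
    intro j _
    rw [show -(j * -1) = j by ring]
    ring
  rw [h2, ← star_gaussSum_eq] at h1
  have h3 : gaussSum χ (ZMod.stdAddChar : AddChar (ZMod f) ℂ) *
      star (gaussSum χ (ZMod.stdAddChar : AddChar (ZMod f) ℂ)) =
      ((‖gaussSum χ (ZMod.stdAddChar : AddChar (ZMod f) ℂ)‖ ^ 2 : ℝ) : ℂ) := by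
    rw [Complex.star_def, Complex.mul_conj']
    push_cast
    rfl
  rw [h3] at h1
  exact_mod_cast h1

theorem char_mul_gauss {χ : DirichletCharacter ℂ f} (hχ : χ.IsPrimitive) (a : ZMod f) :
    χ a * gaussSum χ⁻¹ (ZMod.stdAddChar : AddChar (ZMod f) ℂ) =
      ∑ j : ZMod f, χ⁻¹ j * (ZMod.stdAddChar (a * j) : ℂ) := by
  have hχ' : (χ⁻¹).IsPrimitive := by
    rw [isPrimitive_def, conductor_inv]
    exact hχ
  have h1 := gaussSum_mulShift_of_isPrimitive (ZMod.stdAddChar : AddChar (ZMod f) ℂ) hχ' a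
  rw [inv_inv] at h1
  rw [← h1]
  unfold gaussSum
  rfl

theorem sum_char_sq (g : ZMod f → ℂ) :
    ∑ χ : DirichletCharacter ℂ f, ‖∑ j : ZMod f, χ⁻¹ j * g j‖ ^ 2 =
      (f.totient : ℝ) * ∑ j : ZMod f, (if IsUnit j then ‖g j‖ ^ 2 else 0) := by
  classical
  have h1 : ((∑ χ : DirichletCharacter ℂ f, ‖∑ j : ZMod f, χ⁻¹ j * g j‖ ^ 2 : ℝ) : ℂ) =
      ∑ j : ZMod f, ∑ j' : ZMod f, (g j * (starRingEnd ℂ) (g j')) *
        ∑ χ : DirichletCharacter ℂ f, χ⁻¹ j * χ j' := by
    push_cast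
    have e1 : ∀ χ : DirichletCharacter ℂ f, ((‖∑ j : ZMod f, χ⁻¹ j * g j‖ : ℂ)) ^ 2 =
        ∑ j : ZMod f, ∑ j' : ZMod f, (g j * (starRingEnd ℂ) (g j')) * (χ⁻¹ j * χ j') := by
      intro χ
      rw [← Complex.mul_conj', map_sum, Finset.sum_mul_sum]
      apply Finset.sum_congr rfl
      intro j _
      apply Finset.sum_congr rfl
      intro j' _
      rw [map_mul]
      have : (starRingEnd ℂ) (χ⁻¹ j') = χ j' := by
        rw [← Complex.star_def, MulChar.star_apply', inv_inv]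
      rw [this]
      ring
    rw [Finset.sum_congr rfl (fun χ _ => e1 χ), Finset.sum_comm]
    apply Finset.sum_congr rfl
    intro j _
    rw [Finset.sum_comm]
    apply Finset.sum_congr rfl
    intro j' _
    exact (Finset.mul_sum _ _ _).symm
  have h2 : ∀ j j' : ZMod f, ∑ χ : DirichletCharacter ℂ f, χ⁻¹ j * χ j' =
      if IsUnit j ∧ j = j' then (f.totient : ℂ) else 0 := by
    intro j j'
    by_cases hj : IsUnit j
    · have e1 : ∀ χ : DirichletCharacter ℂ f, χ⁻¹ j * χ j' = χ j⁻¹ * χ j' := by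
        intro χ
        obtain ⟨u, rfl⟩ := hj
        rw [MulChar.inv_apply, Ring.inverse_unit, ZMod.inv_coe_unit]
      rw [Finset.sum_congr rfl (fun χ _ => e1 χ), sum_char_inv_mul_char_eq ℂ hj]
      simp only [hj, true_and]
    · rw [if_neg (fun h => hj h.1)]
      apply Finset.sum_eq_zero
      intro χ _
      rw [MulChar.map_nonunit _ hj, zero_mul]
  have h3 : ((∑ χ : DirichletCharacter ℂ f, ‖∑ j : ZMod f, χ⁻¹ j * g j‖ ^ 2 : ℝ) : ℂ) =
      (((f.totient : ℝ) * ∑ j : ZMod f, (if IsUnit j then ‖g j‖ ^ 2 else 0) : ℝ) : ℂ) := by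
    rw [h1]
    simp_rw [h2]
    push_cast
    rw [Finset.mul_sum]
    apply Finset.sum_congr rfl
    intro j _
    by_cases hj : IsUnit j
    · simp only [hj, true_and, mul_ite, mul_zero, Finset.sum_ite_eq, Finset.mem_univ, if_true]
      rw [Complex.mul_conj']
      push_cast
      ring
    · simp [hj]
  exact_mod_cast h3

theorem stdAddChar_nat_mul (n : ℕ) (j : ZMod f) :
    (ZMod.stdAddChar ((n : ZMod f) * j) : ℂ) = ee (n * ((j.val : ℝ) / f)) := by
  have h1 : (n : ZMod f) * j = (((n * j.val : ℕ) : ℤ) : ZMod f) := by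
    push_cast
    rw [ZMod.natCast_zmod_val]
  rw [h1, ZMod.stdAddChar_coe]
  unfold ee
  congr 1
  push_cast
  ring

theorem sum_units_eq (g : ℕ → ℝ) :
    ∑ j : ZMod f, (if IsUnit j then g j.val else 0) =
      ∑ j ∈ (Finset.range f).filter (fun j => Nat.Coprime j f), g j := by
  classical
  rw [← Finset.sum_filter]
  apply Finset.sum_bij (fun (j : ZMod f) _ => j.val)
  · intro j hj
    rw [Finset.mem_filter] at hj
    rw [Finset.mem_filter, Finset.mem_range]
    refine ⟨ZMod.val_lt j, ?_⟩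
    have := hj.2
    rw [← ZMod.natCast_zmod_val j, ZMod.isUnit_iff_coprime] at this
    exact this
  · intro j _ j' _ h
    exact ZMod.val_injective f h
  · intro j hj
    rw [Finset.mem_filter, Finset.mem_range] at hj
    refine ⟨(j : ZMod f), ?_, ZMod.val_cast_of_lt hj.1⟩
    rw [Finset.mem_filter]
    refine ⟨Finset.mem_univ _, ?_⟩
    rw [ZMod.isUnit_iff_coprime]
    exact hj.2
  · intro j _
    rfl

open Classical in
theorem prim_sum_le (N : ℕ) (c : ℕ → ℂ) :
    ∑ χ ∈ (Finset.univ : Finset (DirichletCharacter ℂ f)).filter (fun χ => χ.IsPrimitive),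
      ‖∑ n ∈ Finset.range N, c n * χ (n : ZMod f)‖ ^ 2 ≤
      ∑ j ∈ (Finset.range f).filter (fun j => Nat.Coprime j f),
        ‖∑ n ∈ Finset.range N, c n * ee (n * ((j : ℝ) / f))‖ ^ 2 := by
  have hf : (0 : ℝ) < f := by exact_mod_cast Nat.pos_of_ne_zero (NeZero.ne f)
  have h1 : ∀ χ ∈ (Finset.univ : Finset (DirichletCharacter ℂ f)).filter (fun χ => χ.IsPrimitive),
      ‖∑ n ∈ Finset.range N, c n * χ (n : ZMod f)‖ ^ 2 =
      (1 / (f : ℝ)) * ‖∑ j : ZMod f, χ⁻¹ j *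
        ∑ n ∈ Finset.range N, c n * ee (n * ((j.val : ℝ) / f))‖ ^ 2 := by
    intro χ hχ
    rw [Finset.mem_filter] at hχ
    have hχ' : (χ⁻¹).IsPrimitive := by
      rw [isPrimitive_def, conductor_inv]
      exact hχ.2
    have e1 : (∑ n ∈ Finset.range N, c n * χ (n : ZMod f)) *
        gaussSum χ⁻¹ (ZMod.stdAddChar : AddChar (ZMod f) ℂ) =
        ∑ j : ZMod f, χ⁻¹ j * ∑ n ∈ Finset.range N, c n * ee (n * ((j.val : ℝ) / f)) := by
      simp_rw [Finset.sum_mul, Finset.mul_sum]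
      rw [Finset.sum_comm]
      apply Finset.sum_congr rfl
      intro n _
      rw [mul_assoc, char_mul_gauss hχ.2, Finset.mul_sum]
      apply Finset.sum_congr rfl
      intro j _
      rw [stdAddChar_nat_mul]
      ring
    rw [← e1, norm_mul, mul_pow, norm_sq_gaussSum hχ']
    field_simp
  rw [Finset.sum_congr rfl h1, ← Finset.mul_sum]
  have h2 : ∑ χ ∈ (Finset.univ : Finset (DirichletCharacter ℂ f)).filter (fun χ => χ.IsPrimitive),
      ‖∑ j : ZMod f, χ⁻¹ j *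
        ∑ n ∈ Finset.range N, c n * ee (n * ((j.val : ℝ) / f))‖ ^ 2 ≤
      (f.totient : ℝ) * ∑ j ∈ (Finset.range f).filter (fun j => Nat.Coprime j f),
        ‖∑ n ∈ Finset.range N, c n * ee (n * ((j : ℝ) / f))‖ ^ 2 := by
    rw [← sum_units_eq (f := f)
      (fun j => ‖∑ n ∈ Finset.range N, c n * ee (n * ((j : ℝ) / f))‖ ^ 2), ← sum_char_sq]
    apply Finset.sum_le_sum_of_subset_of_nonneg (Finset.filter_subset _ _)
    intro _ _ _
    positivity
  have h3 : (f.totient : ℝ) ≤ f := by exact_mod_cast Nat.totient_le f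
  have h4 : 0 ≤ ∑ j ∈ (Finset.range f).filter (fun j => Nat.Coprime j f),
        ‖∑ n ∈ Finset.range N, c n * ee (n * ((j : ℝ) / f))‖ ^ 2 :=
    Finset.sum_nonneg (fun _ _ => by positivity)
  calc (1 / (f : ℝ)) * _ ≤ (1 / (f : ℝ)) * ((f.totient : ℝ) *
        ∑ j ∈ (Finset.range f).filter (fun j => Nat.Coprime j f),
        ‖∑ n ∈ Finset.range N, c n * ee (n * ((j : ℝ) / f))‖ ^ 2) :=
        mul_le_mul_of_nonneg_left h2 (by positivity)
    _ ≤ (1 / (f : ℝ)) * ((f : ℝ) *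
        ∑ j ∈ (Finset.range f).filter (fun j => Nat.Coprime j f),
        ‖∑ n ∈ Finset.range N, c n * ee (n * ((j : ℝ) / f))‖ ^ 2) := by
        apply mul_le_mul_of_nonneg_left _ (by positivity)
        exact mul_le_mul_of_nonneg_right h3 h4
    _ = _ := by field_simp

end single

open Classical in
/-- the primitive characters modulo `f` -/
noncomputable def Prim (f : ℕ) : Finset (DirichletCharacter ℂ f) :=
  if h : f = 0 then ∅ else
    have : NeZero f := ⟨h⟩
    (Finset.univ : Finset (DirichletCharacter ℂ f)).filter (fun χ => χ.IsPrimitive)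

theorem mem_Prim {f : ℕ} (hf : f ≠ 0) (χ : DirichletCharacter ℂ f) :
    χ ∈ Prim f ↔ χ.IsPrimitive := by
  unfold Prim
  rw [dif_neg hf]
  simp

/-- the multiplicative large sieve (with a logarithmic loss) -/
theorem mult_ls (F : ℕ) (hF : 0 < F) (N : ℕ) (c : ℕ → ℂ) :
    ∑ f ∈ Finset.Icc 1 F, ∑ χ ∈ Prim f, ‖∑ n ∈ Finset.range N, c n * χ (n : ZMod f)‖ ^ 2 ≤
      (N + (F ^ 2 : ℕ) * (harmonic (F ^ 2) : ℝ)) * ∑ n ∈ Finset.range N, ‖c n‖ ^ 2 := by
  refine le_trans ?_ (farey_ls F hF N c)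
  apply Finset.sum_le_sum
  intro f hf
  rw [Finset.mem_Icc] at hf
  have hf0 : f ≠ 0 := by omega
  have : NeZero f := ⟨hf0⟩
  have h := prim_sum_le (f := f) N c
  unfold Prim
  rw [dif_neg hf0]
  exact h

end Pool.Agent.Work.MP_122e00_nt
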