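import Mathlib
import Pool.Agent.Work.MP_122e00_nt.LSMult

/-!
Reduction of a congruence count to primitive characters.
-/

namespace Pool.Agent.Work.MP_122e00_nt

open Finset Complex DirichletCharacter

/-- twisted sum over an interval, with a coprimality condition -/
noncomputable def chiA (A B k : ℕ) {f : ℕ} (ψ : DirichletCharacter ℂ f) : ℂ :=
  ∑ m ∈ Finset.Ioc A B, if Nat.Coprime m k then ψ (m : ZMod f) else 0

/-- twisted sum of a sequence, with a coprimality condition -/
noncomputable def chiB (β : ℕ → ℂ) (N k : ℕ) {f : ℕ} (ψ : DirichletCharacter ℂ f) : ℂ :=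
  ∑ n ∈ Finset.range N, if Nat.Coprime n k then β n * ψ (n : ZMod f) else 0

/-- weighted number of solutions of `m n ≡ c (mod E)`, `A < m ≤ B`, `n < N` -/
noncomputable def cnt (β : ℕ → ℂ) (A B N E : ℕ) (c : ZMod E) : ℂ :=
  ∑ n ∈ Finset.range N, β n *
    (((Finset.Ioc A B).filter (fun m : ℕ => ((m * n : ℕ) : ZMod E) = c)).card : ℂ)

theorem cnt_eq (β : ℕ → ℂ) (A B N E : ℕ) [NeZero E] (c : ZMod E) (hc : IsUnit c) :
    (E.totient : ℂ) * cnt β A B N E c = ∑ χ : DirichletCharacter ℂ E,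
      χ c⁻¹ * ((∑ m ∈ Finset.Ioc A B, χ (m : ZMod E)) *
        (∑ n ∈ Finset.range N, β n * χ (n : ZMod E))) := by
  classical
  unfold cnt
  have h1 : ∀ n ∈ Finset.range N, (E.totient : ℂ) * (β n *
      (((Finset.Ioc A B).filter (fun m : ℕ => ((m * n : ℕ) : ZMod E) = c)).card : ℂ)) =
      ∑ m ∈ Finset.Ioc A B, β n * ∑ χ : DirichletCharacter ℂ E,
        χ c⁻¹ * χ ((m * n : ℕ) : ZMod E) := by
    intro n _
    rw [Finset.card_filter]
    push_cast
    rw [mul_left_comm, Finset.mul_sum, Finset.mul_sum]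
    apply Finset.sum_congr rfl
    intro m _
    congr 1
    rw [sum_char_inv_mul_char_eq ℂ hc]
    by_cases h : (m : ZMod E) * (n : ZMod E) = c
    · rw [if_pos h, if_pos h.symm, mul_one]
    · rw [if_neg h, if_neg (fun h' => h h'.symm), mul_zero]
  rw [Finset.mul_sum, Finset.sum_congr rfl h1]
  simp_rw [Finset.mul_sum, Finset.sum_mul]
  rw [Finset.sum_comm]
  have h2 : ∀ m ∈ Finset.Ioc A B, ∑ n ∈ Finset.range N, ∑ χ : DirichletCharacter ℂ E,
      β n * (χ c⁻¹ * χ ((m * n : ℕ) : ZMod E)) =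
      ∑ χ : DirichletCharacter ℂ E, ∑ n ∈ Finset.range N,
        χ c⁻¹ * (χ (m : ZMod E) * (β n * χ (n : ZMod E))) := by
    intro m _
    rw [Finset.sum_comm]
    apply Finset.sum_congr rfl
    intro χ _
    apply Finset.sum_congr rfl
    intro n _
    push_cast
    rw [map_mul]
    ring
  rw [Finset.sum_congr rfl h2, Finset.sum_comm]
  apply Finset.sum_congr rfl
  intro χ _
  rw [Finset.sum_comm]
  simp_rw [Finset.mul_sum]

theorem char_eq_prim {E : ℕ} [NeZero E] (χ : DirichletCharacter ℂ E) (k : ℕ)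
    (hE : E = χ.conductor * k) (m : ℕ) :
    χ (m : ZMod E) = if Nat.Coprime m k then χ.primitiveCharacter (m : ZMod χ.conductor) else 0 := by
  by_cases hm : Nat.Coprime m E
  · have hk : Nat.Coprime m k := by
      rw [hE] at hm
      exact Nat.Coprime.coprime_mul_left_right hm
    rw [if_pos hk]
    have h1 : IsCoprime (m : ℤ) (E : ℤ) := Nat.isCoprime_iff_coprime.mpr hm
    have h2 := primitiveCharacter_apply_of_isCoprime χ h1
    push_cast at h2
    exact h2.symm
  · have h1 : χ (m : ZMod E) = 0 := by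
      apply MulChar.map_nonunit
      rw [ZMod.isUnit_iff_coprime]
      exact hm
    rw [h1]
    split_ifs with hk
    · symm
      apply MulChar.map_nonunit
      rw [ZMod.isUnit_iff_coprime]
      intro hf
      apply hm
      rw [hE]
      exact Nat.Coprime.mul_right hf hk
    · rfl

theorem sum_char_eq_chiA {E : ℕ} [NeZero E] (χ : DirichletCharacter ℂ E) (A B : ℕ) :
    ∑ m ∈ Finset.Ioc A B, χ (m : ZMod E) = chiA A B (E / χ.conductor) χ.primitiveCharacter := by
  unfold chiA
  apply Finset.sum_congr rfl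
  intro m _
  exact char_eq_prim χ _ (Nat.mul_div_cancel' χ.conductor_dvd_level).symm m

theorem sum_char_eq_chiB {E : ℕ} [NeZero E] (χ : DirichletCharacter ℂ E) (β : ℕ → ℂ) (N : ℕ) :
    ∑ n ∈ Finset.range N, β n * χ (n : ZMod E) =
      chiB β N (E / χ.conductor) χ.primitiveCharacter := by
  unfold chiB
  apply Finset.sum_congr rfl
  intro n _
  rw [char_eq_prim χ _ (Nat.mul_div_cancel' χ.conductor_dvd_level).symm n]
  split_ifs
  · rfl
  · rw [mul_zero]

/-- sum over the nonprincipal characters modulo `E`, bounded through primitive characters -/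
theorem sum_nonprincipal_le {E : ℕ} [NeZero E] (β : ℕ → ℂ) (A B N : ℕ) :
    ∑ χ ∈ (Finset.univ : Finset (DirichletCharacter ℂ E)).erase 1,
      ‖∑ m ∈ Finset.Ioc A B, χ (m : ZMod E)‖ * ‖∑ n ∈ Finset.range N, β n * χ (n : ZMod E)‖ ≤
    ∑ f ∈ E.divisors.erase 1, ∑ ψ ∈ Prim f, ‖chiA A B (E / f) ψ‖ * ‖chiB β N (E / f) ψ‖ := by
  classical
  rw [Finset.sum_sigma']
  have h1 : ∀ χ ∈ (Finset.univ : Finset (DirichletCharacter ℂ E)).erase 1,
      ‖∑ m ∈ Finset.Ioc A B, χ (m : ZMod E)‖ * ‖∑ n ∈ Finset.range N, β n * χ (n : ZMod E)‖ =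
      (fun x : (f : ℕ) × DirichletCharacter ℂ f =>
        ‖chiA A B (E / x.1) x.2‖ * ‖chiB β N (E / x.1) x.2‖)
        ⟨χ.conductor, χ.primitiveCharacter⟩ := by
    intro χ _
    simp only
    rw [sum_char_eq_chiA, sum_char_eq_chiB]
  rw [Finset.sum_congr rfl h1]
  have hinj : Set.InjOn (fun χ : DirichletCharacter ℂ E =>
      (⟨χ.conductor, χ.primitiveCharacter⟩ : (f : ℕ) × DirichletCharacter ℂ f))
      ((Finset.univ : Finset (DirichletCharacter ℂ E)).erase 1 :
        Finset (DirichletCharacter ℂ E)) := by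
    intro χ _ χ' _ h
    have key : ∀ (x : (f : ℕ) × DirichletCharacter ℂ f) (hx : x.1 ∣ E),
        x = ⟨χ'.conductor, χ'.primitiveCharacter⟩ → changeLevel hx x.2 = χ' := by
      rintro x hx rfl
      exact changeLevel_primitiveCharacter χ'
    have h2 := key ⟨χ.conductor, χ.primitiveCharacter⟩ χ.conductor_dvd_level h
    rw [← h2]
    exact (changeLevel_primitiveCharacter χ).symm
  rw [← Finset.sum_image (f := fun x : (f : ℕ) × DirichletCharacter ℂ f =>
        ‖chiA A B (E / x.1) x.2‖ * ‖chiB β N (E / x.1) x.2‖) hinj]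
  apply Finset.sum_le_sum_of_subset_of_nonneg
  · intro x hx
    rw [Finset.mem_image] at hx
    obtain ⟨χ, hχ, rfl⟩ := hx
    rw [Finset.mem_erase] at hχ
    rw [Finset.mem_sigma]
    refine ⟨?_, ?_⟩
    · rw [Finset.mem_erase, Nat.mem_divisors]
      refine ⟨?_, χ.conductor_dvd_level, NeZero.ne E⟩
      intro h
      exact hχ.1 (eq_one_iff_conductor_eq_one.mpr h)
    · rw [mem_Prim (conductor_ne_zero χ)]
      exact primitiveCharacter_isPrimitive χ
  · intro _ _ _
    positivity

end Pool.Agent.Work.MP_122e00_nt
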