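import Mathlib

/-!
Sums of reciprocals in residue classes: logarithmic equidistribution.
-/

namespace Pool.Agent.Work.MP_122e00_nt

open Finset Filter Topology

/-- `∑_{1 ≤ a ≤ n, a ≡ c (mod k)} 1/a` -/
noncomputable def hs (k : ℕ) (c : ZMod k) (n : ℕ) : ℝ :=
  ∑ a ∈ Finset.range n, if ((a + 1 : ℕ) : ZMod k) = c then (1 / ((a : ℝ) + 1)) else 0

theorem hs_nonneg (k : ℕ) (c : ZMod k) (n : ℕ) : 0 ≤ hs k c n := by
  unfold hs
  apply Finset.sum_nonneg
  intro a _
  split_ifs <;> positivity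

theorem sum_tel (n : ℕ) :
    ∑ a ∈ Finset.range n, (1 / ((a : ℝ) + 1) - 1 / ((a : ℝ) + 2)) = 1 - 1 / ((n : ℝ) + 1) := by
  induction n with
  | zero => simp
  | succ n ih =>
    rw [Finset.sum_range_succ, ih]
    push_cast
    ring

theorem hs_shift (k : ℕ) (c : ZMod k) (n : ℕ) :
    |hs k c n - hs k (c + 1) n| ≤ 2 := by
  have h1 : hs k (c + 1) (n + 1) = (if (0 : ZMod k) = c then 1 else 0) +
      ∑ a ∈ Finset.range n, if ((a + 1 : ℕ) : ZMod k) = c then (1 / ((a : ℝ) + 2)) else 0 := by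
    unfold hs
    rw [Finset.sum_range_succ']
    rw [add_comm]
    congr 1
    · simp [eq_comm]
    · apply Finset.sum_congr rfl
      intro a _
      have : (((a + 1 + 1 : ℕ) : ZMod k) = c + 1) ↔ (((a + 1 : ℕ) : ZMod k) = c) := by
        push_cast
        exact ⟨fun h => add_right_cancel h, fun h => by rw [h]⟩
      simp only [this]
      push_cast
      ring_nf
  have h2 : hs k (c + 1) (n + 1) = hs k (c + 1) n +
      (if ((n + 1 : ℕ) : ZMod k) = c + 1 then (1 / ((n : ℝ) + 1)) else 0) := by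
    unfold hs
    rw [Finset.sum_range_succ]
  have h3 : hs k c n - (∑ a ∈ Finset.range n, if ((a + 1 : ℕ) : ZMod k) = c
      then (1 / ((a : ℝ) + 2)) else 0) =
      ∑ a ∈ Finset.range n, if ((a + 1 : ℕ) : ZMod k) = c
        then (1 / ((a : ℝ) + 1) - 1 / ((a : ℝ) + 2)) else 0 := by
    unfold hs
    rw [← Finset.sum_sub_distrib]
    apply Finset.sum_congr rfl
    intro a _
    split_ifs <;> ring
  have hterm : ∀ a : ℕ, 0 ≤ 1 / ((a : ℝ) + 1) - 1 / ((a : ℝ) + 2) := by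
    intro a
    rw [sub_nonneg]
    apply one_div_le_one_div_of_le (by positivity)
    linarith
  have h4 : 0 ≤ ∑ a ∈ Finset.range n, (if ((a + 1 : ℕ) : ZMod k) = c
        then (1 / ((a : ℝ) + 1) - 1 / ((a : ℝ) + 2)) else 0) := by
    apply Finset.sum_nonneg
    intro a _
    split_ifs
    · exact hterm a
    · exact le_rfl
  have h5 : ∑ a ∈ Finset.range n, (if ((a + 1 : ℕ) : ZMod k) = c
        then (1 / ((a : ℝ) + 1) - 1 / ((a : ℝ) + 2)) else 0) ≤ 1 := by
    calc _ ≤ ∑ a ∈ Finset.range n, (1 / ((a : ℝ) + 1) - 1 / ((a : ℝ) + 2)) := by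
          apply Finset.sum_le_sum
          intro a _
          split_ifs
          · exact le_rfl
          · exact hterm a
      _ = 1 - 1 / ((n : ℝ) + 1) := sum_tel n
      _ ≤ 1 := by
        have : (0 : ℝ) ≤ 1 / ((n : ℝ) + 1) := by positivity
        linarith
  have h6 : (0 : ℝ) ≤ (if ((n + 1 : ℕ) : ZMod k) = c + 1 then (1 / ((n : ℝ) + 1)) else 0) := by
    split_ifs <;> positivity
  have h7 : (if ((n + 1 : ℕ) : ZMod k) = c + 1 then (1 / ((n : ℝ) + 1)) else 0) ≤ (1 : ℝ) := by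
    split_ifs
    · rw [div_le_one (by positivity)]
      have : (0 : ℝ) ≤ n := Nat.cast_nonneg n
      linarith
    · norm_num
  have h8 : (0 : ℝ) ≤ (if (0 : ZMod k) = c then 1 else 0) := by split_ifs <;> norm_num
  have h9 : (if (0 : ZMod k) = c then 1 else 0) ≤ (1 : ℝ) := by split_ifs <;> norm_num
  rw [abs_le]
  constructor <;> linarith

theorem hs_shift_nat (k : ℕ) (c : ZMod k) (j n : ℕ) :
    |hs k c n - hs k (c + j) n| ≤ 2 * j := by
  induction j with
  | zero => simp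
  | succ j ih =>
    have h1 := hs_shift k (c + j) n
    have h2 : |hs k c n - hs k (c + (j + 1 : ℕ)) n| ≤
        |hs k c n - hs k (c + j) n| + |hs k (c + j) n - hs k (c + j + 1) n| := by
      have : c + ((j + 1 : ℕ) : ZMod k) = c + j + 1 := by push_cast; ring
      rw [this]
      exact abs_sub_le _ _ _
    push_cast at h2 ⊢
    linarith

theorem hs_compare (k : ℕ) [NeZero k] (c c' : ZMod k) (n : ℕ) :
    |hs k c n - hs k c' n| ≤ 2 * k := by
  have h := hs_shift_nat k c (c' - c).val n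
  have h1 : c + (((c' - c).val : ℕ) : ZMod k) = c' := by
    rw [ZMod.natCast_zmod_val]
    ring
  rw [h1] at h
  refine h.trans ?_
  have : (c' - c).val ≤ k := (ZMod.val_lt _).le
  have : ((c' - c).val : ℝ) ≤ k := by exact_mod_cast this
  linarith

theorem sum_hs (k : ℕ) [NeZero k] (n : ℕ) :
    ∑ c : ZMod k, hs k c n = (harmonic n : ℝ) := by
  unfold hs
  rw [Finset.sum_comm]
  simp only [Finset.sum_ite_eq, Finset.mem_univ, if_true]
  rw [harmonic]
  push_cast
  simp [one_div]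

theorem hs_harmonic (k : ℕ) [NeZero k] (c : ZMod k) (n : ℕ) :
    |(k : ℝ) * hs k c n - (harmonic n : ℝ)| ≤ 2 * k * k := by
  have h1 : (k : ℝ) * hs k c n - (harmonic n : ℝ) = ∑ c' : ZMod k, (hs k c n - hs k c' n) := by
    rw [Finset.sum_sub_distrib, sum_hs, Finset.sum_const, Finset.card_univ, ZMod.card, nsmul_eq_mul]
  rw [h1]
  calc |∑ c' : ZMod k, (hs k c n - hs k c' n)| ≤ ∑ c' : ZMod k, |hs k c n - hs k c' n| :=
        Finset.abs_sum_le_sum_abs _ _
    _ ≤ ∑ _c' : ZMod k, (2 * k : ℝ) := Finset.sum_le_sum (fun c' _ => hs_compare k c c' n)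
    _ = 2 * k * k := by
      rw [Finset.sum_const, Finset.card_univ, ZMod.card, nsmul_eq_mul]; ring

/-- uniform bound (no congruence): `∑_{a ≤ n} 1/a ≤ 1 + log n` -/
theorem hs_log (k : ℕ) [NeZero k] (c : ZMod k) {β : ℝ} (hβ : 0 ≤ β) {X : ℝ} (hX : 1 ≤ X) :
    |(k : ℝ) * hs k c ⌊X ^ β⌋₊ - β * Real.log X| ≤ 2 * k * k + 1 := by
  have h1 := hs_harmonic k c ⌊X ^ β⌋₊
  have h2 := log_le_harmonic_floor (X ^ β) (by positivity)
  have h3 := harmonic_floor_le_one_add_log (X ^ β) (Real.one_le_rpow hX hβ)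
  rw [Real.log_rpow (by linarith)] at h2 h3
  rw [abs_le] at h1 ⊢
  constructor <;> linarith [h1.1, h1.2]

theorem tendsto_hs (k : ℕ) [NeZero k] (c : ZMod k) {β : ℝ} (hβ : 0 ≤ β) :
    Tendsto (fun X : ℝ => hs k c ⌊X ^ β⌋₊ / Real.log X) atTop (𝓝 (β / k)) := by
  have hk : (0 : ℝ) < k := by exact_mod_cast Nat.pos_of_ne_zero (NeZero.ne k)
  rw [tendsto_iff_norm_sub_tendsto_zero]
  have hlim : Tendsto (fun X : ℝ => (2 * (k : ℝ) * k + 1) / k / Real.log X) atTop (𝓝 0) :=
    Tendsto.const_div_atTop Real.tendsto_log_atTop _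
  refine squeeze_zero' (Eventually.of_forall fun _ => norm_nonneg _) ?_ hlim
  filter_upwards [eventually_gt_atTop 1] with X hX
  have hlog : 0 < Real.log X := Real.log_pos hX
  have h := hs_log k c hβ hX.le
  have h2 : hs k c ⌊X ^ β⌋₊ / Real.log X - β / k =
      ((k : ℝ) * hs k c ⌊X ^ β⌋₊ - β * Real.log X) / (k * Real.log X) := by
    field_simp
  rw [h2, Real.norm_eq_abs, abs_div, abs_of_pos (mul_pos hk hlog), div_div]
  gcongr

end Pool.Agent.Work.MP_122e00_nt
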