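import Mathlib
import Pool.Agent.Work.MP_122e00_nt.Bd.B01
import Pool.Agent.Work.MP_122e00_nt.LogAP

/-!
Logarithmic sums over boxes of tuples, with a divisibility condition on the product.
-/

namespace Pool.Agent.Work.MP_122e00_nt

open Finset Filter Topology

/-- tuples `a` with `X^(α i) < a i ≤ X^(β i)` -/
noncomputable def box {s : ℕ} (α β : Fin s → ℝ) (X : ℝ) : Finset (Fin s → ℕ) :=
  Fintype.piFinset fun i => Finset.Ioc ⌊X ^ (α i)⌋₊ ⌊X ^ (β i)⌋₊

/-- `∑ 1/(a_1 ⋯ a_s)` over the tuples of the box with `k ∣ a_1 ⋯ a_s` -/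
noncomputable def Asum {s : ℕ} (k : ℕ) (α β : Fin s → ℝ) (X : ℝ) : ℝ :=
  ∑ a ∈ box α β X, if k ∣ ∏ i, a i then ∏ i, (1 / (a i : ℝ)) else 0

/-- proportion of the `s`-tuples modulo `k` whose product is `0` modulo `k` -/
noncomputable def rho (s k : ℕ) : ℝ :=
  (Nat.card {c : Fin s → ZMod k // ∏ i, c i = 0} : ℝ) / (k : ℝ) ^ s

theorem sum_Ioc_eq_hs (k : ℕ) (c : ZMod k) {m n : ℕ} (h : m ≤ n) :
    ∑ a ∈ Finset.Ioc m n, (if ((a : ℕ) : ZMod k) = c then (1 / (a : ℝ)) else 0) =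
      hs k c n - hs k c m := by
  induction n, h using Nat.le_induction with
  | base => simp
  | succ n hmn ih =>
    rw [← Finset.insert_Ioc_right_eq_Ioc_add_one hmn, Finset.sum_insert (by simp), ih]
    unfold hs
    rw [Finset.sum_range_succ]
    push_cast
    ring

theorem floor_mono {X α β : ℝ} (hX : 1 ≤ X) (h : α ≤ β) : ⌊X ^ α⌋₊ ≤ ⌊X ^ β⌋₊ :=
  Nat.floor_mono (Real.rpow_le_rpow_of_exponent_le hX h)

theorem Asum_eq {s : ℕ} (k : ℕ) [NeZero k] (α β : Fin s → ℝ) (h : ∀ i, α i ≤ β i)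
    {X : ℝ} (hX : 1 ≤ X) :
    Asum k α β X = ∑ c : {c : Fin s → ZMod k // ∏ i, c i = 0},
      ∏ i, (hs k (c.1 i) ⌊X ^ (β i)⌋₊ - hs k (c.1 i) ⌊X ^ (α i)⌋₊) := by
  classical
  have h1 : ∀ c : Fin s → ZMod k,
      ∏ i, (hs k (c i) ⌊X ^ (β i)⌋₊ - hs k (c i) ⌊X ^ (α i)⌋₊) =
      ∑ a ∈ box α β X, ∏ i, (if ((a i : ℕ) : ZMod k) = c i then (1 / (a i : ℝ)) else 0) := by
    intro c
    have h2 : ∀ i, (hs k (c i) ⌊X ^ (β i)⌋₊ - hs k (c i) ⌊X ^ (α i)⌋₊) =
        ∑ a ∈ Finset.Ioc ⌊X ^ (α i)⌋₊ ⌊X ^ (β i)⌋₊,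
          (if ((a : ℕ) : ZMod k) = c i then (1 / (a : ℝ)) else 0) := fun i =>
      (sum_Ioc_eq_hs k (c i) (floor_mono hX (h i))).symm
    simp_rw [h2]
    rw [Finset.prod_univ_sum]
    rfl
  simp_rw [h1]
  rw [Finset.sum_comm]
  unfold Asum
  apply Finset.sum_congr rfl
  intro a _
  by_cases hk : k ∣ ∏ i, a i
  · rw [if_pos hk]
    have hc0 : ∏ i, ((a i : ℕ) : ZMod k) = 0 := by
      rw [← Nat.cast_prod, ZMod.natCast_eq_zero_iff]
      exact hk
    rw [Finset.sum_eq_single (⟨fun i => ((a i : ℕ) : ZMod k), hc0⟩ :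
      {c : Fin s → ZMod k // ∏ i, c i = 0})]
    · apply Finset.prod_congr rfl
      intro i _
      simp
    · intro c _ hc
      have : ∃ i, ((a i : ℕ) : ZMod k) ≠ c.1 i := by
        by_contra hcon
        push Not at hcon
        apply hc
        apply Subtype.ext
        funext i
        exact (hcon i).symm
      obtain ⟨i, hi⟩ := this
      exact Finset.prod_eq_zero (Finset.mem_univ i) (if_neg hi)
    · intro hc
      exact absurd (Finset.mem_univ _) hc
  · rw [if_neg hk]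
    symm
    apply Finset.sum_eq_zero
    intro c _
    have : ∃ i, ((a i : ℕ) : ZMod k) ≠ c.1 i := by
      by_contra hcon
      push Not at hcon
      apply hk
      rw [← ZMod.natCast_eq_zero_iff, Nat.cast_prod]
      rw [← c.2]
      exact Finset.prod_congr rfl (fun i _ => hcon i)
    obtain ⟨i, hi⟩ := this
    exact Finset.prod_eq_zero (Finset.mem_univ i) (if_neg hi)

theorem Asum_nonneg {s : ℕ} (k : ℕ) (α β : Fin s → ℝ) (X : ℝ) : 0 ≤ Asum k α β X := by
  unfold Asum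
  apply Finset.sum_nonneg
  intro a _
  split_ifs
  · exact Finset.prod_nonneg (fun i _ => by positivity)
  · exact le_rfl

theorem tendsto_Asum {s : ℕ} (k : ℕ) [NeZero k] (α β : Fin s → ℝ) (h0 : ∀ i, 0 ≤ α i)
    (h : ∀ i, α i ≤ β i) :
    Tendsto (fun X : ℝ => Asum k α β X / (Real.log X) ^ s) atTop
      (𝓝 (rho s k * ∏ i, (β i - α i))) := by
  have h1 : Tendsto (fun X : ℝ => ∑ c : {c : Fin s → ZMod k // ∏ i, c i = 0},
      ∏ i, (hs k (c.1 i) ⌊X ^ (β i)⌋₊ / Real.log X - hs k (c.1 i) ⌊X ^ (α i)⌋₊ / Real.log X))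
      atTop (𝓝 (∑ _c : {c : Fin s → ZMod k // ∏ i, c i = 0}, ∏ i, (β i / k - α i / k))) := by
    apply tendsto_finsetSum
    intro c _
    apply tendsto_finsetProd
    intro i _
    exact (tendsto_hs k (c.1 i) ((h0 i).trans (h i))).sub (tendsto_hs k (c.1 i) (h0 i))
  have h2 : (∑ _c : {c : Fin s → ZMod k // ∏ i, c i = 0}, ∏ i, (β i / k - α i / k)) =
      rho s k * ∏ i, (β i - α i) := by
    rw [Finset.sum_const, Finset.card_univ, ← Nat.card_eq_fintype_card, nsmul_eq_mul]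
    unfold rho
    simp_rw [← sub_div]
    rw [Finset.prod_div_distrib, Finset.prod_const, Finset.card_univ, Fintype.card_fin]
    ring
  rw [h2] at h1
  refine h1.congr' ?_
  filter_upwards [eventually_gt_atTop 1] with X hX
  rw [Asum_eq k α β h hX.le, Finset.sum_div]
  apply Finset.sum_congr rfl
  intro c _
  simp_rw [← sub_div]
  rw [Finset.prod_div_distrib, Finset.prod_const, Finset.card_univ, Fintype.card_fin]

/-- a divisor of a product splits -/
theorem exists_antidiag_dvd {s : ℕ} (k : ℕ) (hk : k ≠ 0) (a : Fin s → ℕ) (h : k ∣ ∏ i, a i) :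
    ∃ κ ∈ Nat.finMulAntidiag s k, ∀ i, κ i ∣ a i := by
  induction s generalizing k with
  | zero =>
    simp at h
    subst h
    exact ⟨fun i => i.elim0, by simp [Nat.mem_finMulAntidiag], fun i => i.elim0⟩
  | succ s ih =>
    rw [Fin.prod_univ_succ] at h
    obtain ⟨k0, k1, h0, h1, rfl⟩ := exists_dvd_and_dvd_of_dvd_mul h
    obtain ⟨κ, hκ, hκ2⟩ := ih k1 (by rintro rfl; simp at hk) (fun i => a i.succ) h1
    rw [Nat.mem_finMulAntidiag] at hκ
    refine ⟨Fin.cons k0 κ, ?_, ?_⟩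
    · rw [Nat.mem_finMulAntidiag, Fin.prod_univ_succ]
      simp only [Fin.cons_zero, Fin.cons_succ]
      exact ⟨by rw [hκ.1], hk⟩
    · intro i
      refine Fin.cases ?_ ?_ i
      · simpa using h0
      · intro j
        simpa using hκ2 j

theorem sum_dvd_le (d : ℕ) (hd : 0 < d) (m n : ℕ) {L : ℝ} (hL : (harmonic n : ℝ) ≤ L) :
    ∑ a ∈ Finset.Ioc m n, (if d ∣ a then (1 / (a : ℝ)) else 0) ≤ (1 / (d : ℝ)) * L := by
  have h1 : ∑ a ∈ Finset.Ioc m n, (if d ∣ a then (1 / (a : ℝ)) else 0) ≤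
      ∑ a ∈ Finset.Ioc 0 n, (if d ∣ a then (1 / (a : ℝ)) else 0) := by
    apply Finset.sum_le_sum_of_subset_of_nonneg
    · apply Finset.Ioc_subset_Ioc_left (Nat.zero_le m)
    · intro a _ _
      split_ifs <;> positivity
  have h2 : ∑ a ∈ Finset.Ioc 0 n, (if d ∣ a then (1 / (a : ℝ)) else 0) =
      ∑ b ∈ Finset.Icc 1 (n / d), (1 / ((d * b : ℕ) : ℝ)) := by
    rw [← Finset.sum_filter]
    symm
    apply Finset.sum_nbij (fun b => d * b)
    · intro b hb
      rw [Finset.mem_Icc] at hb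
      rw [Finset.mem_filter, Finset.mem_Ioc]
      refine ⟨⟨Nat.mul_pos hd (by omega), ?_⟩, Dvd.intro _ rfl⟩
      calc d * b ≤ d * (n / d) := Nat.mul_le_mul_left _ hb.2
        _ ≤ n := Nat.mul_div_le n d
    · intro b _ b' _ hbb
      exact Nat.eq_of_mul_eq_mul_left hd hbb
    · intro a ha
      rw [Finset.coe_filter, Set.mem_ofPred_eq, Finset.mem_Ioc] at ha
      obtain ⟨⟨ha1, ha2⟩, b, rfl⟩ := ha
      refine ⟨b, ?_, rfl⟩
      rw [Finset.coe_Icc, Set.mem_Icc]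
      refine ⟨?_, ?_⟩
      · rcases Nat.eq_zero_or_pos b with rfl | hb
        · simp at ha1
        · exact hb
      · rw [Nat.le_div_iff_mul_le hd, mul_comm]
        exact ha2
    · intro b _
      rfl
  have h3 : ∑ b ∈ Finset.Icc 1 (n / d), (1 / ((d * b : ℕ) : ℝ)) =
      (1 / (d : ℝ)) * (harmonic (n / d) : ℝ) := by
    rw [harmonic_eq_sum_Icc]
    push_cast
    rw [Finset.mul_sum]
    apply Finset.sum_congr rfl
    intro b _
    rw [one_div, mul_inv, one_div]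
  have h4 : (harmonic (n / d) : ℝ) ≤ (harmonic n : ℝ) := by
    rw [harmonic_eq_sum_Icc, harmonic_eq_sum_Icc]
    push_cast
    apply Finset.sum_le_sum_of_subset_of_nonneg
    · apply Finset.Icc_subset_Icc_right (Nat.div_le_self n d)
    · intro a _ _
      positivity
  calc _ ≤ _ := h1
    _ = _ := h2
    _ = _ := h3
    _ ≤ (1 / (d : ℝ)) * L := by
      apply mul_le_mul_of_nonneg_left (h4.trans hL) (by positivity)

theorem Asum_le {s : ℕ} (k : ℕ) (hk : k ≠ 0) (α β : Fin s → ℝ) (hβ0 : ∀ i, 0 ≤ β i)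
    (hβ1 : ∀ i, β i ≤ 1) {X : ℝ} (hX : 1 ≤ X) :
    Asum k α β X ≤ ((Nat.finMulAntidiag s k).card : ℝ) / k * (1 + Real.log X) ^ s := by
  classical
  have h1 : Asum k α β X ≤ ∑ a ∈ box α β X, ∑ κ ∈ Nat.finMulAntidiag s k,
      ∏ i, (if κ i ∣ a i then (1 / (a i : ℝ)) else 0) := by
    unfold Asum
    apply Finset.sum_le_sum
    intro a _
    split_ifs with hka
    · obtain ⟨κ, hκ, hκ2⟩ := exists_antidiag_dvd k hk a hka
      have h2 : ∏ i, (1 / (a i : ℝ)) = ∏ i, (if κ i ∣ a i then (1 / (a i : ℝ)) else 0) :=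
        Finset.prod_congr rfl (fun i _ => by rw [if_pos (hκ2 i)])
      rw [h2]
      exact Finset.single_le_sum (f := fun κ => ∏ i, (if κ i ∣ a i then (1 / (a i : ℝ)) else 0))
        (fun κ _ => Finset.prod_nonneg (fun i _ => by split_ifs <;> positivity)) hκ
    · exact Finset.sum_nonneg (fun κ _ => Finset.prod_nonneg (fun i _ => by
        split_ifs <;> positivity))
  refine h1.trans ?_
  rw [Finset.sum_comm]
  have h3 : ∀ κ ∈ Nat.finMulAntidiag s k,
      ∑ a ∈ box α β X, ∏ i, (if κ i ∣ a i then (1 / (a i : ℝ)) else 0) ≤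
        1 / (k : ℝ) * (1 + Real.log X) ^ s := by
    intro κ hκ
    have h4 : ∑ a ∈ box α β X, ∏ i, (if κ i ∣ a i then (1 / (a i : ℝ)) else 0) =
        ∏ i, ∑ a ∈ Finset.Ioc ⌊X ^ (α i)⌋₊ ⌊X ^ (β i)⌋₊,
          (if κ i ∣ a then (1 / (a : ℝ)) else 0) := by
      rw [Finset.prod_univ_sum]
      rfl
    rw [h4]
    have h5 : ∏ i, (1 / (κ i : ℝ) * (1 + Real.log X)) = 1 / (k : ℝ) * (1 + Real.log X) ^ s := by
      rw [Finset.prod_mul_distrib, Finset.prod_const, Finset.card_univ, Fintype.card_fin,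
        Finset.prod_div_distrib, Finset.prod_const_one, ← Nat.cast_prod,
        (Nat.mem_finMulAntidiag.mp hκ).1]
    rw [← h5]
    apply Finset.prod_le_prod
    · intro i _
      apply Finset.sum_nonneg
      intro a _
      split_ifs <;> positivity
    · intro i _
      apply sum_dvd_le
      · exact Nat.pos_of_ne_zero (Nat.ne_zero_of_mem_finMulAntidiag hκ i)
      · refine (harmonic_floor_le_one_add_log _ (Real.one_le_rpow hX (hβ0 i))).trans ?_
        rw [Real.log_rpow (by linarith)]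
        have := Real.log_nonneg hX
        nlinarith [hβ1 i]
  refine (Finset.sum_le_sum h3).trans ?_
  rw [Finset.sum_const, nsmul_eq_mul]
  apply le_of_eq
  ring

end Pool.Agent.Work.MP_122e00_nt
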