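import Mathlib
import Pool.Agent.Work.MP_122e00_nt.Weight

/-!
The correlation weight `gcd(∏ a, ∏ b) 1_{gcd ∣ h}` and its logarithmic mean over boxes.
-/

namespace Pool.Agent.Work.MP_122e00_nt

open Finset Filter Topology ArithmeticFunction
open scoped ArithmeticFunction.zeta ArithmeticFunction.Moebius

/-- `g ↦ g` if `g ∣ h`, else `0` -/
def Fh (h : ℕ) : ArithmeticFunction ℝ :=
  ⟨fun g => if g ∣ h then (g : ℝ) else 0, by simp⟩

/-- Moebius inverse of `Fh` -/
noncomputable def Gh (h : ℕ) : ArithmeticFunction ℝ := (μ : ArithmeticFunction ℝ) * Fh h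

theorem Fh_apply (h g : ℕ) : Fh h g = if g ∣ h then (g : ℝ) else 0 := rfl

theorem sum_Gh (h g : ℕ) : ∑ k ∈ g.divisors, Gh h k = Fh h g := by
  have h1 : ((ζ : ArithmeticFunction ℝ) * Gh h) g = ∑ k ∈ g.divisors, Gh h k :=
    coe_zeta_mul_apply
  rw [← h1]
  unfold Gh
  rw [← mul_assoc, coe_zeta_mul_coe_moebius, one_mul]

theorem abs_Gh_le (h k : ℕ) (hh : h ≠ 0) : |Gh h k| ≤ ∑ g ∈ h.divisors, (g : ℝ) := by
  unfold Gh
  rw [ArithmeticFunction.mul_apply]
  calc |∑ x ∈ k.divisorsAntidiagonal, (μ : ArithmeticFunction ℝ) x.1 * Fh h x.2|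
      ≤ ∑ x ∈ k.divisorsAntidiagonal, |(μ : ArithmeticFunction ℝ) x.1 * Fh h x.2| :=
        Finset.abs_sum_le_sum_abs _ _
    _ ≤ ∑ x ∈ k.divisorsAntidiagonal, Fh h x.2 := by
        apply Finset.sum_le_sum
        intro x _
        rw [abs_mul]
        have h1 : |(μ : ArithmeticFunction ℝ) x.1| ≤ 1 := by
          rw [intCoe_apply, ← Int.cast_abs]
          exact_mod_cast abs_moebius_le_one
        have h2 : 0 ≤ Fh h x.2 := by
          rw [Fh_apply]; split_ifs <;> positivity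
        rw [abs_of_nonneg h2]
        exact mul_le_of_le_one_left h2 h1
    _ = ∑ g ∈ k.divisors, Fh h g := by
        rw [← Nat.map_div_left_divisors, Finset.sum_map]
        rfl
    _ = ∑ g ∈ k.divisors.filter (· ∣ h), (g : ℝ) := by
        rw [Finset.sum_filter]
        rfl
    _ ≤ ∑ g ∈ h.divisors, (g : ℝ) := by
        apply Finset.sum_le_sum_of_subset_of_nonneg
        · intro g hg
          rw [Finset.mem_filter] at hg
          rw [Nat.mem_divisors]
          exact ⟨hg.2, hh⟩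
        · intro g _ _
          positivity

/-- the singular series, in the form in which it appears in the proof -/
noncomputable def Csing (s h : ℕ) : ℝ := ∑' k : ℕ, Gh h k * (rho s k) ^ 2

/-- weighted sum over pairs of tuples -/
noncomputable def Wsum {s : ℕ} (h : ℕ) (α β α' β' : Fin s → ℝ) (X : ℝ) : ℝ :=
  ∑ a ∈ box α β X, ∑ b ∈ box α' β' X,
    Fh h (Nat.gcd (∏ i, a i) (∏ i, b i)) * ((∏ i, (1 / (a i : ℝ))) * (∏ i, (1 / (b i : ℝ))))

theorem pos_of_mem_box {s : ℕ} {α β : Fin s → ℝ} {X : ℝ} {a : Fin s → ℕ} (ha : a ∈ box α β X)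
    (i : Fin s) : 0 < a i := by
  unfold box at ha
  rw [Fintype.mem_piFinset] at ha
  have := ha i
  rw [Finset.mem_Ioc] at this
  omega

theorem Wsum_eq {s : ℕ} (h : ℕ) (α β α' β' : Fin s → ℝ) (X : ℝ) :
    Wsum h α β α' β' X = ∑' k : ℕ, Gh h k * (Asum k α β X * Asum k α' β' X) := by
  have h1 : ∀ a ∈ box α β X, ∀ b ∈ box α' β' X,
      Fh h (Nat.gcd (∏ i, a i) (∏ i, b i)) * ((∏ i, (1 / (a i : ℝ))) * (∏ i, (1 / (b i : ℝ)))) =
      ∑' k : ℕ, Gh h k * ((if k ∣ ∏ i, a i then ∏ i, (1 / (a i : ℝ)) else 0) *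
        (if k ∣ ∏ i, b i then ∏ i, (1 / (b i : ℝ)) else 0)) := by
    intro a ha b hb
    have hpa : 0 < ∏ i, a i := Finset.prod_pos (fun i _ => pos_of_mem_box ha i)
    rw [tsum_eq_sum (s := (Nat.gcd (∏ i, a i) (∏ i, b i)).divisors)]
    · rw [← sum_Gh, Finset.sum_mul]
      apply Finset.sum_congr rfl
      intro k hk
      have hk' := (Nat.mem_divisors.mp hk).1
      rw [if_pos (hk'.trans (Nat.gcd_dvd_left _ _)), if_pos (hk'.trans (Nat.gcd_dvd_right _ _))]
    · intro k hk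
      rw [Nat.mem_divisors] at hk
      by_cases h1 : k ∣ ∏ i, a i
      · by_cases h2 : k ∣ ∏ i, b i
        · exact absurd ⟨Nat.dvd_gcd h1 h2, (Nat.gcd_pos_of_pos_left _ hpa).ne'⟩ hk
        · rw [if_neg h2]; ring
      · rw [if_neg h1]; ring
  have hsumm : ∀ a ∈ box α β X, ∀ b ∈ box α' β' X,
      Summable (fun k : ℕ => Gh h k * ((if k ∣ ∏ i, a i then ∏ i, (1 / (a i : ℝ)) else 0) *
        (if k ∣ ∏ i, b i then ∏ i, (1 / (b i : ℝ)) else 0))) := by
    intro a ha b hb
    have hpa : 0 < ∏ i, a i := Finset.prod_pos (fun i _ => pos_of_mem_box ha i)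
    apply summable_of_ne_finset_zero (s := (∏ i, a i).divisors)
    intro k hk
    rw [Nat.mem_divisors] at hk
    by_cases h1 : k ∣ ∏ i, a i
    · exact absurd ⟨h1, hpa.ne'⟩ hk
    · rw [if_neg h1]; ring
  unfold Wsum
  rw [Finset.sum_congr rfl (fun a ha => Finset.sum_congr rfl (fun b hb => h1 a ha b hb))]
  have h2 : ∀ a ∈ box α β X, ∑ b ∈ box α' β' X,
      ∑' k : ℕ, Gh h k * ((if k ∣ ∏ i, a i then ∏ i, (1 / (a i : ℝ)) else 0) *
        (if k ∣ ∏ i, b i then ∏ i, (1 / (b i : ℝ)) else 0)) =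
      ∑' k : ℕ, ∑ b ∈ box α' β' X, Gh h k * ((if k ∣ ∏ i, a i then ∏ i, (1 / (a i : ℝ)) else 0) *
        (if k ∣ ∏ i, b i then ∏ i, (1 / (b i : ℝ)) else 0)) := by
    intro a ha
    exact (Summable.tsum_finsetSum (fun b hb => hsumm a ha b hb)).symm
  rw [Finset.sum_congr rfl h2,
    ← Summable.tsum_finsetSum (fun a ha => summable_sum (fun b hb => hsumm a ha b hb))]
  congr 1
  funext k
  unfold Asum
  rw [Finset.sum_mul_sum, Finset.mul_sum]
  apply Finset.sum_congr rfl
  intro a _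
  rw [Finset.mul_sum]

theorem tendsto_Wsum {s : ℕ} (h : ℕ) (hh : h ≠ 0) (α β α' β' : Fin s → ℝ)
    (hα : ∀ i, 0 ≤ α i) (hαβ : ∀ i, α i ≤ β i) (hβ : ∀ i, β i ≤ 1)
    (hα' : ∀ i, 0 ≤ α' i) (hαβ' : ∀ i, α' i ≤ β' i) (hβ' : ∀ i, β' i ≤ 1) :
    Tendsto (fun X : ℝ => Wsum h α β α' β' X / (Real.log X) ^ (2 * s)) atTop
      (𝓝 (Csing s h * ((∏ i, (β i - α i)) * ∏ i, (β' i - α' i)))) := by
  have key : Tendsto (fun X : ℝ => ∑' k : ℕ, Gh h k *
      ((Asum k α β X / (Real.log X) ^ s) * (Asum k α' β' X / (Real.log X) ^ s))) atTop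
      (𝓝 (∑' k : ℕ, Gh h k *
        ((rho s k * ∏ i, (β i - α i)) * (rho s k * ∏ i, (β' i - α' i))))) := by
    apply tendsto_tsum_of_dominated_convergence
      (bound := fun k => (∑ g ∈ h.divisors, (g : ℝ)) * 4 ^ s *
        (((Nat.finMulAntidiag s k).card : ℝ) ^ 2 / (k : ℝ) ^ 2))
    · exact (summable_dom s).mul_left _
    · intro k
      rcases Nat.eq_zero_or_pos k with rfl | hk
      · simp
      · haveI : NeZero k := ⟨hk.ne'⟩
        exact ((tendsto_Asum k α β hα hαβ).mul (tendsto_Asum k α' β' hα' hαβ')).const_mul _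
    · filter_upwards [eventually_ge_atTop (Real.exp 1)] with X hX k
      have hX1 : (1 : ℝ) ≤ X := by
        have := Real.add_one_le_exp (1 : ℝ)
        linarith
      have hlog : 1 ≤ Real.log X := by
        rw [Real.le_log_iff_exp_le (by linarith)]
        exact hX
      rcases Nat.eq_zero_or_pos k with rfl | hk
      · simp
      have hk0 : k ≠ 0 := hk.ne'
      have hk' : (0 : ℝ) < k := by exact_mod_cast hk
      have hb : ∀ (γ δ : Fin s → ℝ), (∀ i, 0 ≤ δ i) → (∀ i, δ i ≤ 1) →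
          Asum k γ δ X / (Real.log X) ^ s ≤ ((Nat.finMulAntidiag s k).card : ℝ) / k * 2 ^ s := by
        intro γ δ h0 h1
        rw [div_le_iff₀ (by positivity)]
        refine (Asum_le k hk0 γ δ h0 h1 hX1).trans ?_
        rw [mul_assoc, ← mul_pow]
        gcongr
        linarith
      have hb1 := hb α β (fun i => (hα i).trans (hαβ i)) hβ
      have hb2 := hb α' β' (fun i => (hα' i).trans (hαβ' i)) hβ'
      have hn1 : 0 ≤ Asum k α β X / (Real.log X) ^ s :=
        div_nonneg (Asum_nonneg _ _ _ _) (by positivity)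
      have hn2 : 0 ≤ Asum k α' β' X / (Real.log X) ^ s :=
        div_nonneg (Asum_nonneg _ _ _ _) (by positivity)
      rw [norm_mul, Real.norm_eq_abs, Real.norm_eq_abs, abs_of_nonneg (mul_nonneg hn1 hn2)]
      calc |Gh h k| * (Asum k α β X / (Real.log X) ^ s * (Asum k α' β' X / (Real.log X) ^ s))
          ≤ (∑ g ∈ h.divisors, (g : ℝ)) *
            ((((Nat.finMulAntidiag s k).card : ℝ) / k * 2 ^ s) *
              (((Nat.finMulAntidiag s k).card : ℝ) / k * 2 ^ s)) := by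
            apply mul_le_mul (abs_Gh_le h k hh) _ (mul_nonneg hn1 hn2)
              (Finset.sum_nonneg (fun _ _ => by positivity))
            exact mul_le_mul hb1 hb2 hn2 (by positivity)
        _ = _ := by
            rw [show (4 : ℝ) = 2 * 2 by norm_num, mul_pow]
            ring
  have e1 : (∑' k : ℕ, Gh h k *
        ((rho s k * ∏ i, (β i - α i)) * (rho s k * ∏ i, (β' i - α' i)))) =
      Csing s h * ((∏ i, (β i - α i)) * ∏ i, (β' i - α' i)) := by
    unfold Csing
    rw [← tsum_mul_right]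
    congr 1
    funext k
    ring
  rw [e1] at key
  refine key.congr (fun X => ?_)
  rw [Wsum_eq, ← tsum_div_const]
  congr 1
  funext k
  rw [pow_mul', pow_two, mul_div_assoc]
  congr 1
  rw [div_mul_div_comm]

end Pool.Agent.Work.MP_122e00_nt
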