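import Mathlib

/-!
The region of exponents and its approximation by grid cubes.
-/

namespace Pool.Agent.Work.MP_122e00_nt

open Finset Filter Topology MeasureTheory
open scoped Pointwise

/-- exponents `(u, v)` of the pairs of `s`-tuples for which both cofactors are larger than all
entries and for which the product of the two products is at most `X^(1-δ)` -/
def S0 (s : ℕ) : Set (Fin s ⊕ Fin s → ℝ) :=
  {w | (∀ i, 0 < w i) ∧ (∀ j, w (Sum.inl j) + ∑ i, w (Sum.inl i) < 1) ∧
    (∀ j, w (Sum.inr j) + ∑ i, w (Sum.inr i) < 1) ∧ ∑ i, w i < 1}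

theorem isOpen_S0 (s : ℕ) : IsOpen (S0 s) := by
  have e : S0 s = (⋂ i, {w | 0 < w i}) ∩ ((⋂ j, {w | w (Sum.inl j) + ∑ i, w (Sum.inl i) < 1}) ∩
    ((⋂ j, {w | w (Sum.inr j) + ∑ i, w (Sum.inr i) < 1}) ∩ {w | ∑ i, w i < 1})) := by
    ext w
    simp [S0]
  rw [e]
  refine IsOpen.inter ?_ (IsOpen.inter ?_ (IsOpen.inter ?_ ?_))
  · exact isOpen_iInter_of_finite (fun i => isOpen_lt continuous_const (continuous_apply i))
  · exact isOpen_iInter_of_finite (fun j => isOpen_lt (by fun_prop) continuous_const)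
  · exact isOpen_iInter_of_finite (fun j => isOpen_lt (by fun_prop) continuous_const)
  · exact isOpen_lt (by fun_prop) continuous_const

theorem convex_S0 (s : ℕ) : Convex ℝ (S0 s) := by
  intro w hw w' hw' a b ha hb hab
  obtain ⟨h1, h2, h3, h4⟩ := hw
  obtain ⟨h1', h2', h3', h4'⟩ := hw'
  have key : ∀ x y : ℝ, x < 1 → y < 1 → a * x + b * y < 1 := by
    intro x y hx hy
    rcases eq_or_lt_of_le ha with h0 | h0
    · have : b = 1 := by linarith
      rw [← h0, this]
      linarith
    · have : a * x < a * 1 := mul_lt_mul_of_pos_left hx h0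
      have : b * y ≤ b * 1 := mul_le_mul_of_nonneg_left hy.le hb
      linarith
  refine ⟨fun i => ?_, fun j => ?_, fun j => ?_, ?_⟩
  · simp only [Pi.add_apply, Pi.smul_apply, smul_eq_mul]
    have h5 : 0 ≤ a * w i := mul_nonneg ha (h1 i).le
    have h6 : 0 ≤ b * w' i := mul_nonneg hb (h1' i).le
    rcases eq_or_lt_of_le ha with h0 | h0
    · have : b = 1 := by linarith
      rw [this]
      have := h1' i
      linarith
    · have := mul_pos h0 (h1 i)
      linarith
  · simp only [Pi.add_apply, Pi.smul_apply, smul_eq_mul, Finset.sum_add_distrib,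
      ← Finset.mul_sum]
    have := key _ _ (h2 j) (h2' j)
    linarith
  · simp only [Pi.add_apply, Pi.smul_apply, smul_eq_mul, Finset.sum_add_distrib,
      ← Finset.mul_sum]
    have := key _ _ (h3 j) (h3' j)
    linarith
  · simp only [Pi.add_apply, Pi.smul_apply, smul_eq_mul, Finset.sum_add_distrib,
      ← Finset.mul_sum]
    exact key _ _ h4 h4'

theorem lt_one_of_mem_S0 {s : ℕ} {w : Fin s ⊕ Fin s → ℝ} (hw : w ∈ S0 s) (i : Fin s ⊕ Fin s) :
    w i < 1 := by
  have h := Finset.single_le_sum (f := w) (fun i _ => (hw.1 i).le) (Finset.mem_univ i)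
  exact lt_of_le_of_lt h hw.2.2.2

theorem isBounded_S0 (s : ℕ) : Bornology.IsBounded (S0 s) := by
  apply (Metric.isBounded_Icc (0 : Fin s ⊕ Fin s → ℝ) 1).subset
  intro w hw
  exact ⟨fun i => (hw.1 i).le, fun i => (lt_one_of_mem_S0 hw i).le⟩

open Classical in
/-- upper corners of the grid cubes -/
noncomputable def MN (s N : ℕ) : Finset (Fin s ⊕ Fin s → ℕ) :=
  (Fintype.piFinset fun _ => Finset.Icc 1 N).filter (fun m => (fun i => (m i : ℝ) / N) ∈ S0 s)

/-- the lattice of vectors with coordinates in `(1/N) ℤ` -/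
noncomputable abbrev Lat (s N : ℕ) : Submodule ℤ (Fin s ⊕ Fin s → ℝ) :=
  (N : ℝ)⁻¹ • Submodule.span ℤ (Set.range (Pi.basisFun ℝ (Fin s ⊕ Fin s)))

theorem natCard_le_card_MN (s N : ℕ) (hN : N ≠ 0) :
    Nat.card ↑(S0 s ∩ (Lat s N : Set (Fin s ⊕ Fin s → ℝ))) ≤ (MN s N).card := by
  classical
  have : NeZero N := ⟨hN⟩
  have hNpos : (0 : ℝ) < N := by exact_mod_cast Nat.pos_of_ne_zero hN
  have hmem : ∀ w ∈ (S0 s ∩ (Lat s N : Set (Fin s ⊕ Fin s → ℝ))),
      ∃ m ∈ MN s N, ∀ i, (m i : ℝ) = N * w i := by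
    rintro w ⟨hw1, hw2⟩
    rw [SetLike.mem_coe, BoxIntegral.unitPartition.mem_smul_span_iff] at hw2
    choose z hz using hw2
    have hzpos : ∀ i, 0 < z i := by
      intro i
      have h1 : (0 : ℝ) < (z i : ℝ) := by
        have := hz i
        simp only [algebraMap_int_eq, eq_intCast] at this
        rw [this]
        exact mul_pos hNpos (hw1.1 i)
      exact_mod_cast h1
    have hzle : ∀ i, z i ≤ N := by
      intro i
      have h1 : (z i : ℝ) < (N : ℝ) := by
        have := hz i
        simp only [algebraMap_int_eq, eq_intCast] at this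
        rw [this]
        have := lt_one_of_mem_S0 hw1 i
        nlinarith
      have : z i < N := by exact_mod_cast h1
      exact this.le
    have hcast : ∀ i, (((z i).toNat : ℕ) : ℝ) = N * w i := by
      intro i
      have h1 : (((z i).toNat : ℤ) : ℝ) = (z i : ℝ) := by
        rw [Int.toNat_of_nonneg (hzpos i).le]
      have h2 := hz i
      simp only [algebraMap_int_eq, eq_intCast] at h2
      rw [← h2, ← h1, Int.cast_natCast]
    refine ⟨fun i => (z i).toNat, ?_, hcast⟩
    unfold MN
    rw [Finset.mem_filter, Fintype.mem_piFinset]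
    refine ⟨fun i => ?_, ?_⟩
    · rw [Finset.mem_Icc]
      have h1 := hzpos i
      have h2 := hzle i
      omega
    · have : (fun i => (((z i).toNat : ℕ) : ℝ) / N) = w := by
        funext i
        rw [hcast i]
        field_simp
      rw [this]
      exact hw1
  choose! f hf1 hf2 using hmem
  have hinj : Function.Injective (fun w : ↑(S0 s ∩ (Lat s N : Set (Fin s ⊕ Fin s → ℝ))) =>
      (⟨f w.1, hf1 w.1 w.2⟩ : MN s N)) := by
    intro w w' hww
    apply Subtype.ext
    funext i
    have h1 : f w.1 = f w'.1 := congrArg Subtype.val hww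
    have h2 := hf2 w.1 w.2 i
    have h3 := hf2 w'.1 w'.2 i
    rw [h1, h3] at h2
    exact (mul_left_cancel₀ hNpos.ne' h2).symm
  have h := Nat.card_le_card_of_injective _ hinj
  rwa [Nat.card_eq_fintype_card (α := MN s N), Fintype.card_coe] at h

theorem exists_grid (s : ℕ) (c : ℝ) (hc : c < volume.real (S0 s)) :
    ∃ N : ℕ, 2 ≤ N ∧ c < (1 - 1 / (N : ℝ)) * ((MN s N).card / (N : ℝ) ^ (2 * s)) := by
  have h1 := tendsto_card_div_pow_atTop_volume (S0 s) (isBounded_S0 s)
    (isOpen_S0 s).measurableSet ((convex_S0 s).addHaar_frontier volume)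
  have h2 : Tendsto (fun N : ℕ => (1 - 1 / (N : ℝ))) atTop (𝓝 (1 - 0)) :=
    tendsto_const_nhds.sub tendsto_one_div_atTop_nhds_zero_nat
  have h3 := h2.mul h1
  rw [sub_zero, one_mul] at h3
  have h4 := (h3.eventually (lt_mem_nhds hc)).and (eventually_ge_atTop 2)
  obtain ⟨N, hN1, hN2⟩ := h4.exists
  refine ⟨N, hN2, hN1.trans_le ?_⟩
  have hN0 : (2 : ℝ) ≤ N := by exact_mod_cast hN2
  have hcard : Fintype.card (Fin s ⊕ Fin s) = 2 * s := by
    simp [two_mul]
  rw [hcard]
  apply mul_le_mul_of_nonneg_left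
  · gcongr
    exact natCard_le_card_MN s N (by omega)
  · rw [sub_nonneg, div_le_one (by linarith)]
    linarith

end Pool.Agent.Work.MP_122e00_nt
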