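import Mathlib
import Pool.Agent.Work.MP_122e00_nt.Bd.B37

/-!
The average of a congruence count over moduli (Bombieri-Vinogradov type estimate with a power
saving, for sequences that contain a smooth variable).
-/

namespace Pool.Agent.Work.MP_122e00_nt

open Finset Complex DirichletCharacter

/-- main term of the weighted count -/
noncomputable def mainB (β : ℕ → ℂ) (N E : ℕ) : ℂ :=
  ∑ n ∈ Finset.range N, if Nat.Coprime n E then β n else 0

/-- the contribution of the primitive characters of conductor `f` -/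
noncomputable def Gfk (β : ℕ → ℂ) (A B N f k : ℕ) : ℝ :=
  ∑ ψ ∈ Prim f, ‖chiA A B k ψ‖ * ‖chiB β N k ψ‖

theorem Gfk_nonneg (β : ℕ → ℂ) (A B N f k : ℕ) : 0 ≤ Gfk β A B N f k := by
  unfold Gfk
  positivity

theorem norm_mainB_le (β : ℕ → ℂ) {K : ℝ} (hK : 0 ≤ K) (hβ : ∀ n, ‖β n‖ ≤ K) (N E : ℕ) :
    ‖mainB β N E‖ ≤ K * N := by
  unfold mainB
  calc _ ≤ ∑ n ∈ Finset.range N, K := by
        apply norm_sum_le_of_le
        intro n _
        split_ifs
        · exact hβ n
        · rw [norm_zero]; exact hK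
    _ = _ := by simp [mul_comm]

theorem norm_chiB_le (β : ℕ → ℂ) {K : ℝ} (hK : 0 ≤ K) (hβ : ∀ n, ‖β n‖ ≤ K) (N k : ℕ)
    {f : ℕ} (ψ : DirichletCharacter ℂ f) : ‖chiB β N k ψ‖ ≤ K * N := by
  unfold chiB
  calc _ ≤ ∑ n ∈ Finset.range N, K := by
        apply norm_sum_le_of_le
        intro n _
        split_ifs
        · rw [norm_mul]
          calc _ ≤ K * 1 := by
                gcongr
                · exact hβ n
                · exact DirichletCharacter.norm_le_one ψ _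
            _ = K := by ring
        · rw [norm_zero]; exact hK
    _ = _ := by simp [mul_comm]

/-- the estimate for a single modulus -/
theorem single_modulus (β : ℕ → ℂ) {K : ℝ} (hK : 0 ≤ K) (hβ : ∀ n, ‖β n‖ ≤ K)
    (A B N E : ℕ) (hAB : A ≤ B) (hE : E ≠ 0) (c : ZMod E) (hc : IsUnit c) :
    (E.totient : ℝ) * ‖cnt β A B N E c - ((B : ℂ) - A) / E * mainB β N E‖ ≤
      E.divisors.card * (K * N) + ∑ f ∈ E.divisors.erase 1, Gfk β A B N f (E / f) := by
  classical
  have : NeZero E := ⟨hE⟩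
  have hE' : (E : ℂ) ≠ 0 := by exact_mod_cast hE
  set R : ℂ := ∑ χ ∈ (Finset.univ : Finset (DirichletCharacter ℂ E)).erase 1,
      χ c⁻¹ * ((∑ m ∈ Finset.Ioc A B, χ (m : ZMod E)) *
        (∑ n ∈ Finset.range N, β n * χ (n : ZMod E))) with hR
  have h1 : (E.totient : ℂ) * cnt β A B N E c =
      (∑ m ∈ Finset.Ioc A B, if Nat.Coprime m E then (1:ℂ) else 0) * mainB β N E + R := by
    rw [cnt_eq β A B N E c hc, ← Finset.add_sum_erase _ _ (Finset.mem_univ 1)]
    congr 1
    have hu : IsUnit (c⁻¹ : ZMod E) := by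
      apply IsUnit.of_mul_eq_one c
      exact ZMod.inv_mul_of_unit c hc
    have e1 : (1 : DirichletCharacter ℂ E) c⁻¹ = 1 := MulChar.one_apply hu
    have e2 : ∀ m : ℕ, (1 : DirichletCharacter ℂ E) (m : ZMod E) =
        if Nat.Coprime m E then (1:ℂ) else 0 := by
      intro m
      split_ifs with h
      · exact MulChar.one_apply ((ZMod.isUnit_iff_coprime m E).mpr h)
      · apply MulChar.map_nonunit
        rw [ZMod.isUnit_iff_coprime]
        exact h
    rw [e1, one_mul]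
    congr 1
    · apply Finset.sum_congr rfl
      intro m _
      exact e2 m
    · unfold mainB
      apply Finset.sum_congr rfl
      intro n _
      rw [e2 n]
      split_ifs <;> simp
  have h2 : (E.totient : ℂ) * (cnt β A B N E c - ((B : ℂ) - A) / E * mainB β N E) =
      ((∑ m ∈ Finset.Ioc A B, if Nat.Coprime m E then (1:ℂ) else 0) -
        ((B : ℂ) - A) * (E.totient / E)) * mainB β N E + R := by
    rw [mul_sub, h1]
    ring
  have h3 : (E.totient : ℝ) * ‖cnt β A B N E c - ((B : ℂ) - A) / E * mainB β N E‖ =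
      ‖(E.totient : ℂ) * (cnt β A B N E c - ((B : ℂ) - A) / E * mainB β N E)‖ := by
    rw [norm_mul, Complex.norm_natCast]
  rw [h3, h2]
  refine le_trans (norm_add_le _ _) ?_
  apply add_le_add
  · rw [norm_mul]
    gcongr
    · exact coprime_count A B E hAB hE
    · exact norm_mainB_le β hK hβ N E
  · refine le_trans ?_ (sum_nonprincipal_le (E := E) β A B N)
    rw [hR]
    apply norm_sum_le_of_le
    intro χ _
    rw [norm_mul, norm_mul]
    have h4 : ‖χ c⁻¹‖ ≤ 1 := DirichletCharacter.norm_le_one χ _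
    calc _ ≤ 1 * (‖∑ m ∈ Finset.Ioc A B, χ (m : ZMod E)‖ *
          ‖∑ n ∈ Finset.range N, β n * χ (n : ZMod E)‖) := by
          gcongr
      _ = _ := one_mul _

theorem sum_divisors_swap (G : ℕ → ℕ → ℝ) (hG : ∀ f k, 0 ≤ G f k) (Q : ℕ) :
    ∑ E ∈ Finset.Icc 1 Q, ∑ f ∈ E.divisors.erase 1, G f (E / f) ≤
      ∑ k ∈ Finset.Icc 1 Q, ∑ f ∈ Finset.Icc 2 Q, G f k := by
  rw [Finset.sum_sigma', Finset.sum_sigma']
  have hinj : Set.InjOn (fun x : (_ : ℕ) × ℕ => (⟨x.1 / x.2, x.2⟩ : (_ : ℕ) × ℕ))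
      ((Finset.Icc 1 Q).sigma (fun E => E.divisors.erase 1) : Finset ((_ : ℕ) × ℕ)) := by
    rintro ⟨E, f⟩ h1 ⟨E', f'⟩ h2 h
    rw [Finset.mem_coe, Finset.mem_sigma, Finset.mem_erase, Nat.mem_divisors] at h1 h2
    simp only [Sigma.mk.injEq, heq_eq_eq] at h ⊢
    obtain ⟨e1, e2⟩ := h
    subst e2
    refine ⟨?_, rfl⟩
    have e3 := Nat.div_mul_cancel h1.2.2.1
    have e4 := Nat.div_mul_cancel h2.2.2.1
    simp only at e3 e4
    rw [← e3, ← e4, e1]
  rw [← Finset.sum_image (f := fun x : (_ : ℕ) × ℕ => G x.2 x.1) hinj]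
  apply Finset.sum_le_sum_of_subset_of_nonneg
  · intro x hx
    rw [Finset.mem_image] at hx
    obtain ⟨⟨E, f⟩, hy, rfl⟩ := hx
    rw [Finset.mem_sigma, Finset.mem_erase, Nat.mem_divisors] at hy
    simp only at hy
    obtain ⟨hE, hf1, hfE, hE0⟩ := hy
    rw [Finset.mem_Icc] at hE
    have hf0 : 0 < f := Nat.pos_of_dvd_of_pos hfE (by omega)
    have hfle : f ≤ E := Nat.le_of_dvd (by omega) hfE
    rw [Finset.mem_sigma, Finset.mem_Icc, Finset.mem_Icc]
    refine ⟨⟨Nat.div_pos hfle hf0, (Nat.div_le_self E f).trans hE.2⟩, ?_, ?_⟩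
    · show 2 ≤ f
      omega
    · show f ≤ Q
      omega
  · intro x _ _
    exact hG _ _

theorem block_le (β : ℕ → ℂ) {K : ℝ} (hK : 0 ≤ K) (hβ : ∀ n, ‖β n‖ ≤ K)
    (A B N k F : ℕ) (hF : 0 < F) :
    ∑ f ∈ Finset.Icc 1 F, Gfk β A B N f k ≤
      (√((B + 1 : ℕ) : ℝ) * (√((B + 1 : ℕ) : ℝ) + F * √(harmonic (F ^ 2) : ℝ))) *
      (K * √(N : ℝ) * (√(N : ℝ) + F * √(harmonic (F ^ 2) : ℝ))) := by
  classical
  unfold Gfk
  rw [Finset.sum_sigma']
  refine le_trans (Real.sum_mul_le_sqrt_mul_sqrt _ _ _) ?_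
  have hh : (0:ℝ) ≤ (harmonic (F ^ 2) : ℝ) := by
    exact_mod_cast (harmonic_pos (by positivity)).le
  have hsq : ∀ M : ℕ, √((M : ℝ) + (F ^ 2 : ℕ) * (harmonic (F ^ 2) : ℝ)) ≤
      √(M : ℝ) + F * √(harmonic (F ^ 2) : ℝ) := by
    intro M
    apply Real.sqrt_le_iff.mpr
    refine ⟨by positivity, ?_⟩
    have e1 : √(M : ℝ) ^ 2 = M := Real.sq_sqrt (by positivity)
    have e2 : √(harmonic (F ^ 2) : ℝ) ^ 2 = (harmonic (F ^ 2) : ℝ) := Real.sq_sqrt hh
    have e3 : 0 ≤ √(M : ℝ) * (F * √(harmonic (F ^ 2) : ℝ)) := by positivity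
    push_cast
    nlinarith [e1, e2, e3]
  apply mul_le_mul
  · rw [← Finset.sum_sigma' (f := fun f ψ => ‖chiA A B k ψ‖ ^ 2)]
    set c : ℕ → ℂ := fun n => if A < n ∧ Nat.Coprime n k then 1 else 0 with hc
    have h1 : ∀ (f : ℕ) (ψ : DirichletCharacter ℂ f),
        chiA A B k ψ = ∑ n ∈ Finset.range (B + 1), c n * ψ (n : ZMod f) := by
      intro f ψ
      unfold chiA
      rw [← Finset.sum_filter, ← Finset.sum_filter_ne_zero (s := Finset.range (B + 1))]
      have h2 : ∑ x ∈ (Finset.range (B + 1)) with c x * ψ (x : ZMod f) ≠ 0, c x * ψ (x : ZMod f) =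
          ∑ x ∈ (Finset.range (B + 1)) with (A < x ∧ Nat.Coprime x k), c x * ψ (x : ZMod f) := by
        apply Finset.sum_subset
        · intro x hx
          rw [Finset.mem_filter] at hx ⊢
          refine ⟨hx.1, ?_⟩
          by_contra hcon
          apply hx.2
          rw [hc]
          simp only
          rw [if_neg hcon, zero_mul]
        · intro x hx hx'
          rw [Finset.mem_filter] at hx hx'
          by_contra hne
          exact hx' ⟨hx.1, hne⟩
      rw [h2]
      have h3 : (Finset.range (B + 1)).filter (fun x => A < x ∧ Nat.Coprime x k) =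
          (Finset.Ioc A B).filter (fun x => Nat.Coprime x k) := by
        ext x
        simp only [Finset.mem_filter, Finset.mem_range, Finset.mem_Ioc]
        constructor
        · rintro ⟨h1, h2, h3⟩
          exact ⟨⟨h2, by omega⟩, h3⟩
        · rintro ⟨⟨h1, h2⟩, h3⟩
          exact ⟨by omega, h1, h3⟩
      rw [← h3]
      apply Finset.sum_congr rfl
      intro x hx
      rw [Finset.mem_filter] at hx
      rw [hc]
      simp only
      rw [if_pos hx.2, one_mul]
    have h2 := mult_ls F hF (B + 1) c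
    have h3 : ∑ n ∈ Finset.range (B + 1), ‖c n‖ ^ 2 ≤ ((B + 1 : ℕ) : ℝ) := by
      calc _ ≤ ∑ n ∈ Finset.range (B + 1), (1:ℝ) := by
            apply Finset.sum_le_sum
            intro n _
            rw [hc]
            simp only
            split_ifs <;> simp
        _ = _ := by simp
    have h4 : ∑ f ∈ Finset.Icc 1 F, ∑ ψ ∈ Prim f, ‖chiA A B k ψ‖ ^ 2 ≤
        (((B + 1 : ℕ) : ℝ) + (F ^ 2 : ℕ) * (harmonic (F ^ 2) : ℝ)) * ((B + 1 : ℕ) : ℝ) := by
      calc _ = ∑ f ∈ Finset.Icc 1 F, ∑ ψ ∈ Prim f,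
            ‖∑ n ∈ Finset.range (B + 1), c n * ψ (n : ZMod f)‖ ^ 2 := by
              apply Finset.sum_congr rfl
              intro f _
              apply Finset.sum_congr rfl
              intro ψ _
              rw [h1]
        _ ≤ _ := h2
        _ ≤ _ := by gcongr
    calc _ ≤ √((((B + 1 : ℕ) : ℝ) + (F ^ 2 : ℕ) * (harmonic (F ^ 2) : ℝ)) *
          ((B + 1 : ℕ) : ℝ)) := Real.sqrt_le_sqrt h4
      _ = √(((B + 1 : ℕ) : ℝ)) * √(((B + 1 : ℕ) : ℝ) + (F ^ 2 : ℕ) * (harmonic (F ^ 2) : ℝ)) := by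
          rw [Real.sqrt_mul (by positivity), mul_comm]
      _ ≤ _ := by
          gcongr
          exact hsq (B + 1)
  · rw [← Finset.sum_sigma' (f := fun f ψ => ‖chiB β N k ψ‖ ^ 2)]
    set c : ℕ → ℂ := fun n => if Nat.Coprime n k then β n else 0 with hc
    have h1 : ∀ (f : ℕ) (ψ : DirichletCharacter ℂ f),
        chiB β N k ψ = ∑ n ∈ Finset.range N, c n * ψ (n : ZMod f) := by
      intro f ψ
      unfold chiB
      apply Finset.sum_congr rfl
      intro x _
      rw [hc]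
      simp only
      split_ifs <;> simp
    have h2 := mult_ls F hF N c
    have h3 : ∑ n ∈ Finset.range N, ‖c n‖ ^ 2 ≤ K ^ 2 * (N : ℝ) := by
      calc _ ≤ ∑ n ∈ Finset.range N, K ^ 2 := by
            apply Finset.sum_le_sum
            intro n _
            rw [hc]
            simp only
            split_ifs
            · gcongr
              exact hβ n
            · rw [norm_zero, zero_pow two_ne_zero]
              exact sq_nonneg K
        _ = _ := by simp [mul_comm]
    have h4 : ∑ f ∈ Finset.Icc 1 F, ∑ ψ ∈ Prim f, ‖chiB β N k ψ‖ ^ 2 ≤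
        ((N : ℝ) + (F ^ 2 : ℕ) * (harmonic (F ^ 2) : ℝ)) * (K ^ 2 * (N : ℝ)) := by
      calc _ = ∑ f ∈ Finset.Icc 1 F, ∑ ψ ∈ Prim f,
            ‖∑ n ∈ Finset.range N, c n * ψ (n : ZMod f)‖ ^ 2 := by
              apply Finset.sum_congr rfl
              intro f _
              apply Finset.sum_congr rfl
              intro ψ _
              rw [h1]
        _ ≤ _ := h2
        _ ≤ _ := by gcongr
    calc _ ≤ √(((N : ℝ) + (F ^ 2 : ℕ) * (harmonic (F ^ 2) : ℝ)) *
          (K ^ 2 * (N : ℝ))) := Real.sqrt_le_sqrt h4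
      _ = K * √(N : ℝ) * √((N : ℝ) + (F ^ 2 : ℕ) * (harmonic (F ^ 2) : ℝ)) := by
          have e0 : (0:ℝ) ≤ (N : ℝ) + (F ^ 2 : ℕ) * (harmonic (F ^ 2) : ℝ) := by positivity
          have e1 : (0:ℝ) ≤ K ^ 2 := by positivity
          rw [Real.sqrt_mul e0, Real.sqrt_mul e1, Real.sqrt_sq hK]
          ring
      _ ≤ _ := by
          gcongr
          exact hsq N
  · positivity
  · positivity

end Pool.Agent.Work.MP_122e00_nt
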