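import Mathlib
import Pool.Agent.Work.MP_122e00_nt.BV3

/-!
The average of a congruence count over moduli: assembly.
-/

namespace Pool.Agent.Work.MP_122e00_nt

open Finset Complex DirichletCharacter

theorem harmonic_real_mono {a b : ℕ} (h : a ≤ b) : (harmonic a : ℝ) ≤ (harmonic b : ℝ) := by
  rw [harmonic_eq_sum_Icc, harmonic_eq_sum_Icc]
  push_cast
  apply Finset.sum_le_sum_of_subset_of_nonneg
  · exact Finset.Icc_subset_Icc_right h
  · intro i _ _
    positivity

theorem one_le_harmonic {a : ℕ} (h : 1 ≤ a) : (1:ℝ) ≤ (harmonic a : ℝ) := by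
  have h1 := harmonic_real_mono h
  have h2 : (harmonic 1 : ℝ) = 1 := by
    rw [harmonic_eq_sum_Icc]
    simp
  rw [h2] at h1
  exact h1

/-- the error of a dyadic block -/
noncomputable def Xi (K : ℝ) (M N Q L : ℕ) : ℝ :=
  2 * K * √(M : ℝ) * √(N : ℝ) * (√(M : ℝ) * √(N : ℝ) / L +
    (harmonic ((2 * Q) ^ 2) : ℝ) * (√(M : ℝ) + √(N : ℝ)) + 2 * Q * (harmonic ((2 * Q) ^ 2) : ℝ))

theorem Xi_nonneg {K : ℝ} (hK : 0 ≤ K) (M N Q L : ℕ) : 0 ≤ Xi K M N Q L := by
  unfold Xi
  have hh : (0:ℝ) ≤ (harmonic ((2 * Q) ^ 2) : ℝ) := by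
    rw [harmonic_eq_sum_Icc]
    push_cast
    positivity
  positivity

theorem large_block (β : ℕ → ℂ) {K : ℝ} (hK : 0 ≤ K) (hβ : ∀ n, ‖β n‖ ≤ K)
    (A B N k Q L j : ℕ) (hL : 1 ≤ L) :
    ∑ f ∈ (Finset.Icc 2 Q).filter (fun f => L < f ∧ Nat.log 2 f = j),
      (1 / (f : ℝ)) * Gfk β A B N f k ≤ Xi K (B + 1) N Q L := by
  rcases Finset.eq_empty_or_nonempty
    ((Finset.Icc 2 Q).filter (fun f => L < f ∧ Nat.log 2 f = j)) with hemp | ⟨f0, hf0⟩
  · rw [hemp, Finset.sum_empty]
    exact Xi_nonneg hK _ _ _ _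
  rw [Finset.mem_filter, Finset.mem_Icc] at hf0
  obtain ⟨⟨h2, hQ⟩, hLf, hlog⟩ := hf0
  have hpow : ∀ f, f ≠ 0 → Nat.log 2 f = j → 2 ^ j ≤ f ∧ f < 2 ^ (j + 1) := by
    intro f hf hj
    rw [← hj]
    exact ⟨Nat.pow_log_le_self 2 hf, Nat.lt_pow_succ_log_self (by norm_num) f⟩
  set F := 2 ^ (j + 1) with hF
  have hFpos : 0 < F := by positivity
  obtain ⟨hj1, hj2⟩ := hpow f0 (by omega) hlog
  have hLF : L ≤ F := by omega
  have hF2 : F = 2 * 2 ^ j := by rw [hF, pow_succ]; ring
  have hFQ : F ≤ 2 * Q := by omega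
  have hbl := block_le β hK hβ A B N k F hFpos
  have h1 : ∑ f ∈ (Finset.Icc 2 Q).filter (fun f => L < f ∧ Nat.log 2 f = j),
      (1 / (f : ℝ)) * Gfk β A B N f k ≤ (2 / (F : ℝ)) * ∑ f ∈ Finset.Icc 1 F, Gfk β A B N f k := by
    rw [Finset.mul_sum]
    calc _ ≤ ∑ f ∈ (Finset.Icc 2 Q).filter (fun f => L < f ∧ Nat.log 2 f = j),
          (2 / (F : ℝ)) * Gfk β A B N f k := by
          apply Finset.sum_le_sum
          intro f hf
          rw [Finset.mem_filter, Finset.mem_Icc] at hf
          obtain ⟨hf1, hf2⟩ := hpow f (by omega) hf.2.2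
          apply mul_le_mul_of_nonneg_right _ (Gfk_nonneg _ _ _ _ _ _)
          have hfpos : (0:ℝ) < f := by
            have : 0 < f := by omega
            exact_mod_cast this
          have hFpos' : (0:ℝ) < F := by exact_mod_cast hFpos
          rw [div_le_div_iff₀ hfpos hFpos']
          have : F ≤ 2 * f := by omega
          have : (F : ℝ) ≤ 2 * f := by exact_mod_cast this
          linarith
      _ ≤ _ := by
          apply Finset.sum_le_sum_of_subset_of_nonneg
          · intro f hf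
            rw [Finset.mem_filter, Finset.mem_Icc] at hf
            obtain ⟨hf1, hf2⟩ := hpow f (by omega) hf.2.2
            rw [Finset.mem_Icc]
            omega
          · intro f _ _
            have := Gfk_nonneg β A B N f k
            positivity
  refine h1.trans ?_
  have hFpos' : (0:ℝ) < F := by exact_mod_cast hFpos
  have hLpos : (0:ℝ) < L := by exact_mod_cast hL
  have hLF' : (L:ℝ) ≤ F := by exact_mod_cast hLF
  have hFQ' : (F:ℝ) ≤ 2 * Q := by exact_mod_cast hFQ
  have hh1 : (1:ℝ) ≤ (harmonic (F ^ 2) : ℝ) := one_le_harmonic (Nat.one_le_pow _ _ hFpos)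
  have hh2 : (harmonic (F ^ 2) : ℝ) ≤ (harmonic ((2 * Q) ^ 2) : ℝ) :=
    harmonic_real_mono (Nat.pow_le_pow_left hFQ 2)
  have hs1 : √(harmonic (F ^ 2) : ℝ) ≤ (harmonic ((2 * Q) ^ 2) : ℝ) := by
    calc √(harmonic (F ^ 2) : ℝ) ≤ (harmonic (F ^ 2) : ℝ) := by
          apply Real.sqrt_le_iff.mpr
          constructor
          · linarith
          · nlinarith
      _ ≤ _ := hh2
  have hs2 : √(harmonic (F ^ 2) : ℝ) ^ 2 ≤ (harmonic ((2 * Q) ^ 2) : ℝ) := by
    rw [Real.sq_sqrt (by linarith)]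
    exact hh2
  have hs0 : 0 ≤ √(harmonic (F ^ 2) : ℝ) := Real.sqrt_nonneg _
  set s := √(harmonic (F ^ 2) : ℝ) with hs
  set H := (harmonic ((2 * Q) ^ 2) : ℝ) with hH
  set a := √((B + 1 : ℕ) : ℝ) with ha
  set b := √(N : ℝ) with hb
  have ha0 : 0 ≤ a := Real.sqrt_nonneg _
  have hb0 : 0 ≤ b := Real.sqrt_nonneg _
  calc (2 / (F : ℝ)) * ∑ f ∈ Finset.Icc 1 F, Gfk β A B N f k
      ≤ (2 / (F : ℝ)) * ((a * (a + F * s)) * (K * b * (b + F * s))) := by
        gcongr
    _ = 2 * K * a * b * (a * b / F + s * (a + b) + F * s ^ 2) := by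
        field_simp
        ring
    _ ≤ 2 * K * a * b * (a * b / L + H * (a + b) + (2 * Q) * H) := by
        gcongr
    _ = Xi K (B + 1) N Q L := by
        unfold Xi
        rfl

theorem large_sum (β : ℕ → ℂ) {K : ℝ} (hK : 0 ≤ K) (hβ : ∀ n, ‖β n‖ ≤ K)
    (A B N k Q L : ℕ) (hL : 1 ≤ L) :
    ∑ f ∈ (Finset.Icc 2 Q).filter (fun f => L < f),
      (1 / (f : ℝ)) * Gfk β A B N f k ≤ (Nat.log 2 Q + 1 : ℕ) * Xi K (B + 1) N Q L := by
  have h1 : ∀ f ∈ (Finset.Icc 2 Q).filter (fun f => L < f),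
      Nat.log 2 f ∈ Finset.range (Nat.log 2 Q + 1) := by
    intro f hf
    rw [Finset.mem_filter, Finset.mem_Icc] at hf
    rw [Finset.mem_range]
    exact Nat.lt_succ_of_le (Nat.log_mono_right hf.1.2)
  rw [← Finset.sum_fiberwise_of_maps_to h1]
  calc _ ≤ ∑ j ∈ Finset.range (Nat.log 2 Q + 1), Xi K (B + 1) N Q L := by
        apply Finset.sum_le_sum
        intro j _
        rw [Finset.filter_filter]
        exact large_block β hK hβ A B N k Q L j hL
    _ = _ := by simp

theorem small_sum (β : ℕ → ℂ) {K : ℝ} (hK : 0 ≤ K) (hβ : ∀ n, ‖β n‖ ≤ K)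
    (A B N k Q L : ℕ) (hk : k ≠ 0) (D : ℝ) (hD : (k.divisors.card : ℝ) ≤ D) :
    ∑ f ∈ (Finset.Icc 2 Q).filter (fun f => ¬ L < f),
      (1 / (f : ℝ)) * Gfk β A B N f k ≤ L ^ 2 * (D * (K * N)) := by
  classical
  have hD0 : 0 ≤ D := le_trans (by positivity) hD
  calc _ ≤ ∑ f ∈ (Finset.Icc 2 Q).filter (fun f => ¬ L < f), L * (D * (K * N)) := by
        apply Finset.sum_le_sum
        intro f hf
        rw [Finset.mem_filter, Finset.mem_Icc] at hf
        obtain ⟨⟨hf2, hfQ⟩, hfL⟩ := hf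
        have : NeZero f := ⟨by omega⟩
        have hfpos : (0:ℝ) < f := by
          have : 0 < f := by omega
          exact_mod_cast this
        have hfL' : (f:ℝ) ≤ L := by
          have : f ≤ L := by omega
          exact_mod_cast this
        have h1 : Gfk β A B N f k ≤ f * ((D * f) * (K * N)) := by
          unfold Gfk
          calc _ ≤ ∑ ψ ∈ Prim f, (D * f) * (K * N) := by
                apply Finset.sum_le_sum
                intro ψ hψ
                rw [mem_Prim (NeZero.ne f)] at hψ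
                have hne : ψ ≠ 1 := by
                  intro h
                  have h2 := hψ
                  unfold DirichletCharacter.IsPrimitive at h2
                  rw [eq_one_iff_conductor_eq_one.mp h] at h2
                  omega
                have e1 := norm_chiA_le ψ hne A B k hk
                have e2 := norm_chiB_le β hK hβ N k ψ
                calc _ ≤ (k.divisors.card * f) * (K * N) := by gcongr
                  _ ≤ _ := by gcongr
            _ = (Prim f).card * ((D * f) * (K * N)) := by simp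
            _ ≤ _ := by
                gcongr
                calc (Prim f).card ≤ (Finset.univ : Finset (DirichletCharacter ℂ f)).card :=
                      Finset.card_le_univ _
                  _ = f.totient := by
                      rw [Finset.card_univ, ← Nat.card_eq_fintype_card,
                        DirichletCharacter.card_eq_totient_of_hasEnoughRootsOfUnity]
                  _ ≤ f := Nat.totient_le f
        calc (1 / (f : ℝ)) * Gfk β A B N f k ≤ (1 / (f : ℝ)) * (f * ((D * f) * (K * N))) := by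
              gcongr
          _ = f * (D * (K * N)) := by field_simp
          _ ≤ L * (D * (K * N)) := by gcongr
    _ = ((Finset.Icc 2 Q).filter (fun f => ¬ L < f)).card * (L * (D * (K * N))) := by simp
    _ ≤ L * (L * (D * (K * N))) := by
        gcongr
        calc _ ≤ (Finset.Icc 1 L).card := by
              apply Finset.card_le_card
              intro f hf
              rw [Finset.mem_filter, Finset.mem_Icc] at hf
              rw [Finset.mem_Icc]
              omega
          _ = L := by simp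
    _ = _ := by ring

/-- **Bombieri-Vinogradov type estimate** with fixed classes, for sequences with a smooth
variable. -/
theorem bv_bound (β : ℕ → ℂ) {K : ℝ} (hK : 0 ≤ K) (hβ : ∀ n, ‖β n‖ ≤ K)
    (A B N Q L : ℕ) (hAB : A ≤ B) (hL : 1 ≤ L) (w : ℕ → ℝ) (V D : ℝ) (hV : 0 ≤ V)
    (hw0 : ∀ E ∈ Finset.Icc 1 Q, 0 ≤ w E)
    (hw : ∀ E ∈ Finset.Icc 1 Q, w E * E ≤ V * E.totient)
    (hD : ∀ k ∈ Finset.Icc 1 Q, (k.divisors.card : ℝ) ≤ D)
    (c : (E : ℕ) → ZMod E) (hc : ∀ E ∈ Finset.Icc 1 Q, IsUnit (c E)) :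
    ∑ E ∈ Finset.Icc 1 Q, w E * ‖cnt β A B N E (c E) - ((B : ℂ) - A) / E * mainB β N E‖ ≤
      V * (harmonic Q : ℝ) * (D * (K * N) + (L ^ 2 * (D * (K * N)) +
        (Nat.log 2 Q + 1 : ℕ) * Xi K (B + 1) N Q L)) := by
  classical
  have h1 : ∀ E ∈ Finset.Icc 1 Q,
      w E * ‖cnt β A B N E (c E) - ((B : ℂ) - A) / E * mainB β N E‖ ≤
      V * ((1 / (E:ℝ)) * (D * (K * N))) +
        V * ∑ f ∈ E.divisors.erase 1, (1 / ((f : ℝ) * ((E / f : ℕ) : ℝ))) *
          Gfk β A B N f (E / f) := by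
    intro E hE
    have hE1 : 1 ≤ E := (Finset.mem_Icc.mp hE).1
    have hEpos : (0:ℝ) < E := by exact_mod_cast hE1
    have hφ : (0:ℝ) < E.totient := by exact_mod_cast Nat.totient_pos.mpr hE1
    have e1 := single_modulus β hK hβ A B N E hAB (by omega) (c E) (hc E hE)
    have e2 := hw0 E hE
    have e3 := hw E hE
    have e4 : w E ≤ V * E.totient / E := by
      rw [le_div_iff₀ hEpos]; exact e3
    set T := ‖cnt β A B N E (c E) - ((B : ℂ) - A) / E * mainB β N E‖ with hT
    have hT0 : 0 ≤ T := norm_nonneg _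
    calc w E * T ≤ (V * E.totient / E) * T := by gcongr
      _ = V * (1 / (E:ℝ)) * (E.totient * T) := by ring
      _ ≤ V * (1 / (E:ℝ)) * (E.divisors.card * (K * N) +
          ∑ f ∈ E.divisors.erase 1, Gfk β A B N f (E / f)) := by
          gcongr
      _ ≤ V * (1 / (E:ℝ)) * (D * (K * N) +
          ∑ f ∈ E.divisors.erase 1, Gfk β A B N f (E / f)) := by
          gcongr
          exact hD E hE
      _ = V * ((1 / (E:ℝ)) * (D * (K * N))) +
          V * ∑ f ∈ E.divisors.erase 1, (1 / (E : ℝ)) * Gfk β A B N f (E / f) := by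
          rw [← Finset.mul_sum]
          ring
      _ = _ := by
          congr 2
          apply Finset.sum_congr rfl
          intro f hf
          rw [Finset.mem_erase, Nat.mem_divisors] at hf
          have := Nat.mul_div_cancel' hf.2.1
          have e5 : (f : ℝ) * ((E / f : ℕ) : ℝ) = E := by exact_mod_cast this
          rw [e5]
  refine (Finset.sum_le_sum h1).trans ?_
  rw [Finset.sum_add_distrib, ← Finset.mul_sum, ← Finset.mul_sum, ← Finset.sum_mul]
  have hharm : ∑ E ∈ Finset.Icc 1 Q, (1 / (E:ℝ)) = (harmonic Q : ℝ) := by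
    rw [harmonic_eq_sum_Icc]
    push_cast
    apply Finset.sum_congr rfl
    intro i _
    rw [one_div]
  have h2 := sum_divisors_swap (fun f k => (1 / ((f : ℝ) * (k : ℝ))) * Gfk β A B N f k)
    (by
      intro f k
      have := Gfk_nonneg β A B N f k
      positivity) Q
  have h3 : ∑ k ∈ Finset.Icc 1 Q, ∑ f ∈ Finset.Icc 2 Q,
      (1 / ((f : ℝ) * (k : ℝ))) * Gfk β A B N f k ≤
      ∑ k ∈ Finset.Icc 1 Q, (1 / (k : ℝ)) * (L ^ 2 * (D * (K * N)) +
        (Nat.log 2 Q + 1 : ℕ) * Xi K (B + 1) N Q L) := by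
    apply Finset.sum_le_sum
    intro k hk
    have hk1 : 1 ≤ k := (Finset.mem_Icc.mp hk).1
    have e1 : ∑ f ∈ Finset.Icc 2 Q, (1 / ((f : ℝ) * (k : ℝ))) * Gfk β A B N f k =
        (1 / (k : ℝ)) * ∑ f ∈ Finset.Icc 2 Q, (1 / (f : ℝ)) * Gfk β A B N f k := by
      rw [Finset.mul_sum]
      apply Finset.sum_congr rfl
      intro f _
      rw [← mul_assoc, one_div_mul_one_div, mul_comm (f:ℝ)]
    rw [e1]
    gcongr
    rw [← Finset.sum_filter_not_add_sum_filter (Finset.Icc 2 Q) (fun f => L < f)]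
    apply add_le_add
    · exact small_sum β hK hβ A B N k Q L (by omega) D (hD k hk)
    · exact large_sum β hK hβ A B N k Q L hL
  rw [← Finset.sum_mul, hharm] at h3
  rw [hharm]
  calc _ ≤ V * ((harmonic Q : ℝ) * (D * (K * N))) + V * ((harmonic Q : ℝ) *
        (L ^ 2 * (D * (K * N)) + (Nat.log 2 Q + 1 : ℕ) * Xi K (B + 1) N Q L)) := by
        gcongr
        exact h2.trans h3
    _ = _ := by ring

end Pool.Agent.Work.MP_122e00_nt
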