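import Mathlib
import Pool.Agent.Work.MP_122e00_nt.BV4
import Pool.Agent.Work.MP_122e00_nt.Corr

/-!
Counting solutions of `m n ≡ η (mod e)` on average over `e`, without coprimality conditions.
-/

namespace Pool.Agent.Work.MP_122e00_nt

open Finset

/-- number of `m ∈ (A, B]` with `m n ≡ η (mod e)` -/
def sol (A B n e : ℕ) (η : ℤ) : ℕ :=
  ((Finset.Ioc A B).filter (fun m : ℕ => ((m * n : ℕ) : ZMod e) = (η : ZMod e))).card

theorem sol_cond_iff (t q E m n : ℕ) (η : ℤ) (htq : t * q ≠ 0) :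
    (((q * m) * (t * n) : ℕ) : ZMod (t * q * E)) = (((t * q : ℕ) : ℤ) * η : ℤ) ↔
      ((m * n : ℕ) : ZMod E) = (η : ZMod E) := by
  have h1 : ∀ (e a : ℕ) (b : ℤ), ((a : ℕ) : ZMod e) = (b : ZMod e) ↔ (e : ℤ) ∣ b - a := by
    intro e a b
    rw [← Int.cast_natCast (R := ZMod e), ZMod.intCast_eq_intCast_iff, Int.modEq_iff_dvd]
  rw [h1, h1]
  have h2 : ((t * q : ℕ) : ℤ) * η - (((q * m) * (t * n) : ℕ) : ℤ) =
      ((t * q : ℕ) : ℤ) * (η - ((m * n : ℕ) : ℤ)) := by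
    push_cast
    ring
  have h3 : ((t * q * E : ℕ) : ℤ) = ((t * q : ℕ) : ℤ) * (E : ℤ) := by
    push_cast
    ring
  rw [h2, h3]
  apply mul_dvd_mul_iff_left
  exact_mod_cast htq

theorem sol_reduce (A B t q E n : ℕ) (η : ℤ) (htq : t * q ≠ 0) :
    sol (A / q) (B / q) n E η ≤ sol A B (t * n) (t * q * E) (((t * q : ℕ) : ℤ) * η) := by
  have hq : 0 < q := Nat.pos_of_ne_zero (fun h => htq (by rw [h, mul_zero]))
  unfold sol
  apply Finset.card_le_card_of_injOn (fun m => q * m)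
  · intro m hm
    rw [Finset.mem_coe, Finset.mem_filter, Finset.mem_Ioc] at hm ⊢
    refine ⟨⟨?_, ?_⟩, ?_⟩
    · show A < q * m
      rw [mul_comm]
      exact (Nat.div_lt_iff_lt_mul hq).mp hm.1.1
    · show q * m ≤ B
      rw [mul_comm]
      exact (Nat.le_div_iff_mul_le hq).mp hm.1.2
    · exact (sol_cond_iff t q E m n η htq).mpr hm.2
  · intro a _ b _ h
    exact Nat.eq_of_mul_eq_mul_left hq h

theorem coprime_of_sol_ne_zero {A B n E : ℕ} {η : ℤ} (hη : IsUnit (η : ZMod E))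
    (h : sol A B n E η ≠ 0) : Nat.Coprime n E := by
  unfold sol at h
  rw [Finset.card_ne_zero] at h
  obtain ⟨m, hm⟩ := h
  rw [Finset.mem_filter] at hm
  have h1 : IsUnit ((m * n : ℕ) : ZMod E) := by
    rw [hm.2]; exact hη
  rw [Nat.cast_mul] at h1
  have h2 := isUnit_of_mul_isUnit_right h1
  exact (ZMod.isUnit_iff_coprime n E).mp h2

theorem reindex (N t q E : ℕ) (ht : 0 < t) (g : ℕ → ℝ) :
    ∑ n ∈ Finset.range N, (if Nat.Coprime n (q * E) ∧ t * n < N then g (t * n) else 0) =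
      ∑ n ∈ Finset.range N, if Nat.gcd n (t * q * E) = t then g n else 0 := by
  rw [← Finset.sum_filter, ← Finset.sum_filter]
  apply Finset.sum_bij (fun n _ => t * n)
  · intro n hn
    rw [Finset.mem_filter, Finset.mem_range] at hn ⊢
    refine ⟨hn.2.2, ?_⟩
    rw [mul_assoc, Nat.gcd_mul_left, hn.2.1, mul_one]
  · intro a _ b _ h
    exact Nat.eq_of_mul_eq_mul_left ht h
  · intro n hn
    rw [Finset.mem_filter, Finset.mem_range] at hn
    obtain ⟨hn1, hn2⟩ := hn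
    obtain ⟨n', rfl⟩ : t ∣ n := by
      rw [← hn2]
      exact Nat.gcd_dvd_left _ _
    refine ⟨n', ?_, rfl⟩
    rw [Finset.mem_filter, Finset.mem_range]
    refine ⟨?_, ?_, hn1⟩
    · calc n' ≤ t * n' := Nat.le_mul_of_pos_left n' ht
        _ < N := hn1
    · rw [mul_assoc, Nat.gcd_mul_left] at hn2
      exact Nat.eq_of_mul_eq_mul_left ht (by rw [hn2, mul_one])
  · intro _ _
    rfl

/-- the transformed sequence -/
noncomputable def tw (β : ℕ → ℝ) (N t q : ℕ) : ℕ → ℂ := fun n =>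
  if Nat.Coprime n q ∧ t * n < N then ((β (t * n) : ℝ) : ℂ) else 0

theorem norm_tw_le {β : ℕ → ℝ} {K : ℝ} (hβ0 : ∀ n, 0 ≤ β n) (hβ : ∀ n, β n ≤ K) (N t q n : ℕ) :
    ‖tw β N t q n‖ ≤ K := by
  have hK : 0 ≤ K := (hβ0 0).trans (hβ 0)
  unfold tw
  split_ifs
  · rw [Complex.norm_real, Real.norm_eq_abs, abs_of_nonneg (hβ0 _)]
    exact hβ _
  · rw [norm_zero]; exact hK

theorem mainB_tw (β : ℕ → ℝ) (N t q E : ℕ) (ht : 0 < t) :
    mainB (tw β N t q) N E =
      ((∑ n ∈ Finset.range N, if Nat.gcd n (t * q * E) = t then β n else 0 : ℝ) : ℂ) := by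
  rw [← reindex N t q E ht β]
  unfold mainB tw
  push_cast
  apply Finset.sum_congr rfl
  intro n _
  by_cases h1 : Nat.Coprime n E
  · by_cases h2 : Nat.Coprime n q ∧ t * n < N
    · rw [if_pos h1, if_pos h2, if_pos ⟨Nat.Coprime.mul_right h2.1 h1, h2.2⟩]
    · rw [if_pos h1, if_neg h2, if_neg (fun h => h2 ⟨Nat.Coprime.coprime_mul_right_right h.1, h.2⟩)]
      simp
  · rw [if_neg h1, if_neg (fun h => h1 (Nat.Coprime.coprime_mul_left_right h.1))]
    simp

theorem cnt_tw (β : ℕ → ℝ) (A B N t q E : ℕ) (ht : 0 < t) (η : ℤ) (hη : IsUnit (η : ZMod E)) :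
    cnt (tw β N t q) A B N E (η : ZMod E) =
      ((∑ n ∈ Finset.range N, if Nat.gcd n (t * q * E) = t then
        β n * (sol A B (n / t) E η : ℝ) else 0 : ℝ) : ℂ) := by
  rw [← reindex N t q E ht (fun n => β n * (sol A B (n / t) E η : ℝ))]
  rw [Complex.ofReal_sum]
  unfold cnt
  apply Finset.sum_congr rfl
  intro n _
  rw [Nat.mul_div_cancel_left n ht]
  change tw β N t q n * (((sol A B n E η : ℕ)) : ℂ) = _
  unfold tw
  by_cases h0 : sol A B n E η = 0
  · rw [h0]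
    simp
  · have h1 := coprime_of_sol_ne_zero hη h0
    by_cases h2 : Nat.Coprime n q ∧ t * n < N
    · rw [if_pos h2, if_pos ⟨Nat.Coprime.mul_right h2.1 h1, h2.2⟩]
      push_cast
      rfl
    · rw [if_neg h2, if_neg (fun h => h2 ⟨Nat.Coprime.coprime_mul_right_right h.1, h.2⟩)]
      simp

end Pool.Agent.Work.MP_122e00_nt
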