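import Mathlib
import Pool.Agent.Work.MP_122e00_nt.BV5

/-!
Counting solutions of `m n ≡ η (mod e)` on average over `e`: the lower bound.
-/

namespace Pool.Agent.Work.MP_122e00_nt

open Finset

/-- the error term for one pair `(t, q)` -/
noncomputable def Err0 (W D K : ℝ) (M N Q L : ℕ) : ℝ :=
  (W * D) * (harmonic Q : ℝ) * (D * (K * N) + (L ^ 2 * (D * (K * N)) +
        (Nat.log 2 Q + 1 : ℕ) * Xi K M N Q L))

theorem harmonic_nonneg (Q : ℕ) : (0:ℝ) ≤ (harmonic Q : ℝ) := by
  rw [harmonic_eq_sum_Icc]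
  push_cast
  positivity

theorem Xi_mono {K : ℝ} (hK : 0 ≤ K) {M M' : ℕ} (hM : M ≤ M') (N Q L : ℕ) :
    Xi K M N Q L ≤ Xi K M' N Q L := by
  unfold Xi
  have h1 := harmonic_nonneg ((2 * Q) ^ 2)
  have h2 : (M : ℝ) ≤ M' := by exact_mod_cast hM
  gcongr

theorem Err0_nonneg {W D K : ℝ} (hW : 0 ≤ W) (hD : 0 ≤ D) (hK : 0 ≤ K) (M N Q L : ℕ) :
    0 ≤ Err0 W D K M N Q L := by
  unfold Err0
  have h1 := harmonic_nonneg Q
  have h2 := Xi_nonneg hK M N Q L
  positivity

theorem self_le_card_divisors_mul_totient (E : ℕ) (hE : E ≠ 0) :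
    E ≤ E.divisors.card * E.totient := by
  calc E = ∑ d ∈ E.divisors, d.totient := (Nat.sum_totient E).symm
    _ ≤ ∑ d ∈ E.divisors, E.totient := by
        apply Finset.sum_le_sum
        intro d hd
        exact Nat.le_of_dvd (Nat.totient_pos.mpr (Nat.pos_of_ne_zero hE))
          (Nat.totient_dvd_of_dvd (Nat.dvd_of_mem_divisors hd))
    _ = _ := by simp

theorem gcd_scale (t q E h : ℕ) (h0 : t * q ∣ h) (htq : t * q ≠ 0) :
    Nat.gcd (t * q * E) h = t * q ↔ Nat.Coprime E (h / (t * q)) := by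
  obtain ⟨h', rfl⟩ := h0
  have hpos : 0 < t * q := Nat.pos_of_ne_zero htq
  rw [Nat.mul_div_cancel_left h' hpos, Nat.gcd_mul_left]
  constructor
  · intro h1
    exact Nat.eq_of_mul_eq_mul_left hpos (by rw [h1, mul_one])
  · intro h1
    rw [h1, mul_one]

/-- the estimate for one pair `(t, q)` -/
theorem pair_bound (β : ℕ → ℝ) {K : ℝ} (hβ0 : ∀ n, 0 ≤ β n) (hβ : ∀ n, β n ≤ K)
    (A B N Q L : ℕ) (hAB : A ≤ B) (hL : 1 ≤ L) (w : ℕ → ℝ) (W D : ℝ)
    (hw0 : ∀ e, 0 ≤ w e) (hw : ∀ e, w e ≤ W)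
    (hD : ∀ k ∈ Finset.Icc 1 Q, (k.divisors.card : ℝ) ≤ D) (hD0 : 0 ≤ D)
    (h t q : ℕ) (htq : t * q ∣ h) (hh : h ≠ 0) (η' : ℤ) (hη' : η'.natAbs = h / (t * q)) :
    ∑ e ∈ (Finset.Icc 1 Q).filter (fun e => Nat.gcd e h = t * q),
      w e * |(∑ n ∈ Finset.range N, if Nat.gcd n e = t then
          β n * (sol (A / q) (B / q) (n / t) (e / (t * q)) η' : ℝ) else 0) -
        (((B / q : ℕ) : ℝ) - ((A / q : ℕ) : ℝ)) / ((e / (t * q) : ℕ) : ℝ) *
          (∑ n ∈ Finset.range N, if Nat.gcd n e = t then β n else 0)| ≤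
      Err0 W D K (B + 1) N Q L := by
  classical
  have hW0 : 0 ≤ W := (hw0 0).trans (hw 0)
  have hK : 0 ≤ K := (hβ0 0).trans (hβ 0)
  have htq0 : t * q ≠ 0 := fun h0 => hh (Nat.eq_zero_of_zero_dvd (h0 ▸ htq))
  have hpos : 0 < t * q := Nat.pos_of_ne_zero htq0
  have ht : 0 < t := Nat.pos_of_ne_zero (fun h0 => htq0 (by rw [h0, zero_mul]))
  have hq : 0 < q := Nat.pos_of_ne_zero (fun h0 => htq0 (by rw [h0, mul_zero]))
  have hh'0 : h / (t * q) ≠ 0 := by
    have := Nat.div_pos (Nat.le_of_dvd (Nat.pos_of_ne_zero hh) htq) hpos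
    omega
  set w' : ℕ → ℝ := fun E => if Nat.Coprime E (h / (t * q)) then w (t * q * E) else 0 with hw'
  set c : (E : ℕ) → ZMod E := fun E => if Nat.Coprime E (h / (t * q)) then (η' : ZMod E) else 1
    with hc
  have hunit : ∀ E : ℕ, Nat.Coprime E (h / (t * q)) → IsUnit (η' : ZMod E) := by
    intro E hE
    rw [← hη'] at hE
    have h1 : IsCoprime (η' : ℤ) (E : ℤ) := by
      rw [Int.isCoprime_iff_gcd_eq_one, Int.gcd_comm]
      exact hE
    have h2 := ZMod.coe_int_isUnit_iff_isCoprime η' E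
    rw [h2]
    exact h1.symm
  have hbv := bv_bound (tw β N t q) hK (norm_tw_le hβ0 hβ N t q) (A / q) (B / q) N Q L
    (Nat.div_le_div_right hAB) hL w' (W * D) D (by positivity)
    (by
      intro E _
      rw [hw']
      simp only
      split_ifs
      · exact hw0 _
      · exact le_rfl)
    (by
      intro E hE
      have hE0 : E ≠ 0 := by
        have := (Finset.mem_Icc.mp hE).1
        omega
      have h1 : w' E ≤ W := by
        rw [hw']
        simp only
        split_ifs
        · exact hw _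
        · exact hW0
      have h2 : (E : ℝ) ≤ D * E.totient := by
        calc (E : ℝ) ≤ (E.divisors.card : ℝ) * E.totient := by
              exact_mod_cast self_le_card_divisors_mul_totient E hE0
          _ ≤ D * E.totient := by
              gcongr
              exact hD E hE
      calc w' E * E ≤ W * (D * E.totient) := by gcongr
        _ = W * D * E.totient := by ring)
    hD c
    (by
      intro E _
      rw [hc]
      simp only
      split_ifs with h1
      · exact hunit E h1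
      · exact isUnit_one)
  have hXi : Err0 W D K (B / q + 1) N Q L ≤ Err0 W D K (B + 1) N Q L := by
    unfold Err0
    have h1 := harmonic_nonneg Q
    have h2 : Xi K (B / q + 1) N Q L ≤ Xi K (B + 1) N Q L :=
      Xi_mono hK (by have := Nat.div_le_self B q; omega) N Q L
    gcongr
  refine le_trans ?_ (hbv.trans hXi)
  -- reindex `e = t q E`
  have hinj : Set.InjOn (fun e : ℕ => e / (t * q))
      ((Finset.Icc 1 Q).filter (fun e => Nat.gcd e h = t * q) : Finset ℕ) := by
    intro e he e' he' heq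
    rw [Finset.mem_coe, Finset.mem_filter] at he he'
    have h1 : t * q ∣ e := by rw [← he.2]; exact Nat.gcd_dvd_left _ _
    have h2 : t * q ∣ e' := by rw [← he'.2]; exact Nat.gcd_dvd_left _ _
    simp only at heq
    rw [← Nat.div_mul_cancel h1, ← Nat.div_mul_cancel h2, heq]
  have hterm : ∀ e ∈ (Finset.Icc 1 Q).filter (fun e => Nat.gcd e h = t * q),
      w e * |(∑ n ∈ Finset.range N, if Nat.gcd n e = t then
          β n * (sol (A / q) (B / q) (n / t) (e / (t * q)) η' : ℝ) else 0) -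
        (((B / q : ℕ) : ℝ) - ((A / q : ℕ) : ℝ)) / ((e / (t * q) : ℕ) : ℝ) *
          (∑ n ∈ Finset.range N, if Nat.gcd n e = t then β n else 0)| =
      (fun E => w' E * ‖cnt (tw β N t q) (A / q) (B / q) N E (c E) -
        (((B / q : ℕ) : ℂ) - ((A / q : ℕ) : ℂ)) / E * mainB (tw β N t q) N E‖) (e / (t * q)) := by
    intro e he
    rw [Finset.mem_filter] at he
    obtain ⟨E, rfl⟩ : t * q ∣ e := by rw [← he.2]; exact Nat.gcd_dvd_left _ _
    have hcop := (gcd_scale t q E h htq htq0).mp he.2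
    rw [Nat.mul_div_cancel_left E hpos]
    simp only
    have e1 : w' E = w (t * q * E) := by
      rw [hw']
      simp only
      rw [if_pos hcop]
    have e2 : c E = (η' : ZMod E) := by
      rw [hc]
      simp only
      rw [if_pos hcop]
    rw [e1, e2, cnt_tw β _ _ N t q E ht η' (hunit E hcop), mainB_tw β N t q E ht]
    congr 1
    rw [← Real.norm_eq_abs, ← Complex.norm_real]
    congr 1
    push_cast
    rfl
  rw [Finset.sum_congr rfl hterm, ← Finset.sum_image (f := fun E => w' E *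
    ‖cnt (tw β N t q) (A / q) (B / q) N E (c E) -
        (((B / q : ℕ) : ℂ) - ((A / q : ℕ) : ℂ)) / E * mainB (tw β N t q) N E‖) hinj]
  apply Finset.sum_le_sum_of_subset_of_nonneg
  · intro E hE
    rw [Finset.mem_image] at hE
    obtain ⟨e, he, rfl⟩ := hE
    rw [Finset.mem_filter, Finset.mem_Icc] at he
    have h1 : t * q ∣ e := by rw [← he.2]; exact Nat.gcd_dvd_left _ _
    rw [Finset.mem_Icc]
    exact ⟨Nat.div_pos (Nat.le_of_dvd (by omega) h1) hpos, (Nat.div_le_self _ _).trans he.1.2⟩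
  · intro E _ _
    apply mul_nonneg _ (norm_nonneg _)
    rw [hw']
    simp only
    split_ifs
    · exact hw0 _
    · exact le_rfl

end Pool.Agent.Work.MP_122e00_nt
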