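import Mathlib
import Pool.Agent.Work.MP_122e00_nt.BV6

/-!
Counting solutions of `m n ≡ η (mod e)` on average over `e`: the lower bound, all pairs.
-/

namespace Pool.Agent.Work.MP_122e00_nt

open Finset

theorem sum_pairs (h n e : ℕ) (hh : h ≠ 0) (he : e ≠ 0) (φ : ℕ → ℕ → ℝ) :
    ∑ p ∈ h.divisors ×ˢ h.divisors,
      (if Nat.gcd e h = p.1 * p.2 ∧ Nat.gcd n e = p.1 then φ p.1 p.2 else 0) =
      if Nat.gcd n e ∣ h then φ (Nat.gcd n e) (Nat.gcd e h / Nat.gcd n e) else 0 := by
  have hgpos : 0 < Nat.gcd n e := Nat.gcd_pos_of_pos_right _ (Nat.pos_of_ne_zero he)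
  split_ifs with hd
  · have h1 : Nat.gcd n e ∣ Nat.gcd e h := Nat.dvd_gcd (Nat.gcd_dvd_right _ _) hd
    rw [Finset.sum_eq_single (Nat.gcd n e, Nat.gcd e h / Nat.gcd n e)]
    · rw [if_pos ⟨(Nat.mul_div_cancel' h1).symm, rfl⟩]
    · rintro ⟨t, q⟩ _ hne
      rw [if_neg]
      rintro ⟨h2, h3⟩
      apply hne
      simp only at h2 h3
      rw [← h3] at h2 ⊢
      rw [h2, Nat.mul_div_cancel_left _ hgpos]
    · intro hnot
      exfalso
      apply hnot
      rw [Finset.mem_product, Nat.mem_divisors, Nat.mem_divisors]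
      refine ⟨⟨hd, hh⟩, ?_, hh⟩
      exact (Nat.div_dvd_of_dvd h1).trans (Nat.gcd_dvd_right e h)
  · apply Finset.sum_eq_zero
    rintro ⟨t, q⟩ hp
    rw [Finset.mem_product, Nat.mem_divisors] at hp
    rw [if_neg]
    rintro ⟨_, h3⟩
    simp only at h3
    rw [h3] at hd
    exact hd hp.1.1

theorem sol_pairs_le (A B n e h : ℕ) (hh : h ≠ 0) (he : e ≠ 0) (η : ℤ) (hη : η.natAbs = h) :
    ∑ p ∈ h.divisors ×ˢ h.divisors,
      (if Nat.gcd e h = p.1 * p.2 ∧ Nat.gcd n e = p.1 then
        (sol (A / p.2) (B / p.2) (n / p.1) (e / (p.1 * p.2)) (η / ((p.1 * p.2 : ℕ) : ℤ)) : ℝ)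
        else 0) ≤ (sol A B n e η : ℝ) := by
  rw [sum_pairs h n e hh he (fun t q =>
    (sol (A / q) (B / q) (n / t) (e / (t * q)) (η / ((t * q : ℕ) : ℤ)) : ℝ))]
  split_ifs with hd
  · have h1 : Nat.gcd n e ∣ Nat.gcd e h := Nat.dvd_gcd (Nat.gcd_dvd_right _ _) hd
    have hgpos : 0 < Nat.gcd n e := Nat.gcd_pos_of_pos_right _ (Nat.pos_of_ne_zero he)
    have hg2pos : 0 < Nat.gcd e h := Nat.gcd_pos_of_pos_left _ (Nat.pos_of_ne_zero he)
    set t := Nat.gcd n e with ht
    obtain ⟨q, hq⟩ := h1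
    have htq : t * q ≠ 0 := by rw [← hq]; exact hg2pos.ne'
    have hpos : 0 < t * q := Nat.pos_of_ne_zero htq
    rw [hq, Nat.mul_div_cancel_left q hgpos]
    obtain ⟨n', hn'⟩ : t ∣ n := Nat.gcd_dvd_left _ _
    obtain ⟨E, hE⟩ : t * q ∣ e := by rw [← hq]; exact Nat.gcd_dvd_left _ _
    have h2 : ((t * q : ℕ) : ℤ) ∣ η := by
      rw [← Int.dvd_natAbs, hη, Int.natCast_dvd_natCast, ← hq]
      exact Nat.gcd_dvd_right _ _
    obtain ⟨η', hη'⟩ := h2
    have h3 : ((t * q : ℕ) : ℤ) ≠ 0 := by exact_mod_cast htq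
    have e1 : n / t = n' := by
      conv_lhs => rw [hn']
      exact Nat.mul_div_cancel_left _ hgpos
    have e2 : e / (t * q) = E := by
      conv_lhs => rw [hE]
      exact Nat.mul_div_cancel_left _ hpos
    have e3 : η / ((t * q : ℕ) : ℤ) = η' := by
      rw [hη']
      exact Int.mul_ediv_cancel_left _ h3
    have h4 := sol_reduce A B t q E n' η' htq
    rw [← hn', ← hE, ← hη'] at h4
    rw [e1, e2, e3]
    exact_mod_cast h4
  · positivity

theorem count_lower (β : ℕ → ℝ) {K : ℝ} (hβ0 : ∀ n, 0 ≤ β n) (hβ : ∀ n, β n ≤ K)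
    (A B N Q L : ℕ) (hAB : A ≤ B) (hL : 1 ≤ L) (w : ℕ → ℝ) (W D : ℝ)
    (hw0 : ∀ e, 0 ≤ w e) (hw : ∀ e, w e ≤ W)
    (hD : ∀ k ∈ Finset.Icc 1 Q, (k.divisors.card : ℝ) ≤ D) (hD0 : 0 ≤ D)
    (h : ℕ) (hh : h ≠ 0) (η : ℤ) (hη : η.natAbs = h) :
    ((B : ℝ) - A) * (∑ e ∈ Finset.Icc 1 Q, ∑ n ∈ Finset.range N,
        w e * β n * (Fh h (Nat.gcd n e) / e)) -
      ((h.divisors.card : ℝ) ^ 2 * Err0 W D K (B + 1) N Q L +
        h * W * (K * N) * (harmonic Q : ℝ)) ≤
    ∑ e ∈ Finset.Icc 1 Q, w e * ∑ n ∈ Finset.range N, β n * (sol A B n e η : ℝ) := by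
  classical
  have hW0 : 0 ≤ W := (hw0 0).trans (hw 0)
  have hK : 0 ≤ K := (hβ0 0).trans (hβ 0)
  set P := h.divisors ×ˢ h.divisors with hP
  have hA' : (A : ℝ) ≤ B := by exact_mod_cast hAB
  -- abbreviations
  set S1 : ℕ × ℕ → ℕ → ℝ := fun p e => ∑ n ∈ Finset.range N, if Nat.gcd n e = p.1 then
    β n * (sol (A / p.2) (B / p.2) (n / p.1) (e / (p.1 * p.2))
      (η / ((p.1 * p.2 : ℕ) : ℤ)) : ℝ) else 0 with hS1
  set S2 : ℕ → ℕ → ℝ := fun t e => ∑ n ∈ Finset.range N, if Nat.gcd n e = t then β n else 0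
    with hS2
  have hS2nn : ∀ t e, 0 ≤ S2 t e := by
    intro t e
    rw [hS2]
    apply Finset.sum_nonneg
    intro n _
    split_ifs
    · exact hβ0 n
    · exact le_rfl
  -- step A: lower bound by the sum over pairs
  have stepA : ∑ p ∈ P, ∑ e ∈ (Finset.Icc 1 Q).filter (fun e => Nat.gcd e h = p.1 * p.2),
      w e * S1 p e ≤
      ∑ e ∈ Finset.Icc 1 Q, w e * ∑ n ∈ Finset.range N, β n * (sol A B n e η : ℝ) := by
    have e1 : ∑ p ∈ P, ∑ e ∈ (Finset.Icc 1 Q).filter (fun e => Nat.gcd e h = p.1 * p.2),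
        w e * S1 p e = ∑ e ∈ Finset.Icc 1 Q, w e * ∑ n ∈ Finset.range N, β n * ∑ p ∈ P,
          (if Nat.gcd e h = p.1 * p.2 ∧ Nat.gcd n e = p.1 then
        (sol (A / p.2) (B / p.2) (n / p.1) (e / (p.1 * p.2)) (η / ((p.1 * p.2 : ℕ) : ℤ)) : ℝ)
        else 0) := by
      simp_rw [Finset.sum_filter]
      rw [Finset.sum_comm]
      apply Finset.sum_congr rfl
      intro e _
      simp_rw [Finset.mul_sum]
      rw [Finset.sum_comm]
      apply Finset.sum_congr rfl
      intro p _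
      by_cases h1 : Nat.gcd e h = p.1 * p.2
      · rw [if_pos h1, hS1]
        simp only
        rw [Finset.mul_sum]
        apply Finset.sum_congr rfl
        intro n _
        by_cases h2 : Nat.gcd n e = p.1
        · rw [if_pos h2, if_pos ⟨h1, h2⟩]
        · rw [if_neg h2, if_neg (fun hc => h2 hc.2)]
          ring
      · rw [if_neg h1]
        symm
        apply Finset.sum_eq_zero
        intro n _
        rw [if_neg (fun hc => h1 hc.1)]
        ring
    rw [e1]
    apply Finset.sum_le_sum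
    intro e he
    have he0 : e ≠ 0 := by
      have := (Finset.mem_Icc.mp he).1
      omega
    apply mul_le_mul_of_nonneg_left _ (hw0 e)
    apply Finset.sum_le_sum
    intro n _
    apply mul_le_mul_of_nonneg_left _ (hβ0 n)
    exact sol_pairs_le A B n e h hh he0 η hη
  -- step B: each pair
  have hE0 : 0 ≤ Err0 W D K (B + 1) N Q L := Err0_nonneg hW0 hD0 hK _ _ _ _
  have stepB : ∀ p ∈ P, (∑ e ∈ (Finset.Icc 1 Q).filter (fun e => Nat.gcd e h = p.1 * p.2),
      w e * ((((B : ℝ) - A) * p.1 - h) / e * S2 p.1 e)) - Err0 W D K (B + 1) N Q L ≤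
      ∑ e ∈ (Finset.Icc 1 Q).filter (fun e => Nat.gcd e h = p.1 * p.2), w e * S1 p e := by
    rintro ⟨t, q⟩ hp
    simp only
    by_cases hdvd : t * q ∣ h
    · have htq0 : t * q ≠ 0 := fun h0 => hh (Nat.eq_zero_of_zero_dvd (h0 ▸ hdvd))
      have hpos : 0 < t * q := Nat.pos_of_ne_zero htq0
      have hq : 0 < q := Nat.pos_of_ne_zero (fun h0 => htq0 (by rw [h0, mul_zero]))
      have hη' : (η / ((t * q : ℕ) : ℤ)).natAbs = h / (t * q) := by
        have h2 : ((t * q : ℕ) : ℤ) ∣ η := by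
          rw [← Int.dvd_natAbs, hη, Int.natCast_dvd_natCast]
          exact hdvd
        rw [Int.natAbs_ediv_of_dvd h2, hη, Int.natAbs_natCast]
      have hpb := pair_bound β hβ0 hβ A B N Q L hAB hL w W D hw0 hw hD hD0 h t q hdvd hh
        (η / ((t * q : ℕ) : ℤ)) hη'
      have hterm : ∀ e ∈ (Finset.Icc 1 Q).filter (fun e => Nat.gcd e h = t * q),
          w e * ((((B : ℝ) - A) * t - h) / e * S2 t e) ≤ w e * S1 (t, q) e +
          w e * |S1 (t, q) e -
            (((B / q : ℕ) : ℝ) - ((A / q : ℕ) : ℝ)) / ((e / (t * q) : ℕ) : ℝ) * S2 t e| := by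
        intro e he
        rw [Finset.mem_filter, Finset.mem_Icc] at he
        rw [← mul_add]
        apply mul_le_mul_of_nonneg_left _ (hw0 e)
        have h1 : (((B : ℝ) - A) * t - h) / e ≤
            (((B / q : ℕ) : ℝ) - ((A / q : ℕ) : ℝ)) / ((e / (t * q) : ℕ) : ℝ) := by
          obtain ⟨E, rfl⟩ : t * q ∣ e := by rw [← he.2]; exact Nat.gcd_dvd_left _ _
          have hE0 : 0 < E := by
            rcases Nat.eq_zero_or_pos E with h0 | h0
            · rw [h0, mul_zero] at he; omega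
            · exact h0
          rw [Nat.mul_div_cancel_left E hpos]
          have e3 : ((B : ℝ)) / q < ((B / q : ℕ) : ℝ) + 1 := by
            rw [div_lt_iff₀ (by exact_mod_cast hq)]
            have := Nat.lt_div_mul_add hq (a := B)
            have h2 : B < (B / q + 1) * q := by
              rw [add_mul, one_mul]; exact this
            exact_mod_cast h2
          have e4 : ((A / q : ℕ) : ℝ) ≤ (A : ℝ) / q := Nat.cast_div_le
          have hE' : (0:ℝ) < E := by exact_mod_cast hE0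
          have hpos' : (0:ℝ) < (t:ℝ) * q := by exact_mod_cast hpos
          have hq' : (0:ℝ) < q := by exact_mod_cast hq
          have hle : ((t:ℝ) * q) ≤ h := by
            have := Nat.le_of_dvd (Nat.pos_of_ne_zero hh) hdvd
            exact_mod_cast this
          have e5 : ((B : ℝ) - A) / q - 1 ≤ ((B / q : ℕ) : ℝ) - ((A / q : ℕ) : ℝ) := by
            rw [sub_div]
            linarith
          calc (((B : ℝ) - A) * t - h) / ((t * q * E : ℕ) : ℝ)
              ≤ (((B : ℝ) - A) * t - t * q) / ((t * q * E : ℕ) : ℝ) := by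
                gcongr
            _ = (((B : ℝ) - A) / q - 1) / E := by
                have ht' : (t:ℝ) ≠ 0 := by
                  intro h0
                  rw [h0, zero_mul] at hpos'
                  exact lt_irrefl _ hpos'
                push_cast
                field_simp
            _ ≤ _ := by gcongr
        have h2 := mul_le_mul_of_nonneg_right h1 (hS2nn t e)
        have h3 := neg_le_abs (S1 (t, q) e -
            (((B / q : ℕ) : ℝ) - ((A / q : ℕ) : ℝ)) / ((e / (t * q) : ℕ) : ℝ) * S2 t e)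
        linarith
      have h4 := Finset.sum_le_sum hterm
      rw [Finset.sum_add_distrib] at h4
      have h5 : ∑ e ∈ (Finset.Icc 1 Q).filter (fun e => Nat.gcd e h = t * q), w e *
          |S1 (t, q) e - (((B / q : ℕ) : ℝ) - ((A / q : ℕ) : ℝ)) / ((e / (t * q) : ℕ) : ℝ) *
            S2 t e| ≤ Err0 W D K (B + 1) N Q L := hpb
      linarith
    · have hemp : (Finset.Icc 1 Q).filter (fun e => Nat.gcd e h = t * q) = ∅ := by
        apply Finset.filter_false_of_mem
        intro e _ he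
        apply hdvd
        rw [← he]
        exact Nat.gcd_dvd_right _ _
      rw [hemp, Finset.sum_empty, Finset.sum_empty]
      linarith
  have stepB' := Finset.sum_le_sum stepB
  rw [Finset.sum_sub_distrib, Finset.sum_const, nsmul_eq_mul] at stepB'
  have hcard : ((P.card : ℕ) : ℝ) = (h.divisors.card : ℝ) ^ 2 := by
    rw [hP, Finset.card_product]
    push_cast
    ring
  rw [hcard] at stepB'
  -- step C: identify the main term
  have stepC : ∑ p ∈ P, ∑ e ∈ (Finset.Icc 1 Q).filter (fun e => Nat.gcd e h = p.1 * p.2),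
      w e * ((((B : ℝ) - A) * p.1 - h) / e * S2 p.1 e) =
      ∑ e ∈ Finset.Icc 1 Q, ∑ n ∈ Finset.range N, w e * β n / e *
        (if Nat.gcd n e ∣ h then (((B : ℝ) - A) * (Nat.gcd n e : ℕ) - h) else 0) := by
    simp_rw [Finset.sum_filter]
    rw [Finset.sum_comm]
    apply Finset.sum_congr rfl
    intro e he
    have he0 : e ≠ 0 := by
      have := (Finset.mem_Icc.mp he).1
      omega
    have e1 : ∀ n ∈ Finset.range N, w e * β n / e *
        (if Nat.gcd n e ∣ h then (((B : ℝ) - A) * (Nat.gcd n e : ℕ) - h) else 0) =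
        ∑ p ∈ P, w e * β n / e * (if Nat.gcd e h = p.1 * p.2 ∧ Nat.gcd n e = p.1 then
          (((B : ℝ) - A) * p.1 - h) else 0) := by
      intro n _
      rw [← Finset.mul_sum, sum_pairs h n e hh he0 (fun t _ => (((B : ℝ) - A) * t - h))]
    rw [Finset.sum_congr rfl e1, Finset.sum_comm]
    apply Finset.sum_congr rfl
    intro p _
    by_cases h1 : Nat.gcd e h = p.1 * p.2
    · rw [if_pos h1, hS2]
      simp only
      rw [Finset.mul_sum, Finset.mul_sum]
      apply Finset.sum_congr rfl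
      intro n _
      by_cases h2 : Nat.gcd n e = p.1
      · rw [if_pos h2, if_pos ⟨h1, h2⟩]
        ring
      · rw [if_neg h2, if_neg (fun hc => h2 hc.2)]
        ring
    · rw [if_neg h1]
      symm
      apply Finset.sum_eq_zero
      intro n _
      rw [if_neg (fun hc => h1 hc.1)]
      ring
  have stepD : ((B : ℝ) - A) * (∑ e ∈ Finset.Icc 1 Q, ∑ n ∈ Finset.range N,
        w e * β n * (Fh h (Nat.gcd n e) / e)) - h * W * (K * N) * (harmonic Q : ℝ) ≤
      ∑ e ∈ Finset.Icc 1 Q, ∑ n ∈ Finset.range N, w e * β n / e *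
        (if Nat.gcd n e ∣ h then (((B : ℝ) - A) * (Nat.gcd n e : ℕ) - h) else 0) := by
    have h1 : ∑ e ∈ Finset.Icc 1 Q, ∑ n ∈ Finset.range N, (h : ℝ) * (W * K * (1 / (e : ℝ))) =
        h * W * (K * N) * (harmonic Q : ℝ) := by
      rw [harmonic_eq_sum_Icc]
      push_cast
      rw [Finset.mul_sum]
      apply Finset.sum_congr rfl
      intro e _
      rw [Finset.sum_const, Finset.card_range, nsmul_eq_mul]
      rw [one_div]
      ring
    rw [← h1, Finset.mul_sum, ← Finset.sum_sub_distrib]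
    apply Finset.sum_le_sum
    intro e he
    have he1 : 1 ≤ e := (Finset.mem_Icc.mp he).1
    have hepos : (0:ℝ) < e := by exact_mod_cast he1
    rw [Finset.mul_sum, ← Finset.sum_sub_distrib]
    apply Finset.sum_le_sum
    intro n _
    have h2 : w e * β n ≤ W * K := mul_le_mul (hw e) (hβ n) (hβ0 n) hW0
    have h3 : 0 ≤ w e * β n := mul_nonneg (hw0 e) (hβ0 n)
    have h4 : w e * β n / e * h ≤ (h : ℝ) * (W * K * (1 / (e : ℝ))) := by
      calc w e * β n / e * h ≤ W * K / e * h := by gcongr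
        _ = _ := by ring
    rw [Fh_apply]
    split_ifs with hd
    · have : ((B : ℝ) - A) * (w e * β n * (((Nat.gcd n e : ℕ) : ℝ) / e)) -
          (h : ℝ) * (W * K * (1 / (e : ℝ))) ≤
          ((B : ℝ) - A) * (w e * β n * (((Nat.gcd n e : ℕ) : ℝ) / e)) - w e * β n / e * h := by
        linarith
      refine this.trans (le_of_eq ?_)
      ring
    · have : 0 ≤ (h : ℝ) * (W * K * (1 / (e : ℝ))) := by positivity
      rw [zero_div, mul_zero, mul_zero, mul_zero]
      linarith
  rw [stepC] at stepB'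
  linarith

end Pool.Agent.Work.MP_122e00_nt
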