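import Mathlib
import Pool.Agent.Work.MP_122e00_nt.BV7

/-!
Counting pairs of tuples `(a, b)` with `∏ a ∣ n` and `∏ b ∣ n - z`.
-/

namespace Pool.Agent.Work.MP_122e00_nt

open Finset

variable {s : ℕ}

/-- number of tuples of `C` with product `e` -/
noncomputable def nu (C : Finset (Fin s → ℕ)) (e : ℕ) : ℕ :=
  (C.filter (fun b => ∏ i, b i = e)).card

theorem sum_nu (C : Finset (Fin s → ℕ)) (S : Finset ℕ) (hS : ∀ b ∈ C, ∏ i, b i ∈ S)
    (f : ℕ → ℝ) : ∑ e ∈ S, (nu C e : ℝ) * f e = ∑ b ∈ C, f (∏ i, b i) := by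
  rw [← Finset.sum_fiberwise_of_maps_to hS]
  apply Finset.sum_congr rfl
  intro e _
  have h1 : ∑ b ∈ C with ∏ i, b i = e, f (∏ i, b i) = ∑ b ∈ C with ∏ i, b i = e, f e := by
    apply Finset.sum_congr rfl
    intro b hb
    rw [(Finset.mem_filter.mp hb).2]
  rw [h1, Finset.sum_const, nsmul_eq_mul]
  rfl

/-- the tuples with product in `[lam ^ j, lam ^ (j+1))` -/
noncomputable def cls (C : Finset (Fin s → ℕ)) (lam : ℝ) (j : ℕ) : Finset (Fin s → ℕ) :=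
  C.filter (fun a => lam ^ j ≤ ((∏ i, a i : ℕ) : ℝ) ∧ ((∏ i, a i : ℕ) : ℝ) < lam ^ (j + 1))

theorem cls_unique {C : Finset (Fin s → ℕ)} {lam : ℝ} (hl : 1 < lam) {j j' : ℕ}
    {a : Fin s → ℕ} (h : a ∈ cls C lam j) (h' : a ∈ cls C lam j') : j = j' := by
  unfold cls at h h'
  rw [Finset.mem_filter] at h h'
  have h1 : lam ^ j < lam ^ (j' + 1) := h.2.1.trans_lt h'.2.2
  have h2 : lam ^ j' < lam ^ (j + 1) := h'.2.1.trans_lt h.2.2
  rw [pow_lt_pow_iff_right₀ hl] at h1 h2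
  omega

/-- number of `(n, a, b)` with `δ X < n ≤ X`, `∏ a ∣ n`, `∏ b ∣ n - z` -/
noncomputable def Scount (C C' : Finset (Fin s → ℕ)) (lo hi : ℕ) (z : ℤ) : ℕ :=
  ∑ n ∈ Finset.Ioc lo hi, ((C ×ˢ C').filter (fun p => (∏ i, p.1 i) ∣ n ∧
    ((∏ i, p.2 i : ℕ) : ℤ) ∣ (n : ℤ) - z)).card

theorem Scount_eq (C C' : Finset (Fin s → ℕ)) (lo hi : ℕ) (z : ℤ) :
    Scount C C' lo hi z = ∑ b ∈ C', ∑ a ∈ C, ((Finset.Ioc lo hi).filter
      (fun n : ℕ => (∏ i, a i) ∣ n ∧ ((∏ i, b i : ℕ) : ℤ) ∣ (n : ℤ) - z)).card := by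
  unfold Scount
  simp_rw [Finset.card_filter]
  rw [Finset.sum_comm, Finset.sum_product, Finset.sum_comm]

theorem sol_le_card {δ X lam : ℝ} (hδ : 0 < δ) (hX : 0 < X) (hl : 1 < lam) (j P e : ℕ) (z : ℤ)
    (hP1 : lam ^ j ≤ (P : ℝ)) (hP2 : (P : ℝ) < lam ^ (j + 1)) :
    sol ⌊δ * X / lam ^ j⌋₊ ⌊X / lam ^ (j + 1)⌋₊ P e z ≤
      ((Finset.Ioc ⌊δ * X⌋₊ ⌊X⌋₊).filter
        (fun n : ℕ => P ∣ n ∧ (e : ℤ) ∣ (n : ℤ) - z)).card := by
  have hl0 : 0 < lam := by linarith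
  have hP0 : 0 < P := by
    have : (0:ℝ) < P := lt_of_lt_of_le (by positivity) hP1
    exact_mod_cast this
  have hP0' : (0:ℝ) < P := by exact_mod_cast hP0
  unfold sol
  apply Finset.card_le_card_of_injOn (fun m => m * P)
  · intro m hm
    rw [Finset.mem_coe, Finset.mem_filter, Finset.mem_Ioc] at hm
    obtain ⟨⟨h1, h2⟩, h3⟩ := hm
    rw [Finset.mem_coe, Finset.mem_filter, Finset.mem_Ioc]
    rw [Nat.floor_lt (by positivity)] at h1
    have h2' : (m : ℝ) ≤ X / lam ^ (j + 1) :=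
      (Nat.le_floor_iff (by positivity)).mp h2
    refine ⟨⟨?_, ?_⟩, dvd_mul_left P m, ?_⟩
    · rw [Nat.floor_lt (by positivity)]
      push_cast
      rw [div_lt_iff₀ (by positivity)] at h1
      calc δ * X < m * lam ^ j := h1
        _ ≤ m * P := by gcongr
    · apply Nat.le_floor
      push_cast
      rw [le_div_iff₀ (by positivity)] at h2'
      calc (m : ℝ) * P ≤ m * lam ^ (j + 1) := by gcongr
        _ ≤ X := h2'
    · have h4 : ((m * P : ℕ) : ZMod e) - (z : ZMod e) = 0 := by rw [h3, sub_self]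
      rw [← ZMod.intCast_zmod_eq_zero_iff_dvd] 
      push_cast at h4 ⊢
      exact h4
  · intro a _ b _ h
    exact Nat.eq_of_mul_eq_mul_right hP0 h

theorem Scount_ge (C C' : Finset (Fin s → ℕ)) {δ X lam : ℝ} (hδ : 0 < δ) (hX : 0 < X)
    (hl : 1 < lam) (z : ℤ) (Q : ℕ) (hC' : ∀ b ∈ C', ∏ i, b i ∈ Finset.Icc 1 Q) (J : Finset ℕ) :
    ∑ j ∈ J, ∑ e ∈ Finset.Icc 1 Q, (nu C' e : ℝ) *
      ∑ n ∈ Finset.range (⌊lam ^ (j + 1)⌋₊ + 1), (nu (cls C lam j) n : ℝ) *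
        (sol ⌊δ * X / lam ^ j⌋₊ ⌊X / lam ^ (j + 1)⌋₊ n e z : ℝ) ≤
      (Scount C C' ⌊δ * X⌋₊ ⌊X⌋₊ z : ℝ) := by
  classical
  have h1 : ∀ j ∈ J, ∑ e ∈ Finset.Icc 1 Q, (nu C' e : ℝ) *
      ∑ n ∈ Finset.range (⌊lam ^ (j + 1)⌋₊ + 1), (nu (cls C lam j) n : ℝ) *
        (sol ⌊δ * X / lam ^ j⌋₊ ⌊X / lam ^ (j + 1)⌋₊ n e z : ℝ) =
      ∑ b ∈ C', ∑ a ∈ C, if a ∈ cls C lam j then
        (sol ⌊δ * X / lam ^ j⌋₊ ⌊X / lam ^ (j + 1)⌋₊ (∏ i, a i) (∏ i, b i) z : ℝ) else 0 := by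
    intro j _
    rw [sum_nu C' (Finset.Icc 1 Q) hC' (fun e =>
      ∑ n ∈ Finset.range (⌊lam ^ (j + 1)⌋₊ + 1), (nu (cls C lam j) n : ℝ) *
        (sol ⌊δ * X / lam ^ j⌋₊ ⌊X / lam ^ (j + 1)⌋₊ n e z : ℝ))]
    apply Finset.sum_congr rfl
    intro b _
    rw [sum_nu (cls C lam j) (Finset.range (⌊lam ^ (j + 1)⌋₊ + 1)) _ (fun n =>
      (sol ⌊δ * X / lam ^ j⌋₊ ⌊X / lam ^ (j + 1)⌋₊ n (∏ i, b i) z : ℝ))]
    · rw [← Finset.sum_filter]
      apply Finset.sum_congr _ (fun _ _ => rfl)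
      ext a
      rw [Finset.mem_filter]
      constructor
      · intro ha
        exact ⟨(Finset.mem_filter.mp ha).1, ha⟩
      · intro ha
        exact ha.2
    · intro a ha
      have := (Finset.mem_filter.mp ha).2.2
      rw [Finset.mem_range, Nat.lt_succ_iff]
      exact Nat.le_floor this.le
  rw [Finset.sum_congr rfl h1, Scount_eq]
  push_cast
  rw [Finset.sum_comm]
  apply Finset.sum_le_sum
  intro b _
  rw [Finset.sum_comm]
  apply Finset.sum_le_sum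
  intro a _
  by_cases hex : ∃ j ∈ J, a ∈ cls C lam j
  · obtain ⟨j, hj, haj⟩ := hex
    rw [Finset.sum_eq_single j]
    · rw [if_pos haj]
      have h2 := (Finset.mem_filter.mp haj).2
      exact_mod_cast sol_le_card hδ hX hl j (∏ i, a i) (∏ i, b i) z h2.1 h2.2
    · intro j' _ hne
      rw [if_neg]
      intro ha'
      exact hne (cls_unique hl ha' haj)
    · intro hnot
      exact absurd hj hnot
  · push Not at hex
    rw [Finset.sum_eq_zero]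
    · positivity
    · intro j hj
      rw [if_neg (hex j hj)]

end Pool.Agent.Work.MP_122e00_nt
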