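import Mathlib
import Pool.Agent.Work.MP_122e00_nt.Bd.B01
import Pool.Agent.Work.MP_122e00_nt.Bdx.B07

/-!
Assembly: cubes of exponents, and the inequality for the shifted convolution.
-/

namespace Pool.Agent.Work.MP_122e00_nt

open Finset ArithmeticFunction
open scoped ArithmeticFunction.zeta

variable {s : ℕ}

/-- lower exponents of a cube -/
noncomputable def lo (N : ℕ) (m : Fin s → ℕ) : Fin s → ℝ := fun i => ((m i : ℝ) - 1) / N
/-- upper exponents of a cube -/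
noncomputable def up (N : ℕ) (m : Fin s → ℕ) : Fin s → ℝ := fun i => (m i : ℝ) / N
/-- the tuples of a cube -/
noncomputable def bx (N : ℕ) (m : Fin s → ℕ) (X : ℝ) : Finset (Fin s → ℕ) :=
  box (lo N m) (up N m) X

/-- cubes with exponent sum below `1` (the lowest cube excluded) -/
def M1 (s N : ℕ) : Finset (Fin s → ℕ) :=
  (Fintype.piFinset fun _ => Finset.Icc 1 N).filter
    (fun m => s < ∑ i, m i ∧ ∑ i, m i < N)
/-- cubes with exponent sum below `1/2` -/
def MH (s N : ℕ) : Finset (Fin s → ℕ) :=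
  (Fintype.piFinset fun _ => Finset.Icc 1 N).filter (fun m => 2 * ∑ i, m i < N)
/-- cubes with all exponents below `1/2` and exponent sum between `1/2` and `1` -/
def M2 (s N : ℕ) : Finset (Fin s → ℕ) :=
  (Fintype.piFinset fun _ => Finset.Icc 1 N).filter
    (fun m => ∑ i, m i < N ∧ (∀ i, 2 * m i < N) ∧ N + 2 * s < 2 * ∑ i, m i)

theorem bx_unique {N : ℕ} {m m' : Fin s → ℕ} {X : ℝ} (hX : 1 ≤ X) (hN : 0 < N)
    {a : Fin s → ℕ} (h : a ∈ bx N m X) (h' : a ∈ bx N m' X) : m = m' := by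
  have hN' : (0 : ℝ) < N := by exact_mod_cast hN
  have key : ∀ (x y v : ℕ), ⌊X ^ (((x : ℝ) - 1) / N)⌋₊ < v → v ≤ ⌊X ^ ((x : ℝ) / N)⌋₊ →
      ⌊X ^ (((y : ℝ) - 1) / N)⌋₊ < v → v ≤ ⌊X ^ ((y : ℝ) / N)⌋₊ → x = y := by
    intro x y v h1 h2 h3 h4
    rcases lt_trichotomy x y with hlt | heq | hgt
    · exfalso
      have h5 : (x : ℝ) ≤ (y : ℝ) - 1 := by
        have : x + 1 ≤ y := hlt
        have : (x : ℝ) + 1 ≤ y := by exact_mod_cast this
        linarith
      have h6 : ⌊X ^ ((x : ℝ) / N)⌋₊ ≤ ⌊X ^ (((y : ℝ) - 1) / N)⌋₊ :=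
        floor_mono hX (by gcongr)
      omega
    · exact heq
    · exfalso
      have h5 : (y : ℝ) ≤ (x : ℝ) - 1 := by
        have : y + 1 ≤ x := hgt
        have : (y : ℝ) + 1 ≤ x := by exact_mod_cast this
        linarith
      have h6 : ⌊X ^ ((y : ℝ) / N)⌋₊ ≤ ⌊X ^ (((x : ℝ) - 1) / N)⌋₊ :=
        floor_mono hX (by gcongr)
      omega
  unfold bx at h h'
  rw [mem_box] at h h'
  funext i
  exact key _ _ _ (h i).1 (h i).2 (h' i).1 (h' i).2

/-- number of tuples of `C` with product dividing `n` -/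
def cA (C : Finset (Fin s → ℕ)) (n : ℕ) : ℕ := (C.filter (fun a => (∏ i, a i) ∣ n)).card

/-- the same over a family of cubes -/
noncomputable def cM (N : ℕ) (M : Finset (Fin s → ℕ)) (X : ℝ) (n : ℕ) : ℕ :=
  ∑ m ∈ M, cA (bx N m X) n

theorem cM_le {N : ℕ} {M S : Finset (Fin s → ℕ)} {X : ℝ} {n : ℕ} (hX : 1 ≤ X) (hN : 0 < N)
    (h : ∀ m ∈ M, ∀ a ∈ bx N m X, (∏ i, a i) ∣ n → a ∈ S) : cM N M X n ≤ S.card := by
  classical
  unfold cM cA
  rw [← Finset.card_sigma]
  apply Finset.card_le_card_of_injOn (fun q => q.2)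
  · rintro ⟨m, a⟩ hq
    rw [Finset.mem_coe, Finset.mem_sigma, Finset.mem_filter] at hq
    exact h m hq.1 a hq.2.1 hq.2.2
  · rintro ⟨m, a⟩ hq ⟨m', a'⟩ hq' heq
    rw [Finset.mem_coe, Finset.mem_sigma, Finset.mem_filter] at hq hq'
    simp only at heq hq hq'
    subst heq
    have := bx_unique hX hN hq.2.1 hq'.2.1
    subst this
    rfl

theorem Scount_neg (C C' : Finset (Fin s → ℕ)) (l u h : ℕ) :
    Scount C C' l u (-(h : ℤ)) = ∑ n ∈ Finset.Ioc l u, cA C n * cA C' (n + h) := by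
  unfold Scount cA
  apply Finset.sum_congr rfl
  intro n _
  rw [← Finset.card_product, ← Finset.filter_product]
  congr 1
  apply Finset.filter_congr
  intro p _
  rw [sub_neg_eq_add]
  have : ((n : ℤ) + (h : ℤ)) = ((n + h : ℕ) : ℤ) := by push_cast; ring
  rw [this, Int.natCast_dvd_natCast]

theorem Scount_pos (C C' : Finset (Fin s → ℕ)) (l u h : ℕ) (hl : h ≤ l) :
    Scount C C' l u (h : ℤ) = ∑ n ∈ Finset.Ioc l u, cA C n * cA C' (n - h) := by
  unfold Scount cA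
  apply Finset.sum_congr rfl
  intro n hn
  rw [Finset.mem_Ioc] at hn
  rw [← Finset.card_product, ← Finset.filter_product]
  congr 1
  apply Finset.filter_congr
  intro p _
  have : ((n : ℤ) - (h : ℤ)) = ((n - h : ℕ) : ℤ) := by
    rw [Nat.cast_sub (by omega)]
  rw [this, Int.natCast_dvd_natCast]

theorem sum_comm3 {ι κ : Type*} (M : Finset ι) (M' : Finset κ) (I : Finset ℕ)
    (f : ι → κ → ℕ → ℕ) :
    ∑ m ∈ M, ∑ m' ∈ M', ∑ n ∈ I, f m m' n = ∑ n ∈ I, ∑ m ∈ M, ∑ m' ∈ M', f m m' n := by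
  have h1 : ∀ m ∈ M, ∑ m' ∈ M', ∑ n ∈ I, f m m' n = ∑ n ∈ I, ∑ m' ∈ M', f m m' n :=
    fun m _ => Finset.sum_comm
  rw [Finset.sum_congr rfl h1, Finset.sum_comm]

theorem sum_Scount_neg (N : ℕ) (M M' : Finset (Fin s → ℕ)) (X : ℝ) (l u h : ℕ) :
    ∑ m ∈ M, ∑ m' ∈ M', Scount (bx N m X) (bx N m' X) l u (-(h : ℤ)) =
      ∑ n ∈ Finset.Ioc l u, cM N M X n * cM N M' X (n + h) := by
  simp_rw [Scount_neg]
  rw [sum_comm3]
  unfold cM
  simp_rw [Finset.sum_mul_sum]

theorem sum_Scount_pos (N : ℕ) (M M' : Finset (Fin s → ℕ)) (X : ℝ) (l u h : ℕ) (hl : h ≤ l) :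
    ∑ m ∈ M, ∑ m' ∈ M', Scount (bx N m X) (bx N m' X) l u (h : ℤ) =
      ∑ n ∈ Finset.Ioc l u, cM N M X n * cM N M' X (n - h) := by
  simp_rw [Scount_pos _ _ _ _ _ hl]
  rw [sum_comm3]
  unfold cM
  simp_rw [Finset.sum_mul_sum]

/-- the combinatorial inequality -/
theorem asm_ge (N : ℕ) (X : ℝ) (l u h : ℕ) (hl : 2 * h ≤ l) (hlu : l ≤ u)
    (H : ∀ n, l < 2 * n → n ≤ u + h → cM N (M1 s N) X n ≤ ((ζ : ArithmeticFunction ℕ) ^ (s + 1)) n ∧
      (s + 1) * cM N (MH s N) X n + cM N (M2 s N) X n ≤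
        ((ζ : ArithmeticFunction ℕ) ^ (s + 1)) n) :
    (s + 1) * (∑ m ∈ M1 s N, ∑ m' ∈ MH s N, Scount (bx N m X) (bx N m' X) l u (-(h : ℤ)) +
      ∑ m ∈ M2 s N, ∑ m' ∈ MH s N, Scount (bx N m X) (bx N m' X) l u (h : ℤ)) ≤
    ∑ n ∈ Finset.Icc 1 u, ((ζ : ArithmeticFunction ℕ) ^ (s + 1)) n *
        ((ζ : ArithmeticFunction ℕ) ^ (s + 1)) (n + h) := by
  classical
  rw [sum_Scount_neg, sum_Scount_pos _ _ _ _ _ _ _ (by omega)]
  set A := cM N (M1 s N) X with hA
  set T1 := cM N (MH s N) X with hT1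
  set T2 := cM N (M2 s N) X with hT2
  set d := ((ζ : ArithmeticFunction ℕ) ^ (s + 1)) with hd
  have hF : (s + 1) * ∑ n ∈ Finset.Ioc l u, A n * T1 (n + h) =
      ∑ n ∈ Finset.Icc 1 u, if l < n then (A n) * ((s + 1) * T1 (n + h)) else 0 := by
    rw [Finset.mul_sum, ← Finset.sum_filter]
    apply Finset.sum_congr
    · ext n
      rw [Finset.mem_Ioc, Finset.mem_filter, Finset.mem_Icc]
      omega
    · intro n _
      ring
  have hG : (s + 1) * ∑ n ∈ Finset.Ioc l u, T2 n * T1 (n - h) =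
      ∑ n ∈ Finset.Icc 1 u, if l < n + h ∧ n + h ≤ u then ((s + 1) * T1 n) * T2 (n + h) else 0 := by
    rw [Finset.mul_sum, ← Finset.sum_filter]
    symm
    apply Finset.sum_bij (fun n _ => n + h)
    · intro n hn
      rw [Finset.mem_filter, Finset.mem_Icc] at hn
      rw [Finset.mem_Ioc]
      omega
    · intro a _ b _ hab
      omega
    · intro n hn
      rw [Finset.mem_Ioc] at hn
      refine ⟨n - h, ?_, by omega⟩
      rw [Finset.mem_filter, Finset.mem_Icc]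
      omega
    · intro n _
      rw [Nat.add_sub_cancel]
      ring
  rw [mul_add, hF, hG, ← Finset.sum_add_distrib]
  apply Finset.sum_le_sum
  intro n hn
  rw [Finset.mem_Icc] at hn
  by_cases c1 : l < n
  · have H1 := H n (by omega) (by omega)
    have H2 := H (n + h) (by omega) (by omega)
    rw [if_pos c1]
    split_ifs with c2
    · calc A n * ((s + 1) * T1 (n + h)) + (s + 1) * T1 n * T2 (n + h)
          ≤ d n * ((s + 1) * T1 (n + h)) + d n * T2 (n + h) := by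
            apply Nat.add_le_add
            · exact Nat.mul_le_mul_right _ H1.1
            · exact Nat.mul_le_mul_right _ (by have := H1.2; omega)
        _ = d n * ((s + 1) * T1 (n + h) + T2 (n + h)) := by ring
        _ ≤ d n * d (n + h) := Nat.mul_le_mul_left _ H2.2
    · rw [add_zero]
      exact Nat.mul_le_mul H1.1 (by have := H2.2; omega)
  · rw [if_neg c1, zero_add]
    split_ifs with c2
    · have H1 := H n (by omega) (by omega)
      have H2 := H (n + h) (by omega) (by omega)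
      exact Nat.mul_le_mul (by have := H1.2; omega) (by have := H2.2; omega)
    · exact Nat.zero_le _

end Pool.Agent.Work.MP_122e00_nt
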