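import Mathlib
import Pool.Agent.Work.MP_122e00_nt.Bd.B43

/-!
The singular series is positive.
-/

namespace Pool.Agent.Work.MP_122e00_nt

open Finset Filter Topology

variable {s : ℕ}

theorem locProb_zero (s p : ℕ) : locProb s p 0 = 1 := by
  unfold locProb
  simp

theorem locProb_one (p : ℕ) : locProb s p 1 = 1 - (1 - 1 / (p : ℝ)) ^ s := by
  unfold locProb
  simp

theorem locProb_succ_lt (hs : 1 ≤ s) (p : ℕ) (hp : p.Prime) (j : ℕ) :
    locProb s p (j + 1) < locProb s p j := by
  unfold locProb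
  rw [Finset.sum_range_succ, mul_add]
  have hp2 : (2:ℝ) ≤ p := by exact_mod_cast hp.two_le
  have hx : 0 < 1 - 1 / (p : ℝ) := by
    rw [sub_pos, div_lt_one (by linarith)]
    linarith
  have hc : (0:ℝ) < ((j + s - 1).choose (s - 1) : ℝ) := by
    exact_mod_cast Nat.choose_pos (by omega)
  have : 0 < (1 - 1 / (p : ℝ)) ^ s * (((j + s - 1).choose (s - 1) : ℝ) / (p : ℝ) ^ j) := by
    positivity
  linarith

theorem locProb_nonneg (hs : 1 ≤ s) (p : ℕ) (hp : p.Prime) (j : ℕ) : 0 ≤ locProb s p j := by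
  rw [← rho_prime_pow hs p hp]
  exact rho_nonneg s _

theorem locFactor_pos (hs : 1 ≤ s) (p : ℕ) (hp : p.Prime) (ν : ℕ) : 0 < locFactor s p ν := by
  unfold locFactor
  apply Finset.sum_pos
  · intro j _
    have h1 := locProb_succ_lt hs p hp j
    have h2 := locProb_nonneg hs p hp (j + 1)
    have h3 : 0 < locProb s p j ^ 2 - locProb s p (j + 1) ^ 2 := by nlinarith
    have h4 : (0:ℝ) < p := by exact_mod_cast hp.pos
    positivity
  · exact ⟨0, by simp⟩

theorem locFactor_zero (p : ℕ) :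
    locFactor s p 0 = 1 - (1 - (1 - 1 / (p : ℝ)) ^ s) ^ 2 := by
  unfold locFactor
  rw [zero_add, Finset.sum_range_one, locProb_zero, zero_add, locProb_one]
  ring

theorem Csing_pos (hs : 1 ≤ s) (h : ℕ) (hh : h ≠ 0) : 0 < Csing s h := by
  rw [Csing_eq hs h hh]
  have hsum : Summable (fun p : Nat.Primes => locFactor s p (h.factorization p) - 1) := by
    have hs1 : Summable (fun p : Nat.Primes => (s : ℝ) ^ 2 * (1 / ((p : ℕ) : ℝ) ^ 2)) := by
      apply Summable.mul_left
      have h1 : Summable (fun n : ℕ => 1 / (n : ℝ) ^ 2) :=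
        Real.summable_one_div_nat_pow.mpr (by norm_num)
      exact h1.comp_injective (i := fun p : Nat.Primes => (p : ℕ)) Nat.Primes.coe_nat_injective
    apply hs1.of_norm_bounded_eventually
    have hfin : Set.Finite {p : Nat.Primes | (p : ℕ) ∣ h} := by
      apply Set.Finite.of_finite_image (f := fun p : Nat.Primes => (p : ℕ))
      · apply (Finset.finite_toSet h.divisors).subset
        rintro x ⟨p, hp, rfl⟩
        rw [Finset.mem_coe, Nat.mem_divisors]
        exact ⟨hp, hh⟩
      · exact Nat.Primes.coe_nat_injective.injOn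
    have hev : ∀ᶠ p : Nat.Primes in cofinite, ¬ (p : ℕ) ∣ h := by
      rw [Filter.eventually_cofinite]
      simpa using hfin
    filter_upwards [hev] with p hp
    rw [Nat.factorization_eq_zero_of_not_dvd hp, locFactor_zero]
    have hp2 : (2:ℝ) ≤ ((p : ℕ) : ℝ) := by exact_mod_cast p.2.two_le
    have hb : 1 - (s : ℝ) * (1 / ((p : ℕ) : ℝ)) ≤ (1 - 1 / ((p : ℕ) : ℝ)) ^ s := by
      have h1 := one_add_mul_le_pow (a := -(1 / ((p : ℕ) : ℝ))) (by
        have : 1 / ((p : ℕ) : ℝ) ≤ 1 := by
          rw [div_le_one (by linarith)]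
          linarith
        linarith) s
      have h2 : 1 + -(1 / ((p : ℕ) : ℝ)) = 1 - 1 / ((p : ℕ) : ℝ) := by ring
      rw [h2] at h1
      linarith
    have hle : (1 - 1 / ((p : ℕ) : ℝ)) ^ s ≤ 1 := by
      apply pow_le_one₀
      · rw [sub_nonneg, div_le_one (by linarith)]
        linarith
      · have : 0 ≤ 1 / ((p : ℕ) : ℝ) := by positivity
        linarith
    have e1 : 1 - (1 - (1 - 1 / ((p : ℕ) : ℝ)) ^ s) ^ 2 - 1 =
        -((1 - (1 - 1 / ((p : ℕ) : ℝ)) ^ s) ^ 2) := by ring
    rw [e1, norm_neg, Real.norm_eq_abs, abs_of_nonneg (sq_nonneg _)]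
    calc (1 - (1 - 1 / ((p : ℕ) : ℝ)) ^ s) ^ 2 ≤ ((s : ℝ) * (1 / ((p : ℕ) : ℝ))) ^ 2 := by
          apply pow_le_pow_left₀
          · linarith
          · linarith
      _ = _ := by
          rw [mul_pow, div_pow, one_pow]
  have hlog := Real.summable_log_one_add_of_summable hsum
  have hlog' : Summable (fun p : Nat.Primes => Real.log (locFactor s p (h.factorization p))) := by
    refine hlog.congr (fun p => ?_)
    congr 1
    ring
  rw [← Real.rexp_tsum_eq_tprod
    (f := fun p : Nat.Primes => locFactor s p (h.factorization p))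
    (fun p : Nat.Primes => locFactor_pos hs p p.2 _) hlog']
  exact Real.exp_pos _

end Pool.Agent.Work.MP_122e00_nt
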