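import Mathlib
import Pool.Agent.Work.MP_122e00_nt.Asm2
import Pool.Agent.Work.MP_122e00_nt.Bd.B37

/-!
Assembly: the analytic conditions hold for large `X`.
-/

namespace Pool.Agent.Work.MP_122e00_nt

open Finset ArithmeticFunction Filter Topology
open scoped ArithmeticFunction.zeta

variable {s : ℕ}

theorem sum_up (N : ℕ) (m : Fin s → ℕ) : ∑ i, up N m i = ((∑ i, m i : ℕ) : ℝ) / N := by
  unfold up
  rw [← Finset.sum_div]
  push_cast
  rfl

theorem sum_lo (N : ℕ) (m : Fin s → ℕ) : ∑ i, lo N m i = (((∑ i, m i : ℕ) : ℝ) - s) / N := by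
  unfold lo
  rw [← Finset.sum_div, Finset.sum_sub_distrib]
  simp

theorem entry_le {N : ℕ} (hN : 0 < N) {m : Fin s → ℕ} {X : ℝ} (hX : 1 ≤ X) {a : Fin s → ℕ}
    (ha : a ∈ bx N m X) {j : Fin s} (hm : 2 * m j < N) : a j ≤ ⌊X ^ (1 / 2 : ℝ)⌋₊ := by
  apply Nat.le_floor
  have hN' : (0:ℝ) < N := by exact_mod_cast hN
  refine (le_rpow_of_mem_box (by linarith) ha j).trans ?_
  apply Real.rpow_le_rpow_of_exponent_le hX
  unfold up
  rw [div_le_div_iff₀ hN' (by norm_num)]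
  have : (2 * m j : ℕ) < (N : ℝ) := by exact_mod_cast hm
  push_cast at this
  linarith

theorem eventually_H (N h : ℕ) (hN : 0 < N) {δ : ℝ} (hδ : 0 < δ) :
    ∀ᶠ X : ℝ in atTop, ∀ n, ⌊δ * X⌋₊ < 2 * n → n ≤ ⌊X⌋₊ + h →
      cM N (M1 s N) X n ≤ ((ζ : ArithmeticFunction ℕ) ^ (s + 1)) n ∧
      (s + 1) * cM N (MH s N) X n + cM N (M2 s N) X n ≤
        ((ζ : ArithmeticFunction ℕ) ^ (s + 1)) n := by
  have hN' : (0:ℝ) < N := by exact_mod_cast hN
  set θ : ℝ := 1 / (2 * N) with hθ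
  have hθ0 : 0 < θ := by positivity
  have c1 : ∀ᶠ X : ℝ in atTop, X ^ (1 - θ) ≤ (δ / 2) * X :=
    eventually_cond (by linarith) (by positivity)
  have c2 : ∀ᶠ X : ℝ in atTop, (2:ℝ) ≤ X ^ θ := (tendsto_rpow_atTop hθ0).eventually_ge_atTop _
  filter_upwards [c1, c2, eventually_ge_atTop 1, eventually_ge_atTop (h : ℝ)]
    with X h1 h2 hX hXh n hn1 hn2
  have hX0 : 0 < X := by linarith
  have hn0 : n ≠ 0 := by omega
  have hn1' : δ * X < 2 * n := by
    have := (Nat.floor_lt (by positivity : 0 ≤ δ * X)).mp hn1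
    push_cast at this
    exact this
  have hn2' : (n : ℝ) ≤ 2 * X := by
    have e1 : (⌊X⌋₊ : ℝ) ≤ X := Nat.floor_le hX0.le
    have e2 : (n : ℝ) ≤ (⌊X⌋₊ : ℝ) + h := by exact_mod_cast hn2
    linarith
  set Z := ⌊X ^ (1 / 2 : ℝ)⌋₊ with hZ
  refine ⟨(cM_le hX hN (S := TA s n) (fun m _ a _ hd => mem_TA hn0 hd)).trans (card_TA_le n hn0),
    le_trans ?_ (card_TT_le Z n hn0)⟩
  apply Nat.add_le_add
  · apply Nat.mul_le_mul_left
    apply cM_le hX hN
    intro m hm a ha hd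
    have hm' : 2 * ∑ i, m i < N := (Finset.mem_filter.mp hm).2
    unfold TT1
    rw [Finset.mem_filter]
    refine ⟨mem_TA hn0 hd, fun j => ?_, ?_⟩
    · apply entry_le hN hX ha
      have := Finset.single_le_sum (f := m) (fun i _ => Nat.zero_le _) (Finset.mem_univ j)
      omega
    · have hpos : 0 < ∏ i, a i := Finset.prod_pos (fun i _ => pos_of_mem_box ha i)
      rw [Nat.lt_div_iff_mul_lt_of_dvd hpos.ne' hd]
      have e1 : ((∏ i, a i : ℕ) : ℝ) ≤ X ^ (1 / 2 - θ) := by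
        refine (prod_le_rpow_of_mem_box hX0 ha).trans ?_
        apply Real.rpow_le_rpow_of_exponent_le hX
        rw [sum_up, hθ, div_le_iff₀ hN']
        have e2 : (2 * (∑ i, m i : ℕ) : ℝ) + 1 ≤ N := by
          have : 2 * ∑ i, m i + 1 ≤ N := hm'
          exact_mod_cast this
        have e3 : (1 / 2 - 1 / (2 * (N : ℝ))) * N = (N - 1) / 2 := by
          field_simp
        rw [e3]
        linarith
      have e4 : (Z : ℝ) ≤ X ^ (1 / 2 : ℝ) := Nat.floor_le (by positivity)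
      have e5 : ((Z * ∏ i, a i : ℕ) : ℝ) ≤ X ^ (1 - θ) := by
        rw [Nat.cast_mul]
        calc (Z : ℝ) * ((∏ i, a i : ℕ) : ℝ) ≤ X ^ (1 / 2 : ℝ) * X ^ (1 / 2 - θ) := by
              gcongr
          _ = X ^ (1 - θ) := by
              rw [← Real.rpow_add hX0]
              congr 1
              ring
      have e6 : ((Z * ∏ i, a i : ℕ) : ℝ) < n := by linarith
      exact_mod_cast e6
  · apply cM_le hX hN
    intro m hm a ha hd
    have hm' := (Finset.mem_filter.mp hm).2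
    unfold TT2
    rw [Finset.mem_filter]
    refine ⟨mem_TA hn0 hd, fun j => entry_le hN hX ha (hm'.2.1 j), ?_⟩
    apply Nat.le_floor
    have e1 : X ^ (1 / 2 + θ) ≤ ((∏ i, a i : ℕ) : ℝ) := by
      refine le_trans ?_ (rpow_le_prod_of_mem_box hX0 ha)
      apply Real.rpow_le_rpow_of_exponent_le hX
      rw [sum_lo, hθ, le_div_iff₀ hN']
      have e2 : (N : ℝ) + 2 * s + 1 ≤ (2 * (∑ i, m i : ℕ) : ℝ) := by
        have : N + 2 * s + 1 ≤ 2 * ∑ i, m i := hm'.2.2
        exact_mod_cast this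
      have e3 : (1 / 2 + 1 / (2 * (N : ℝ))) * N = (N + 1) / 2 := by
        field_simp
      rw [e3]
      linarith
    have e0 : (0:ℝ) < ((∏ i, a i : ℕ) : ℝ) := lt_of_lt_of_le (by positivity) e1
    calc ((n / ∏ i, a i : ℕ) : ℝ) ≤ (n : ℝ) / ((∏ i, a i : ℕ) : ℝ) := Nat.cast_div_le
      _ ≤ (2 * X) / X ^ (1 / 2 + θ) := by gcongr
      _ ≤ (X ^ θ * X) / X ^ (1 / 2 + θ) := by gcongr
      _ = X ^ (1 / 2 : ℝ) := by
          rw [← Real.rpow_add_one hX0.ne', ← Real.rpow_sub hX0]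
          congr 1
          ring

/-- the limit for one pair of cubes -/
theorem pair_lower (N : ℕ) (hN : 0 < N) (m m' : Fin s → ℕ) (hmpos : ∀ i, 1 ≤ m i)
    (hmpos' : ∀ i, 1 ≤ m' i)
    (hm1 : s < ∑ i, m i) (hm2 : ∑ i, m i < N) (hm' : 2 * ∑ i, m' i < N)
    {δ lam : ℝ} (hδ : 0 < δ) (hl : 1 < lam) (hl2 : lam ≤ 2) (hδl : δ * lam ≤ 1)
    (h : ℕ) (hh : h ≠ 0) (z : ℤ) (hz : z.natAbs = h) {c : ℝ}
    (hc : c < (1 / lam - δ) * Csing s h / (N : ℝ) ^ (2 * s)) :
    ∀ᶠ X : ℝ in atTop, c * (X * (Real.log X) ^ (2 * s)) ≤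
      (Scount (bx N m X) (bx N m' X) ⌊δ * X⌋₊ ⌊X⌋₊ z : ℝ) := by
  have hN' : (0:ℝ) < N := by exact_mod_cast hN
  set θ : ℝ := 1 / (2 * N) with hθ
  have hθ0 : 0 < θ := by positivity
  have hN1 : (1:ℝ) ≤ N := by exact_mod_cast hN
  have hθ2 : θ ≤ 1 / 2 := by
    rw [hθ]
    apply one_div_le_one_div_of_le (by norm_num)
    linarith
  have h1 : θ ≤ ∑ i, lo N m i := by
    rw [sum_lo, hθ, le_div_iff₀ hN']
    have e1 : (s : ℝ) + 1 ≤ ((∑ i, m i : ℕ) : ℝ) := by exact_mod_cast hm1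
    have e2 : 1 / (2 * (N : ℝ)) * N = 1 / 2 := by field_simp
    rw [e2]
    linarith
  have h2 : ∑ i, up N m i ≤ 1 - θ := by
    rw [sum_up, hθ, div_le_iff₀ hN']
    have e1 : ((∑ i, m i : ℕ) : ℝ) + 1 ≤ N := by exact_mod_cast hm2
    have e2 : (1 - 1 / (2 * (N : ℝ))) * N = N - 1 / 2 := by field_simp
    rw [e2]
    linarith
  have h3 : ∑ i, up N m' i ≤ 1 / 2 - θ := by
    rw [sum_up, hθ, div_le_iff₀ hN']
    have e1 : (2 * (∑ i, m' i : ℕ) : ℝ) + 1 ≤ N := by
      have : 2 * ∑ i, m' i + 1 ≤ N := hm'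
      exact_mod_cast this
    have e2 : (1 / 2 - 1 / (2 * (N : ℝ))) * N = (N - 1) / 2 := by field_simp
    rw [e2]
    linarith
  have hbl := box_lower (lo N m) (up N m) (lo N m') (up N m') hθ0 hθ2 h1 h2 h3 hδ hl hl2 hδl
    h hh z hz
  -- limit of the main term
  have hlo : ∀ (m : Fin s → ℕ), (∀ i, 1 ≤ m i) → ∀ i, 0 ≤ lo N m i := by
    intro m hm i
    unfold lo
    have : (1 : ℝ) ≤ m i := by exact_mod_cast hm i
    apply div_nonneg _ hN'.le
    linarith
  have hle : ∀ (m : Fin s → ℕ) i, lo N m i ≤ up N m i := by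
    intro m i
    unfold lo up
    gcongr
    linarith
  have hup : ∀ (m : Fin s → ℕ), ∑ i, m i ≤ N → ∀ i, up N m i ≤ 1 := by
    intro m hm i
    unfold up
    rw [div_le_one hN']
    have := Finset.single_le_sum (f := m) (fun i _ => Nat.zero_le _) (Finset.mem_univ i)
    exact_mod_cast this.trans hm
  have hW := tendsto_Wsum h hh (lo N m) (up N m) (lo N m') (up N m')
    (hlo m hmpos) (hle m) (hup m (by omega)) (hlo m' hmpos') (hle m') (hup m' (by omega))
  have hprod : ∀ (m : Fin s → ℕ), ∏ i, (up N m i - lo N m i) = (1 / (N : ℝ)) ^ s := by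
    intro m
    have : ∀ i, up N m i - lo N m i = 1 / (N : ℝ) := by
      intro i
      unfold up lo
      ring
    simp_rw [this]
    rw [Finset.prod_const, Finset.card_univ, Fintype.card_fin]
  rw [hprod, hprod] at hW
  have hE : Tendsto (fun X : ℝ => (69 * (h.divisors.card : ℝ) ^ 2 + 4 * h) *
      (1 / (X ^ (θ / 40) * (Real.log X) ^ (2 * s)))) atTop (𝓝 0) := by
    have e1 : Tendsto (fun X : ℝ => (69 * (h.divisors.card : ℝ) ^ 2 + 4 * h) *
        (X ^ (-(θ / 40)))) atTop (𝓝 0) := by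
      have := (tendsto_rpow_neg_atTop (y := θ / 40) (by positivity)).const_mul
        (69 * (h.divisors.card : ℝ) ^ 2 + 4 * h)
      rwa [mul_zero] at this
    refine squeeze_zero' ?_ ?_ e1
    · filter_upwards [eventually_gt_atTop 0] with X hX
      rw [pow_mul]
      positivity
    · filter_upwards [eventually_ge_atTop (Real.exp 1)] with X hX
      have hX1 : (1 : ℝ) ≤ X := by
        have := Real.add_one_le_exp (1 : ℝ)
        linarith
      have hX0 : 0 < X := by linarith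
      have hlog : 1 ≤ Real.log X := by
        rw [Real.le_log_iff_exp_le (by linarith)]
        exact hX
      rw [Real.rpow_neg hX0.le, ← one_div]
      gcongr
      have e3 : 1 ≤ (Real.log X) ^ (2 * s) := one_le_pow₀ hlog
      have e4 : 0 < X ^ (θ / 40) := by positivity
      nlinarith
  have hlim := (hW.const_mul (1 / lam - δ)).sub hE
  have hval : (1 / lam - δ) * (Csing s h * ((1 / (N : ℝ)) ^ s * (1 / (N : ℝ)) ^ s)) - 0 =
      (1 / lam - δ) * Csing s h / (N : ℝ) ^ (2 * s) := by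
    rw [sub_zero, ← pow_add, ← two_mul, one_div_pow]
    ring
  rw [hval] at hlim
  filter_upwards [hbl, hlim.eventually (lt_mem_nhds hc), eventually_ge_atTop (Real.exp 1)]
    with X g1 g2 hX
  have hX1 : (1 : ℝ) ≤ X := by
    have := Real.add_one_le_exp (1 : ℝ)
    linarith
  have hX0 : 0 < X := by linarith
  have hlog : 1 ≤ Real.log X := by
    rw [Real.le_log_iff_exp_le (by linarith)]
    exact hX
  have hL : 0 < X * (Real.log X) ^ (2 * s) := by positivity
  refine le_trans ?_ g1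
  have g3 := mul_le_mul_of_nonneg_right g2.le hL.le
  refine g3.trans (le_of_eq ?_)
  have hl0 : (Real.log X) ^ (2 * s) ≠ 0 := by positivity
  have hy0 : X ^ (θ / 40) ≠ 0 := by positivity
  have hlam : lam ≠ 0 := by linarith
  field_simp

end Pool.Agent.Work.MP_122e00_nt
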