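import Mathlib
import Pool.Agent.Work.MP_122e00_nt.Asm3
import Pool.Agent.Work.MP_122e00_nt.Bd.B43

/-!
The lower bound for the shifted convolution of `ζ^(s+1)`.
-/

namespace Pool.Agent.Work.MP_122e00_nt

open Finset ArithmeticFunction Filter Topology
open scoped ArithmeticFunction.zeta

variable {s : ℕ}

/-- number of pairs of cubes, normalised, with weights -/
noncomputable def Vk (s k : ℕ) : ℝ :=
  ((s : ℝ) + 1) * ((((M1 s (2 * k)).card : ℝ) + ((M2 s (2 * k)).card : ℝ)) /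
    ((2 * k : ℕ) : ℝ) ^ s) * (((MH s (2 * k)).card : ℝ) / ((2 * k : ℕ) : ℝ) ^ s)

/-- lower bound for `Vk` by binomial coefficients -/
noncomputable def Lk (s k : ℕ) : ℝ :=
  ((s : ℝ) + 1) * (((((2 * k - 1).choose s : ℕ) : ℝ) / ((2 * k : ℕ) : ℝ) ^ s -
      1 / ((2 * k : ℕ) : ℝ) ^ s) +
      ((((2 * k - 1).choose s : ℕ) : ℝ) / ((2 * k : ℕ) : ℝ) ^ s -
      s * (((k.choose s : ℕ) : ℝ) / ((2 * k : ℕ) : ℝ) ^ s) -
      (((k + s).choose s : ℕ) : ℝ) / ((2 * k : ℕ) : ℝ) ^ s)) *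
    ((((k - 1).choose s : ℕ) : ℝ) / ((2 * k : ℕ) : ℝ) ^ s)

theorem tendsto_ratio (a : ℕ) (u : ℕ → ℕ) {ρ : ℝ}
    (h : ∀ᶠ k : ℕ in atTop, |(u k : ℝ) - ρ * (2 * k)| ≤ a) :
    Tendsto (fun k : ℕ => (u k : ℝ) / (2 * k : ℕ)) atTop (𝓝 ρ) := by
  have h1 : Tendsto (fun k : ℕ => (a : ℝ) * (1 / (k : ℝ))) atTop (𝓝 0) := by
    have := (tendsto_one_div_atTop_nhds_zero_nat (𝕜 := ℝ)).const_mul (a : ℝ)
    rwa [mul_zero] at this
  rw [tendsto_iff_norm_sub_tendsto_zero]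
  refine squeeze_zero' (Eventually.of_forall (fun _ => norm_nonneg _)) ?_ h1
  filter_upwards [h, eventually_gt_atTop 0] with k hk hk0
  have hk' : (0:ℝ) < k := by exact_mod_cast hk0
  rw [Real.norm_eq_abs]
  have e1 : (u k : ℝ) / ((2 * k : ℕ) : ℝ) - ρ = ((u k : ℝ) - ρ * (2 * k)) / (2 * k) := by
    push_cast
    field_simp
  rw [e1, abs_div, abs_of_pos (by positivity : (0:ℝ) < 2 * k)]
  calc |(u k : ℝ) - ρ * (2 * k)| / (2 * k) ≤ a / (2 * k) := by gcongr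
    _ ≤ a * (1 / k) := by
        rw [mul_one_div]
        apply div_le_div_of_nonneg_left (by positivity) hk'
        linarith

theorem tendsto_Lk (hs : 1 ≤ s) :
    Tendsto (fun k : ℕ => Lk s k) atTop
      (𝓝 ((1 - (1 - ((s : ℝ) + 1) / 2 ^ s) ^ 2) / (s.factorial : ℝ) ^ 2)) := by
  have t1 : Tendsto (fun k : ℕ => 2 * k - 1) atTop atTop := by
    apply tendsto_atTop_mono (f := fun k : ℕ => k - 1) (fun k => by omega)
    exact tendsto_sub_atTop_nat 1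
  have t2 : Tendsto (fun k : ℕ => k - 1) atTop atTop := tendsto_sub_atTop_nat 1
  have t3 : Tendsto (fun k : ℕ => k + s) atTop atTop := tendsto_add_atTop_nat s
  have a1 := tendsto_choose_div s (fun k => 2 * k - 1) t1 (ρ := 1)
    (tendsto_ratio 1 _ (by
      filter_upwards [eventually_gt_atTop 0] with k hk
      rw [Nat.cast_sub (by omega)]
      push_cast
      rw [abs_le]
      constructor <;> linarith))
  have a2 := tendsto_choose_div s (fun k => k - 1) t2 (ρ := 1 / 2)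
    (tendsto_ratio 1 _ (by
      filter_upwards [eventually_gt_atTop 0] with k hk
      rw [Nat.cast_sub (by omega)]
      push_cast
      rw [abs_le]
      constructor <;> linarith))
  have a3 := tendsto_choose_div s (fun k => k) tendsto_id (ρ := 1 / 2)
    (tendsto_ratio 0 _ (by
      filter_upwards with k
      rw [abs_le]
      push_cast
      constructor <;> linarith))
  have a4 := tendsto_choose_div s (fun k => k + s) t3 (ρ := 1 / 2)
    (tendsto_ratio s _ (by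
      filter_upwards with k
      push_cast
      rw [abs_le]
      have : (0:ℝ) ≤ s := Nat.cast_nonneg s
      constructor <;> linarith))
  have a5 : Tendsto (fun k : ℕ => 1 / ((2 * k : ℕ) : ℝ) ^ s) atTop (𝓝 0) := by
    have h1 : Tendsto (fun k : ℕ => (((2 * k : ℕ)) : ℝ)) atTop atTop := by
      apply tendsto_natCast_atTop_atTop.comp
      apply tendsto_atTop_mono (f := fun k : ℕ => k) (fun k => by omega) tendsto_id
    have h2 := (tendsto_pow_atTop (by omega : s ≠ 0)).comp h1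
    exact tendsto_const_nhds.div_atTop h2
  have h := (((a1.sub a5).add ((a1.sub (a3.const_mul (s : ℝ))).sub a4)).const_mul
    ((s : ℝ) + 1)).mul a2
  have hval : ((s : ℝ) + 1) * (1 ^ s / (s.factorial : ℝ) - 0 + (1 ^ s / (s.factorial : ℝ) -
      (s : ℝ) * ((1 / 2) ^ s / (s.factorial : ℝ)) - (1 / 2) ^ s / (s.factorial : ℝ))) *
      ((1 / 2) ^ s / (s.factorial : ℝ)) =
      (1 - (1 - ((s : ℝ) + 1) / 2 ^ s) ^ 2) / (s.factorial : ℝ) ^ 2 := by
    have hf : (s.factorial : ℝ) ≠ 0 := by exact_mod_cast s.factorial_ne_zero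
    rw [one_pow, one_div_pow]
    field_simp
    ring
  rw [hval] at h
  exact h

theorem Lk_le_Vk (k : ℕ) (hk : 0 < k) : Lk s k ≤ Vk s k := by
  have h1 : ((2 * k - 1).choose s : ℝ) - 1 ≤ ((M1 s (2 * k)).card : ℝ) := by
    have := card_M1_ge (s := s) k hk
    have : ((2 * k - 1).choose s : ℝ) ≤ ((M1 s (2 * k)).card : ℝ) + 1 := by exact_mod_cast this
    linarith
  have h2 : ((2 * k - 1).choose s : ℝ) - s * (k.choose s : ℝ) - ((k + s).choose s : ℝ) ≤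
      ((M2 s (2 * k)).card : ℝ) := by
    have := card_M2_ge (s := s) k hk
    have : ((2 * k - 1).choose s : ℝ) ≤ ((M2 s (2 * k)).card : ℝ) + s * (k.choose s : ℝ) +
      ((k + s).choose s : ℝ) := by exact_mod_cast this
    linarith
  have h3 : ((k - 1).choose s : ℝ) ≤ ((MH s (2 * k)).card : ℝ) := by
    exact_mod_cast card_MH_ge (s := s) k hk
  have hk' : (0:ℝ) < ((2 * k : ℕ) : ℝ) ^ s := by
    have : (0:ℝ) < ((2 * k : ℕ) : ℝ) := by
      exact_mod_cast (by omega : 0 < 2 * k)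
    positivity
  unfold Lk Vk
  have e1 : ((((2 * k - 1).choose s : ℕ) : ℝ) / ((2 * k : ℕ) : ℝ) ^ s -
      1 / ((2 * k : ℕ) : ℝ) ^ s) +
      ((((2 * k - 1).choose s : ℕ) : ℝ) / ((2 * k : ℕ) : ℝ) ^ s -
      s * (((k.choose s : ℕ) : ℝ) / ((2 * k : ℕ) : ℝ) ^ s) -
      (((k + s).choose s : ℕ) : ℝ) / ((2 * k : ℕ) : ℝ) ^ s) =
      ((((2 * k - 1).choose s : ℝ) - 1) + (((2 * k - 1).choose s : ℝ) - s * (k.choose s : ℝ) -
        ((k + s).choose s : ℝ))) / ((2 * k : ℕ) : ℝ) ^ s := by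
    ring
  rw [e1]
  gcongr

theorem mem_cubes {N : ℕ} {m : Fin s → ℕ}
    (h : m ∈ (Fintype.piFinset fun _ : Fin s => Finset.Icc 1 N)) (i : Fin s) : 1 ≤ m i :=
  (Finset.mem_Icc.mp ((Fintype.mem_piFinset.mp h) i)).1

theorem lower_bound2 (hs : 1 ≤ s) (h : ℕ) (hh : h ≠ 0) (c : ℝ)
    (hc : c < (1 - (1 - ((s : ℝ) + 1) / 2 ^ s) ^ 2) / (s.factorial : ℝ) ^ 2 * Csing s h) :
    ∀ᶠ X : ℝ in atTop, c * (X * (Real.log X) ^ (2 * s)) ≤
      ∑ n ∈ Finset.Icc 1 ⌊X⌋₊, ((((ζ : ArithmeticFunction ℕ) ^ (s + 1)) n *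
        ((ζ : ArithmeticFunction ℕ) ^ (s + 1)) (n + h) : ℕ) : ℝ) := by
  classical
  have hC := Csing_nonneg (s := s) h hh
  -- choose the grid
  have hη : Tendsto (fun k : ℕ => 1 / (1 + 1 / ((2 * k : ℕ) : ℝ)) - 1 / ((2 * k : ℕ) : ℝ)) atTop
      (𝓝 (1 / (1 + 0) - 0)) := by
    have h1 : Tendsto (fun k : ℕ => 1 / ((2 * k : ℕ) : ℝ)) atTop (𝓝 0) := by
      have h2 : Tendsto (fun k : ℕ => (((2 * k : ℕ)) : ℝ)) atTop atTop := by
        apply tendsto_natCast_atTop_atTop.comp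
        apply tendsto_atTop_mono (f := fun k : ℕ => k) (fun k => by omega) tendsto_id
      exact tendsto_const_nhds.div_atTop h2
    exact (tendsto_const_nhds.div (tendsto_const_nhds.add h1) (by norm_num)).sub h1
  have hlim := (hη.mul (tendsto_Lk hs)).mul_const (Csing s h)
  have hval : (1 / (1 + 0) - 0) * ((1 - (1 - ((s : ℝ) + 1) / 2 ^ s) ^ 2) /
      (s.factorial : ℝ) ^ 2) * Csing s h = (1 - (1 - ((s : ℝ) + 1) / 2 ^ s) ^ 2) /
      (s.factorial : ℝ) ^ 2 * Csing s h := by ring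
  rw [hval] at hlim
  obtain ⟨k, hk1, hk⟩ := ((hlim.eventually (lt_mem_nhds hc)).and (eventually_ge_atTop 1)).exists
  set N := 2 * k with hN
  have hN2 : 2 ≤ N := by omega
  have hN0 : 0 < N := by omega
  have hNr : (2:ℝ) ≤ N := by exact_mod_cast hN2
  have hNpos : (0:ℝ) < N := by linarith
  set δ : ℝ := 1 / N with hδdef
  set lam : ℝ := 1 + 1 / N with hlamdef
  have hδ : 0 < δ := by positivity
  have hl : 1 < lam := by
    rw [hlamdef]
    linarith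
  have hδ2 : δ ≤ 1 / 2 := by
    rw [hδdef]
    exact one_div_le_one_div_of_le (by norm_num) hNr
  have hl2 : lam ≤ 2 := by
    rw [hlamdef]
    linarith
  have hl32 : lam ≤ 3 / 2 := by
    rw [hlamdef]
    linarith
  have hl0 : 0 < lam := by linarith
  have hδl : δ * lam ≤ 1 := by nlinarith
  have hηnn : 0 ≤ 1 / lam - δ := by
    have : 1 / 2 ≤ 1 / lam := one_div_le_one_div_of_le hl0 (by linarith)
    linarith
  set V : ℝ := ((s : ℝ) + 1) * ((((M1 s N).card : ℝ) + ((M2 s N).card : ℝ)) *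
    ((MH s N).card : ℝ)) with hV
  have hVk : Vk s k = V / (N : ℝ) ^ (2 * s) := by
    unfold Vk
    rw [hV, two_mul s, pow_add, ← hN]
    field_simp
  have hcV : c < (1 / lam - δ) * Csing s h / (N : ℝ) ^ (2 * s) * V := by
    calc c < (1 / lam - δ) * Lk s k * Csing s h := hk1
      _ ≤ (1 / lam - δ) * Vk s k * Csing s h := by
          have := Lk_le_Vk (s := s) k (by omega)
          gcongr
      _ = _ := by
          rw [hVk]
          ring
  have hV0 : 0 ≤ V := by positivity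
  rcases eq_or_lt_of_le hV0 with hV0' | hVpos
  · rw [← hV0', mul_zero] at hcV
    filter_upwards [eventually_ge_atTop 1] with X hX
    have h1 : 0 ≤ X * (Real.log X) ^ (2 * s) := by
      rw [pow_mul]
      positivity
    have h2 : (0 : ℝ) ≤ ∑ n ∈ Finset.Icc 1 ⌊X⌋₊, ((((ζ : ArithmeticFunction ℕ) ^ (s + 1)) n *
        ((ζ : ArithmeticFunction ℕ) ^ (s + 1)) (n + h) : ℕ) : ℝ) :=
      Finset.sum_nonneg (fun _ _ => by positivity)
    nlinarith
  have hc' : c / V < (1 / lam - δ) * Csing s h / (N : ℝ) ^ (2 * s) := by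
    rw [div_lt_iff₀ hVpos]
    exact hcV
  -- the estimate for all pairs
  have hp1 : ∀ᶠ X : ℝ in atTop, ∀ m ∈ M1 s N, ∀ m' ∈ MH s N,
      c / V * (X * (Real.log X) ^ (2 * s)) ≤
      (Scount (bx N m X) (bx N m' X) ⌊δ * X⌋₊ ⌊X⌋₊ (-(h : ℤ)) : ℝ) := by
    rw [Filter.eventually_all_finset]
    intro m hm
    rw [Filter.eventually_all_finset]
    intro m' hm'
    unfold M1 at hm
    unfold MH at hm'
    rw [Finset.mem_filter] at hm hm'
    exact pair_lower N hN0 m m' (mem_cubes hm.1) (mem_cubes hm'.1) hm.2.1 hm.2.2 hm'.2 hδ hl hl2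
      hδl h hh (-(h : ℤ)) (by simp) hc'
  have hp2 : ∀ᶠ X : ℝ in atTop, ∀ m ∈ M2 s N, ∀ m' ∈ MH s N,
      c / V * (X * (Real.log X) ^ (2 * s)) ≤
      (Scount (bx N m X) (bx N m' X) ⌊δ * X⌋₊ ⌊X⌋₊ (h : ℤ) : ℝ) := by
    rw [Filter.eventually_all_finset]
    intro m hm
    rw [Filter.eventually_all_finset]
    intro m' hm'
    unfold M2 at hm
    unfold MH at hm'
    rw [Finset.mem_filter] at hm hm'
    have h1 := hm.2.2.2
    exact pair_lower N hN0 m m' (mem_cubes hm.1) (mem_cubes hm'.1) (by omega) hm.2.1 hm'.2 hδ hl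
      hl2 hδl h hh (h : ℤ) (by simp) hc'
  have hbig : ∀ᶠ X : ℝ in atTop, (2 * h : ℕ) ≤ ⌊δ * X⌋₊ := by
    have h1 : Tendsto (fun X : ℝ => ⌊δ * X⌋₊) atTop atTop :=
      tendsto_nat_floor_atTop.comp (tendsto_id.const_mul_atTop hδ)
    exact h1.eventually_ge_atTop _
  filter_upwards [hp1, hp2, eventually_H (s := s) N h hN0 hδ, hbig, eventually_ge_atTop 1]
    with X g1 g2 gH gb hX
  have hlu : ⌊δ * X⌋₊ ≤ ⌊X⌋₊ := Nat.floor_mono (by nlinarith)
  have hge := asm_ge (s := s) N X ⌊δ * X⌋₊ ⌊X⌋₊ h gb hlu gH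
  have hge' : ((s : ℝ) + 1) * (∑ m ∈ M1 s N, ∑ m' ∈ MH s N,
      (Scount (bx N m X) (bx N m' X) ⌊δ * X⌋₊ ⌊X⌋₊ (-(h : ℤ)) : ℝ) +
      ∑ m ∈ M2 s N, ∑ m' ∈ MH s N,
        (Scount (bx N m X) (bx N m' X) ⌊δ * X⌋₊ ⌊X⌋₊ (h : ℤ) : ℝ)) ≤
      ∑ n ∈ Finset.Icc 1 ⌊X⌋₊, ((((ζ : ArithmeticFunction ℕ) ^ (s + 1)) n *
        ((ζ : ArithmeticFunction ℕ) ^ (s + 1)) (n + h) : ℕ) : ℝ) := by
    exact_mod_cast hge
  refine le_trans ?_ hge'
  have s1 : ((M1 s N).card : ℝ) * ((MH s N).card : ℝ) * (c / V * (X * (Real.log X) ^ (2 * s))) ≤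
      ∑ m ∈ M1 s N, ∑ m' ∈ MH s N,
      (Scount (bx N m X) (bx N m' X) ⌊δ * X⌋₊ ⌊X⌋₊ (-(h : ℤ)) : ℝ) := by
    calc _ = ∑ m ∈ M1 s N, ∑ m' ∈ MH s N, (c / V * (X * (Real.log X) ^ (2 * s))) := by
          rw [Finset.sum_const, Finset.sum_const, nsmul_eq_mul, nsmul_eq_mul]
          ring
      _ ≤ _ := Finset.sum_le_sum (fun m hm => Finset.sum_le_sum (fun m' hm' => g1 m hm m' hm'))
  have s2 : ((M2 s N).card : ℝ) * ((MH s N).card : ℝ) * (c / V * (X * (Real.log X) ^ (2 * s))) ≤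
      ∑ m ∈ M2 s N, ∑ m' ∈ MH s N,
      (Scount (bx N m X) (bx N m' X) ⌊δ * X⌋₊ ⌊X⌋₊ (h : ℤ) : ℝ) := by
    calc _ = ∑ m ∈ M2 s N, ∑ m' ∈ MH s N, (c / V * (X * (Real.log X) ^ (2 * s))) := by
          rw [Finset.sum_const, Finset.sum_const, nsmul_eq_mul, nsmul_eq_mul]
          ring
      _ ≤ _ := Finset.sum_le_sum (fun m hm => Finset.sum_le_sum (fun m' hm' => g2 m hm m' hm'))
  have s3 : c * (X * (Real.log X) ^ (2 * s)) = ((s : ℝ) + 1) *
      (((M1 s N).card : ℝ) * ((MH s N).card : ℝ) * (c / V * (X * (Real.log X) ^ (2 * s))) +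
      ((M2 s N).card : ℝ) * ((MH s N).card : ℝ) * (c / V * (X * (Real.log X) ^ (2 * s)))) := by
    have h1 : ((s : ℝ) + 1) *
      (((M1 s N).card : ℝ) * ((MH s N).card : ℝ) * (c / V * (X * (Real.log X) ^ (2 * s))) +
      ((M2 s N).card : ℝ) * ((MH s N).card : ℝ) * (c / V * (X * (Real.log X) ^ (2 * s)))) =
      V * (c / V * (X * (Real.log X) ^ (2 * s))) := by
      rw [hV]
      ring
    rw [h1]
    field_simp
  rw [s3]
  have hs0 : (0:ℝ) ≤ (s : ℝ) + 1 := by positivity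
  exact mul_le_mul_of_nonneg_left (add_le_add s1 s2) hs0

end Pool.Agent.Work.MP_122e00_nt
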